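import Pool.Agent.Lib.MP_eee45d_an.L2Basic

open scoped ComplexOrder CStarAlgebra

noncomputable section

namespace FreeMono

set_option linter.unusedSectionVars false

section

variable {N : Type*} [CStarAlgebra N] {φ : N →L[ℂ] ℂ}

lemma nonneg_of_approx (Q : ℂ) (h : ∀ δ > (0 : ℝ), ∃ z : ℂ, 0 ≤ z ∧ ‖Q - z‖ ≤ δ) : 0 ≤ Q := by
  rw [Complex.nonneg_iff]
  constructor
  · by_contra hneg
    push Not at hneg
    obtain ⟨z, hz, hle⟩ := h (-Q.re / 2) (by linarith)
    have h1 := (Complex.abs_re_le_norm (Q - z)).trans hle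
    rw [Complex.sub_re, abs_le] at h1
    have h2 := (Complex.nonneg_iff.1 hz).1
    linarith [h1.1]
  · by_contra hne
    have hne' : Q.im ≠ 0 := fun h => hne h.symm
    obtain ⟨z, hz, hle⟩ := h (|Q.im| / 2) (by positivity)
    have h1 := (Complex.abs_im_le_norm (Q - z)).trans hle
    rw [Complex.sub_im, ← (Complex.nonneg_iff.1 hz).2, sub_zero] at h1
    have h2 : 0 < |Q.im| := abs_pos.2 hne'
    linarith

/-- The trace arithmetic-geometric mean inequality in a C*-algebra with a faithful trace. -/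
lemma trace_amgm' (h : IsFaithfulTrace φ) {A B C D s t : N} (hs : B = star s * s)
    (ht : A = star t * t) (hC : C * B = 1) (hD : D * A = 1) :
    0 ≤ φ (D * B) + φ (C * A) - 2 := by
  have hB : star B = B := by rw [hs, star_mul, star_star]
  have hA : star A = A := by rw [ht, star_mul, star_star]
  have inv : ∀ {C B : N}, star B = B → C * B = 1 → B * C = 1 ∧ star C = C := by
    intro C B hB hC
    have h1 : B * star C = 1 := by
      have := congrArg star hC
      rwa [star_mul, hB, star_one] at this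
    have h2 : star C = C := by
      calc star C = (C * B) * star C := by rw [hC, one_mul]
        _ = C * (B * star C) := by rw [mul_assoc]
        _ = C := by rw [h1, mul_one]
    exact ⟨by rwa [h2] at h1, h2⟩
  obtain ⟨hBC, hCs⟩ := inv hB hC
  obtain ⟨hAD, hDs⟩ := inv hA hD
  set Δ := B - A with hΔ
  have hΔs : star Δ = Δ := by rw [hΔ, star_sub, hB, hA]
  obtain ⟨a, ha⟩ : ∃ a, a = t * D := ⟨_, rfl⟩
  obtain ⟨b, hb⟩ : ∃ b, b = s * C := ⟨_, rfl⟩
  have haa : star a * a = D := by
    rw [ha, star_mul, hDs]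
    calc D * star t * (t * D) = D * (star t * t) * D := by simp only [mul_assoc]
      _ = D := by rw [← ht, hD, one_mul]
  have hbb : star b * b = C := by
    rw [hb, star_mul, hCs]
    calc C * star s * (s * C) = C * (star s * s) * C := by simp only [mul_assoc]
      _ = C := by rw [← hs, hC, one_mul]
  have e1 : D * Δ * C * Δ = D * B + C * A - 1 - 1 := by
    have : D * Δ * C * Δ = D * B * (C * B) - D * (B * C) * A - (D * A) * (C * B)
        + (D * A) * C * A := by
      rw [hΔ]; noncomm_ring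
    rw [this, hC, hBC, mul_one D, hD, mul_one, mul_one, one_mul]
    abel
  have e2 : φ (D * Δ * C * Δ) = φ (star (a * Δ * star b) * (a * Δ * star b)) := by
    rw [← haa, ← hbb]
    rw [show star a * a * Δ * (star b * b) * Δ =
      (star a * a * Δ * star b) * (b * Δ) by simp only [mul_assoc]]
    rw [h.comm]
    congr 1
    rw [star_mul, star_mul, star_star, hΔs]
    simp only [mul_assoc]
  have e3 : 0 ≤ φ (D * Δ * C * Δ) := by
    rw [e2]; exact h.nonneg _
  rw [e1, map_sub, map_sub, map_add, h.one] at e3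
  have e4 : φ (D * B) + φ (C * A) - 2 = φ (D * B) + φ (C * A) - 1 - 1 := by ring
  rw [e4]; exact e3

/-- resolvents of positive elements -/
lemma exists_resolvent {A : N} (hA : ∃ t, A = star t * t) {δ : ℝ} (hδ : 0 < δ) :
    ∃ R g u v : N, R * (A + (δ : ℂ) • 1) = 1 ∧ star g * g = R * A ∧
      A + (δ : ℂ) • 1 = star u * u ∧ R = star v * v ∧ star R = R ∧ R * A = A * R := by
  obtain ⟨t, ht⟩ := hA
  have hsa : IsSelfAdjoint A := by rw [ht]; exact IsSelfAdjoint.star_mul_self t
  have hspec : ∀ x ∈ spectrum ℝ A, 0 ≤ x := by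
    rw [ht]; exact fun x hx => spectrum_star_mul_self_nonneg x hx
  set p : ℝ → ℝ := fun x => max x 0 with hp
  have hpc : Continuous p := by fun_prop
  have hp0 : ∀ x, 0 ≤ p x := fun x => le_max_right _ _
  have hpx : ∀ x ∈ spectrum ℝ A, p x = x := fun x hx => max_eq_left (hspec x hx)
  have hne : ∀ x, p x + δ ≠ 0 := fun x => by have := hp0 x; positivity
  have c1 : Continuous fun x => (p x + δ)⁻¹ := by fun_prop (disch := assumption)
  have c2 : Continuous fun x => Real.sqrt (p x * (p x + δ)⁻¹) := by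
    fun_prop (disch := assumption)
  have c3 : Continuous fun x => Real.sqrt (p x + δ) := by fun_prop
  have c4 : Continuous fun x => Real.sqrt ((p x + δ)⁻¹) := by fun_prop (disch := assumption)
  have hAc : A = cfc (fun x : ℝ => x) A := (cfc_id' ℝ A).symm
  have hAd : A + (δ : ℂ) • 1 = cfc (fun x : ℝ => x + δ) A := by
    rw [cfc_add_const δ (fun x : ℝ => x) A (by fun_prop), cfc_id' ℝ A,
      Algebra.algebraMap_eq_smul_one, Complex.coe_smul]
  refine ⟨cfc (fun x => (p x + δ)⁻¹) A, cfc (fun x => Real.sqrt (p x * (p x + δ)⁻¹)) A,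
    cfc (fun x => Real.sqrt (p x + δ)) A, cfc (fun x => Real.sqrt ((p x + δ)⁻¹)) A,
    ?_, ?_, ?_, ?_, ?_, ?_⟩
  · rw [hAd, ← cfc_mul _ _ A c1.continuousOn (by fun_prop), ← cfc_const_one ℝ A]
    refine cfc_congr fun x hx => ?_
    show (p x + δ)⁻¹ * (x + δ) = 1
    rw [hpx x hx]
    exact inv_mul_cancel₀ (by have := hspec x hx; positivity)
  · have hs : IsSelfAdjoint (cfc (fun x => Real.sqrt (p x * (p x + δ)⁻¹)) A) := cfc_predicate _ _
    have h1 : cfc (fun x => (p x + δ)⁻¹) A * A = cfc (fun x => (p x + δ)⁻¹ * x) A := by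
      rw [cfc_mul (fun x => (p x + δ)⁻¹) (fun x => x) A c1.continuousOn (by fun_prop), cfc_id' ℝ A]
    rw [hs.star_eq, ← cfc_mul _ _ A c2.continuousOn c2.continuousOn, h1]
    refine cfc_congr fun x hx => ?_
    show Real.sqrt (p x * (p x + δ)⁻¹) * Real.sqrt (p x * (p x + δ)⁻¹) = (p x + δ)⁻¹ * x
    rw [Real.mul_self_sqrt (mul_nonneg (hp0 x) (inv_nonneg.2 (by have := hp0 x; positivity))),
      hpx x hx, mul_comm]
  · have hs : IsSelfAdjoint (cfc (fun x => Real.sqrt (p x + δ)) A) := cfc_predicate _ _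
    rw [hs.star_eq, ← cfc_mul _ _ A c3.continuousOn c3.continuousOn, hAd]
    refine cfc_congr fun x hx => ?_
    show x + δ = Real.sqrt (p x + δ) * Real.sqrt (p x + δ)
    rw [Real.mul_self_sqrt (by have := hp0 x; positivity), hpx x hx]
  · have hs : IsSelfAdjoint (cfc (fun x => Real.sqrt ((p x + δ)⁻¹)) A) := cfc_predicate _ _
    rw [hs.star_eq, ← cfc_mul _ _ A c4.continuousOn c4.continuousOn]
    refine cfc_congr fun x hx => ?_
    show (p x + δ)⁻¹ = Real.sqrt ((p x + δ)⁻¹) * Real.sqrt ((p x + δ)⁻¹)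
    rw [Real.mul_self_sqrt (inv_nonneg.2 (by have := hp0 x; positivity))]
  · have hs : IsSelfAdjoint (cfc (fun x => (p x + δ)⁻¹) A) := cfc_predicate _ _
    exact hs.star_eq
  · have h1 : cfc (fun x => (p x + δ)⁻¹) A * A = cfc (fun x => (p x + δ)⁻¹ * x) A := by
      rw [cfc_mul _ _ A c1.continuousOn (by fun_prop), cfc_id' ℝ A]
    have h2 : A * cfc (fun x => (p x + δ)⁻¹) A = cfc (fun x => x * (p x + δ)⁻¹) A := by
      rw [cfc_mul _ _ A (by fun_prop) c1.continuousOn, cfc_id' ℝ A]
    rw [h1, h2]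
    exact cfc_congr fun x _ => mul_comm _ _

/-- the basic comparison: `φ(D B)` is asymptotically at least `φ((A+δ)⁻¹ B)` when `D A → 1` -/
lemma compare (h : IsFaithfulTrace φ) {A B R g s : N} {δ : ℝ} (hδ : 0 < δ)
    (hR : R * (A + (δ : ℂ) • 1) = 1) (hg : star g * g = R * A) (hAs : star A = A) (hRA : R * A = A * R) (hs : B = star s * s) {K : ℝ}
    {σ : ℂ}
    (hD : ∀ ε > (0 : ℝ), ∃ D : N, n2 φ (D * A - 1) < ε ∧ n2 φ D ≤ K ∧ ‖φ (D * B) - σ‖ < ε) :
    0 ≤ σ - φ (R * B) := by
  have hK0 : 0 ≤ K := by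
    obtain ⟨D, -, hDK, -⟩ := hD 1 one_pos
    exact (n2_nonneg _ _).trans hDK
  refine nonneg_of_approx _ fun ε hε => ?_
  set M : ℝ := 1 + ‖R‖ * ‖B‖ + δ * (K * ‖R‖ * ‖B‖) with hM
  have hM0 : 0 < M := by positivity
  obtain ⟨D, hD1, hD2, hD3⟩ := hD (ε / M) (by positivity)
  refine ⟨(δ : ℂ) * φ (star (g * star D * star s) * (g * star D * star s)), ?_, ?_⟩
  · exact mul_nonneg (by exact_mod_cast hδ.le) (h.nonneg _)
  · -- algebra
    have hR' : (A + (δ : ℂ) • 1) * R = 1 := by
      rw [add_mul, smul_mul_assoc, one_mul, ← hRA]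
      rwa [mul_add, mul_smul_comm, mul_one] at hR
    have e1 : φ (D * B) - φ (R * B) = φ ((D * A - 1) * (R * B)) + δ * φ (D * R * B) := by
      have : D * B - R * B = (D * A - 1) * (R * B) + (δ : ℂ) • (D * R * B) := by
        have h1 : D * B = D * ((A + (δ : ℂ) • 1) * R) * B := by rw [hR', mul_one]
        rw [h1]
        simp only [mul_add, add_mul, mul_smul_comm, smul_mul_assoc, sub_mul, one_mul]
        noncomm_ring
      rw [← map_sub, this, map_add, map_smul, smul_eq_mul]
    have e2 : φ (star (g * star D * star s) * (g * star D * star s)) =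
        φ (D * R * (A * star D) * B) := by
      rw [star_mul, star_mul, star_star, star_star]
      rw [show s * (D * star g) * (g * star D * star s) =
        (s * (D * (star g * g) * star D)) * star s by simp only [mul_assoc]]
      rw [h.comm, hg, hs]
      have : star s * (s * (D * (R * A) * star D)) =
        (star s * s) * (D * R * (A * star D)) := by simp only [mul_assoc]
      rw [this, h.comm]
    have e3 : φ (D * R * B) = φ (D * R * (A * star D) * B) - φ (D * R * (star (D * A - 1) * B)) := by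
      rw [star_sub, star_mul, hAs, star_one, ← map_sub]
      congr 1
      noncomm_ring
    have e4 : σ - φ (R * B) - (δ : ℂ) * φ (star (g * star D * star s) * (g * star D * star s)) =
        -(φ (D * B) - σ) + φ ((D * A - 1) * (R * B)) -
          δ * φ (D * R * (star (D * A - 1) * B)) := by
      rw [e2]
      linear_combination e1 + (δ : ℂ) * e3
    rw [e4]
    have f1 : ‖φ ((D * A - 1) * (R * B))‖ ≤ ε / M * (‖R‖ * ‖B‖) := by
      refine (cauchy_schwarz' h.nonneg _ _).trans ?_
      rw [n2_star h]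
      refine mul_le_mul hD1.le ?_ (n2_nonneg _ _) (by positivity)
      exact (n2_le_norm h _).trans (norm_mul_le _ _)
    have f2 : ‖φ (D * R * (star (D * A - 1) * B))‖ ≤ K * ‖R‖ * (ε / M * ‖B‖) := by
      refine (cauchy_schwarz' h.nonneg _ _).trans ?_
      rw [n2_star h]
      refine mul_le_mul ?_ ?_ (n2_nonneg _ _) (by positivity)
      · exact (n2_mul_right h _ _).trans (mul_le_mul_of_nonneg_right hD2 (norm_nonneg _))
      · refine (n2_mul_right h _ _).trans (mul_le_mul_of_nonneg_right ?_ (norm_nonneg _))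
        rw [n2_star h]; exact hD1.le
    have f3 : ‖(δ : ℂ) * φ (D * R * (star (D * A - 1) * B))‖ ≤
        δ * (K * ‖R‖ * (ε / M * ‖B‖)) := by
      rw [norm_mul, Complex.norm_real, Real.norm_eq_abs, abs_of_pos hδ]
      exact mul_le_mul_of_nonneg_left f2 hδ.le
    calc ‖-(φ (D * B) - σ) + φ ((D * A - 1) * (R * B)) -
          δ * φ (D * R * (star (D * A - 1) * B))‖
        ≤ ‖φ (D * B) - σ‖ + ‖φ ((D * A - 1) * (R * B))‖ +
          ‖(δ : ℂ) * φ (D * R * (star (D * A - 1) * B))‖ := by
          refine (norm_sub_le _ _).trans (add_le_add ((norm_add_le _ _).trans ?_) le_rfl)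
          rw [norm_neg]
      _ ≤ ε / M + ε / M * (‖R‖ * ‖B‖) + δ * (K * ‖R‖ * (ε / M * ‖B‖)) := by
          gcongr
      _ = ε / M * M := by rw [hM]; ring
      _ = ε := by field_simp

/-- The trace arithmetic-geometric mean inequality with approximate `L²` inverses. -/
theorem amgm_seq (h : IsFaithfulTrace φ) {A B : N} (hA : ∃ t, A = star t * t)
    (hB : ∃ s, B = star s * s) {K : ℝ} {σ σ' : ℂ}
    (hD : ∀ ε > (0 : ℝ), ∃ D : N, n2 φ (D * A - 1) < ε ∧ n2 φ D ≤ K ∧ ‖φ (D * B) - σ‖ < ε)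
    (hC : ∀ ε > (0 : ℝ), ∃ C : N, n2 φ (C * B - 1) < ε ∧ n2 φ C ≤ K ∧ ‖φ (C * A) - σ'‖ < ε) :
    2 ≤ (σ + σ').re := by
  have hK0 : 0 ≤ K := by
    obtain ⟨D, -, hDK, -⟩ := hD 1 one_pos
    exact (n2_nonneg _ _).trans hDK
  have hAs : star A = A := by
    obtain ⟨t, ht⟩ := hA
    rw [ht, star_mul, star_star]
  have hBs : star B = B := by
    obtain ⟨s, hs⟩ := hB
    rw [hs, star_mul, star_star]
  refine le_of_forall_pos_le_add fun ε hε => ?_
  set δ : ℝ := ε / (2 * (K + 1)) with hδdef
  have hδ : 0 < δ := by positivity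
  obtain ⟨R, g, u, v, hR1, hR2, hR3, hR4, hR5, hR6⟩ := exists_resolvent hA hδ
  obtain ⟨S, g', u', v', hS1, hS2, hS3, hS4, hS5, hS6⟩ := exists_resolvent hB hδ
  obtain ⟨t, ht⟩ := hA
  obtain ⟨s, hs⟩ := hB
  have k1 := compare h hδ hR1 hR2 hAs hR6 hs hD
  have k2 := compare h hδ hS1 hS2 hBs hS6 ht hC
  -- the trace of the resolvent
  have tr_res : ∀ {A R g : N}, R * (A + (δ : ℂ) • 1) = 1 → star g * g = R * A → star R = R →
      star A = A → R * A = A * R →
      (∀ ε > (0 : ℝ), ∃ D : N, n2 φ (D * A - 1) < ε ∧ n2 φ D ≤ K) → (φ R).re ≤ K := by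
    intro A R g hR1 hR2 hR5 hAs hR6 hD
    refine le_of_forall_pos_le_add fun η hη => ?_
    -- apply the comparison with `B = 1` along a sequence with `σ = φ D`
    have hR' : (A + (δ : ℂ) • 1) * R = 1 := by
      rw [add_mul, smul_mul_assoc, one_mul, ← hR6]
      rwa [mul_add, mul_smul_comm, mul_one] at hR1
    set M : ℝ := 1 + ‖R‖ + δ * (K * ‖R‖) with hM
    have hM0 : 0 < M := by positivity
    obtain ⟨D, hD1, hD2⟩ := hD (η / M) (by positivity)
    have e1 : φ D - φ R = φ ((D * A - 1) * R) + δ * φ (D * R) := by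
      have : D - R = (D * A - 1) * R + (δ : ℂ) • (D * R) := by
        have h1 : D = D * ((A + (δ : ℂ) • 1) * R) := by rw [hR', mul_one]
        conv_lhs => rw [h1]
        simp only [mul_add, add_mul, mul_smul_comm, smul_mul_assoc, sub_mul, one_mul]
        noncomm_ring
      rw [← map_sub, this, map_add, map_smul, smul_eq_mul]
    have e2 : φ (star (g * star D) * (g * star D)) = φ (D * R * (A * star D)) := by
      rw [star_mul, star_star]
      rw [show D * star g * (g * star D) = D * (star g * g) * star D by simp only [mul_assoc],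
        hR2]
      simp only [mul_assoc]
    have e3 : φ (D * R) = φ (D * R * (A * star D)) - φ (D * R * star (D * A - 1)) := by
      rw [star_sub, star_mul, hAs, star_one, ← map_sub]
      congr 1
      noncomm_ring
    have p1 := (Complex.nonneg_iff.1 (h.nonneg (g * star D))).1
    rw [e2] at p1
    have f1 : ‖φ ((D * A - 1) * R)‖ ≤ η / M * ‖R‖ := by
      refine (cauchy_schwarz' h.nonneg _ _).trans ?_
      rw [n2_star h]
      exact mul_le_mul hD1.le (n2_le_norm h _) (n2_nonneg _ _) (by positivity)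
    have f2 : ‖φ (D * R * star (D * A - 1))‖ ≤ K * ‖R‖ * (η / M) := by
      refine (cauchy_schwarz' h.nonneg _ _).trans ?_
      rw [n2_star h, n2_star h]
      refine mul_le_mul ?_ hD1.le (n2_nonneg _ _) (by positivity)
      exact (n2_mul_right h _ _).trans (mul_le_mul_of_nonneg_right hD2 (norm_nonneg _))
    have f3 : ‖φ D‖ ≤ K := (norm_trace_le h _).trans hD2
    have g1 : (φ D).re ≤ K := (Complex.re_le_norm _).trans f3
    have g2 : -(φ ((D * A - 1) * R)).re ≤ η / M * ‖R‖ :=
      (neg_le_abs _).trans ((Complex.abs_re_le_norm _).trans f1)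
    have g3 : (φ (D * R * star (D * A - 1))).re ≤ K * ‖R‖ * (η / M) :=
      (Complex.re_le_norm _).trans f2
    have e1' := congrArg Complex.re e1
    have e3' := congrArg Complex.re e3
    rw [Complex.sub_re] at e1' e3'
    rw [Complex.add_re, Complex.re_ofReal_mul] at e1'
    have g4 : (φ R).re ≤ K + η / M * ‖R‖ + δ * (K * ‖R‖ * (η / M)) := by
      have g5 : δ * (φ (D * R)).re ≥ -(δ * (K * ‖R‖ * (η / M))) := by
        rw [e3']
        nlinarith
      linarith
    refine g4.trans ?_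
    have : η / M * ‖R‖ + δ * (K * ‖R‖ * (η / M)) ≤ η := by
      calc η / M * ‖R‖ + δ * (K * ‖R‖ * (η / M)) = η / M * (M - 1) := by rw [hM]; ring
        _ ≤ η / M * M := by
            apply mul_le_mul_of_nonneg_left _ (by positivity); linarith
        _ = η := by field_simp
    linarith
  have k3 : (φ R).re ≤ K := tr_res hR1 hR2 hR5 hAs hR6 fun ε hε => by
    obtain ⟨D, h1, h2, -⟩ := hD ε hε
    exact ⟨D, h1, h2⟩
  have k4 : (φ S).re ≤ K := tr_res hS1 hS2 hS5 hBs hS6 fun ε hε => by
    obtain ⟨D, h1, h2, -⟩ := hC ε hε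
    exact ⟨D, h1, h2⟩
  have k5 := trace_amgm' h hS3 hR3 hS1 hR1
  have k6 : φ (R * (B + (δ : ℂ) • 1)) = φ (R * B) + δ * φ R := by
    rw [mul_add, mul_smul_comm, mul_one, map_add, map_smul, smul_eq_mul]
  have k7 : φ (S * (A + (δ : ℂ) • 1)) = φ (S * A) + δ * φ S := by
    rw [mul_add, mul_smul_comm, mul_one, map_add, map_smul, smul_eq_mul]
  rw [k6, k7] at k5
  have r1 := (Complex.nonneg_iff.1 k1).1
  have r2 := (Complex.nonneg_iff.1 k2).1
  have r3 := (Complex.nonneg_iff.1 k5).1
  simp only [Complex.sub_re, Complex.add_re, Complex.re_ofReal_mul, Complex.re_ofNat] at r1 r2 r3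
  rw [Complex.add_re]
  have h5 : δ * (φ R).re ≤ δ * K := mul_le_mul_of_nonneg_left k3 hδ.le
  have h6 : δ * (φ S).re ≤ δ * K := mul_le_mul_of_nonneg_left k4 hδ.le
  have h7 : 2 * (δ * K) ≤ ε := by
    rw [hδdef]
    have : 2 * (ε / (2 * (K + 1)) * K) = ε * (K / (K + 1)) := by field_simp
    rw [this]
    have h8 : K / (K + 1) ≤ 1 := by rw [div_le_one (by positivity)]; linarith
    nlinarith
  linarith

end

end FreeMono
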