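import Pool.Agent.Lib.MP_eee45d_an.Words

open scoped ComplexOrder CStarAlgebra
open MulOpposite

noncomputable section

namespace FreeMono

set_option linter.unusedSectionVars false

section coarse

variable {A 𝔐 : Type*} [CStarAlgebra A] [CStarAlgebra 𝔐]
variable (l : A →⋆ₐ[ℂ] 𝔐) (r : Aᵐᵒᵖ →⋆ₐ[ℂ] 𝔐)
variable {ι : Type*} [DecidableEq ι]

@[simp] lemma fdq_nil (Z : ι → A) (j : ι) : fdq l r Z j [] = 0 := by simp [fdq]

lemma fdq_cons (Z : ι → A) (j i : ι) (w : List ι) :
    fdq l r Z j (i :: w) = (if i = j then r (op (ev Z w)) else 0) + l (Z i) * fdq l r Z j w := by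
  unfold fdq
  rw [List.length_cons, Finset.sum_range_succ', add_comm, Finset.mul_sum]
  congr 1
  · simp
  · refine Finset.sum_congr rfl fun p _ => ?_
    simp only [List.getElem?_cons_succ, List.take_succ_cons, List.drop_succ_cons, ev_cons, map_mul,
      mul_ite, mul_zero, mul_assoc]

variable (hcomm : ∀ a b, l a * r b = r b * l a)

include hcomm in
lemma fdq_append (Z : ι → A) (j : ι) (u v : List ι) :
    fdq l r Z j (u ++ v) = l (ev Z u) * fdq l r Z j v + r (op (ev Z v)) * fdq l r Z j u := by
  induction u with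
  | nil => simp
  | cons i u ih =>
    rw [List.cons_append, fdq_cons, fdq_cons, ih, ev_append, ev_cons, op_mul, map_mul, map_mul,
      mul_add, mul_add, mul_ite, mul_zero, ← mul_assoc (l (Z i)) (r _), hcomm, ← mul_assoc,
      ← mul_assoc]
    abel

/-- The letters `l (Z i)` and `r (Z i)`. -/
def LR (Z : ι → A) : ι ⊕ ι → 𝔐 := Sum.elim (fun i => l (Z i)) (fun i => r (op (Z i)))

lemma LR_sa {Z : ι → A} (hZ : ∀ i, IsSelfAdjoint (Z i)) (i : ι ⊕ ι) :
    IsSelfAdjoint (LR l r Z i) := by
  rcases i with i | i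
  · exact (hZ i).map l
  · show star (r (op (Z i))) = r (op (Z i))
    rw [← map_star, ← op_star, (hZ i).star_eq]

include hcomm in
lemma exists_LR (w : List (ι ⊕ ι)) : ∃ u v : List ι, ∀ Z : ι → A,
    ev (LR l r Z) w = l (ev Z u) * r (op (ev Z v)) := by
  induction w with
  | nil => exact ⟨[], [], fun Z => by simp⟩
  | cons i w ih =>
    obtain ⟨u, v, h⟩ := ih
    rcases i with i | i
    · refine ⟨i :: u, v, fun Z => ?_⟩
      rw [ev_cons, h, ev_cons, map_mul, mul_assoc]; rfl
    · refine ⟨u, v ++ [i], fun Z => ?_⟩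
      rw [ev_cons, h, ev_append, op_mul, map_mul]
      show r (op (Z i)) * _ = _
      rw [← mul_assoc, ← hcomm, mul_assoc]
      simp

/-- Scalar-free description of a relation on `𝔐` compatible with a relation on `A`. -/
lemma RelM_l {U V : ι → A} {a b : A} (h : (a, b) ∈ Rel U V) :
    (l a, l b) ∈ Rel (LR l r U) (LR l r V) := by
  refine cs_induction (p := fun p : A × A => (l p.1, l p.2) ∈ Rel (LR l r U) (LR l r V))
    ?_ ?_ ?_ ?_ ?_ (a, b) h
  · rintro _ ⟨w, rfl⟩
    rw [ev_prod]
    induction w with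
    | nil => simpa using Rel_one _ _
    | cons i w ih =>
      simp only [ev_cons, map_mul]
      exact Rel_mul (Rel_gen (LR l r U) (LR l r V) (Sum.inl i)) ih
  · simpa using Rel_zero _ _
  · intro x y hx hy
    simpa using add_mem hx hy
  · intro c x hx
    simpa using Submodule.smul_mem _ c hx
  · exact (Rel_closed _ _).preimage (by
      have := map_continuous l
      fun_prop)

lemma RelM_r {U V : ι → A} {a b : A} (h : (a, b) ∈ Rel U V) :
    (r (op a), r (op b)) ∈ Rel (LR l r U) (LR l r V) := by
  refine cs_induction (p := fun p : A × A => (r (op p.1), r (op p.2)) ∈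
    Rel (LR l r U) (LR l r V)) ?_ ?_ ?_ ?_ ?_ (a, b) h
  · rintro _ ⟨w, rfl⟩
    rw [ev_prod]
    induction w using List.reverseRecOn with
    | nil => simpa using Rel_one _ _
    | append_singleton w i ih =>
      simp only [ev_append, op_mul, map_mul, ev_cons, ev_nil, mul_one]
      exact Rel_mul (Rel_gen (LR l r U) (LR l r V) (Sum.inr i)) ih
  · simpa using Rel_zero _ _
  · intro x y hx hy
    simpa using add_mem hx hy
  · intro c x hx
    simpa using Submodule.smul_mem _ c hx
  · exact (Rel_closed _ _).preimage (by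
      have := map_continuous r
      fun_prop)

/-- free difference quotients respect relations -/
lemma RelM_fdq {P Q U V : ι → A} (h : ∀ i, (U i, V i) ∈ Rel P Q) (j : ι) (w : List ι) :
    (fdq l r U j w, fdq l r V j w) ∈ Rel (LR l r P) (LR l r Q) := by
  have hev : ∀ w, (ev U w, ev V w) ∈ Rel P Q := by
    intro w
    rw [← ev_prod]
    exact ev_mem h w
  induction w with
  | nil => simpa using Rel_zero _ _
  | cons i w ih =>
    rw [fdq_cons, fdq_cons]
    refine Rel_add ?_ (Rel_mul (RelM_l l r (h i)) ih)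
    split_ifs
    · exact RelM_r l r (hev w)
    · exact Rel_zero _ _

/-- free difference quotients lie in the closed algebra generated by the letters -/
lemma fdq_mem (Z : ι → A) (j : ι) (w : List ι) : fdq l r Z j w ∈ Pol (LR l r Z) := by
  have hr : ∀ w, r (op (ev Z w)) ∈ Pol (LR l r Z) := by
    intro w
    induction w using List.reverseRecOn with
    | nil => simpa using Pol_one _
    | append_singleton w i ih =>
      simp only [ev_append, op_mul, map_mul, ev_cons, ev_nil, mul_one]
      exact Pol_mul (Pol_gen (LR l r Z) (Sum.inr i)) ih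
  induction w with
  | nil => simp
  | cons i w ih =>
    rw [fdq_cons]
    refine add_mem ?_ (Pol_mul (Pol_gen (LR l r Z) (Sum.inl i)) ih)
    split_ifs
    · exact hr w
    · exact zero_mem _

variable [Fintype ι]

/-- The closed graph of the free difference quotients at `Z`: the closure of
`{(P(Z), (∂_j P)(Z))_j}`. -/
def Gr (Z : ι → A) : Submodule ℂ (A × (ι → 𝔐)) :=
  (Submodule.span ℂ (Set.range fun w : List ι => (ev Z w, fun j => fdq l r Z j w))).topologicalClosure

lemma Gr_eq (Z : ι → A) :
    Gr l r Z = cs (Set.range fun w : List ι => (ev Z w, fun j => fdq l r Z j w)) := rfl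

lemma Gr_closed (Z : ι → A) : IsClosed (Gr l r Z : Set (A × (ι → 𝔐))) := cs_closed _

lemma Gr_ev (Z : ι → A) (w : List ι) : (ev Z w, fun j => fdq l r Z j w) ∈ Gr l r Z :=
  subset_cs ⟨w, rfl⟩

lemma Gr_gen (Z : ι → A) (i : ι) : (Z i, fun j => if i = j then (1 : 𝔐) else 0) ∈ Gr l r Z := by
  have := Gr_ev l r Z [i]
  simpa [fdq_cons] using this

include hcomm in
lemma Gr_mul {Z : ι → A} {a a' : A} {b b' : ι → 𝔐} (h : (a, b) ∈ Gr l r Z)
    (h' : (a', b') ∈ Gr l r Z) :
    (a * a', fun j => l a * b' j + r (op a') * b j) ∈ Gr l r Z := by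
  have hl := map_continuous l
  have hr := map_continuous r
  refine cs_induction (p := fun p : A × (ι → 𝔐) =>
    (p.1 * a', fun j => l p.1 * b' j + r (op a') * p.2 j) ∈ Gr l r Z) ?_ ?_ ?_ ?_ ?_ (a, b) h
  · rintro _ ⟨u, rfl⟩
    refine cs_induction (p := fun p : A × (ι → 𝔐) =>
      (ev Z u * p.1, fun j => l (ev Z u) * p.2 j + r (op p.1) * fdq l r Z j u) ∈ Gr l r Z)
      ?_ ?_ ?_ ?_ ?_ (a', b') h'
    · rintro _ ⟨v, rfl⟩
      have := Gr_ev l r Z (u ++ v)
      simpa only [ev_append, fdq_append l r hcomm] using this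
    · have : ((ev Z u * (0 : A × (ι → 𝔐)).1,
        fun j => l (ev Z u) * (0 : A × (ι → 𝔐)).2 j + r (op (0 : A × (ι → 𝔐)).1) * fdq l r Z j u) :
          A × (ι → 𝔐)) = 0 := by
        ext <;> simp
      rw [this]; exact zero_mem _
    · intro x y hx hy
      convert add_mem hx hy using 1
      ext
      · simp [mul_add]
      · simp only [Prod.snd_add, Prod.fst_add, Pi.add_apply, mul_add, op_add, map_add, add_mul]
        abel
    · intro c x hx
      convert Submodule.smul_mem _ c hx using 1
      ext <;> simp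
    · exact (Gr_closed l r Z).preimage (by fun_prop)
  · have : (((0 : A × (ι → 𝔐)).1 * a',
        fun j => l (0 : A × (ι → 𝔐)).1 * b' j + r (op a') * (0 : A × (ι → 𝔐)).2 j) :
          A × (ι → 𝔐)) = 0 := by
      ext <;> simp
    rw [this]; exact zero_mem _
  · intro x y hx hy
    convert add_mem hx hy using 1
    ext
    · simp [add_mul]
    · simp only [Prod.snd_add, Prod.fst_add, Pi.add_apply, mul_add, map_add, add_mul]
      abel
  · intro c x hx
    convert Submodule.smul_mem _ c hx using 1
    ext <;> simp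
  · exact (Gr_closed l r Z).preimage (by fun_prop)

include hcomm in
/-- Chain rule: a `C¹` function of `Y` is a `C¹` function of `X` when `Y` is one. -/
lemma Gr_chain {X Y : ι → A} {B : ι → ι → 𝔐} (hY : ∀ i, (Y i, B i) ∈ Gr l r X)
    {a : A} {c : ι → 𝔐} (h : (a, c) ∈ Gr l r Y) :
    (a, fun j => ∑ k, c k * B k j) ∈ Gr l r X := by
  refine cs_induction (p := fun p : A × (ι → 𝔐) =>
    (p.1, fun j => ∑ k, p.2 k * B k j) ∈ Gr l r X) ?_ ?_ ?_ ?_ ?_ (a, c) h
  · rintro _ ⟨w, rfl⟩
    show (ev Y w, fun j => ∑ k, fdq l r Y k w * B k j) ∈ Gr l r X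
    induction w with
    | nil =>
      have := Gr_ev l r X []
      simpa using this
    | cons i w ih =>
      have := Gr_mul l r hcomm (hY i) ih
      convert this using 1
      ext j
      · simp
      · simp only [fdq_cons, add_mul, Finset.sum_add_distrib, Finset.mul_sum, ite_mul, zero_mul,
          Finset.sum_ite_eq, Finset.mem_univ, if_true, mul_assoc]
        rw [add_comm]
  · have : (((0 : A × (ι → 𝔐)).1, fun j => ∑ k, (0 : A × (ι → 𝔐)).2 k * B k j) :
          A × (ι → 𝔐)) = 0 := by
      ext <;> simp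
    rw [this]; exact zero_mem _
  · intro x y hx hy
    convert add_mem hx hy using 1
    ext
    · simp
    · simp [add_mul, Finset.sum_add_distrib]
  · intro c x hx
    convert Submodule.smul_mem _ c hx using 1
    ext
    · simp
    · simp [Finset.smul_sum]
  · exact (Gr_closed l r X).preimage (by fun_prop)

/-- both components of an element of the closed graph are limits of polynomials -/
lemma Gr_mem_Pol {Z : ι → A} {a : A} {b : ι → 𝔐} (h : (a, b) ∈ Gr l r Z) :
    a ∈ Pol Z ∧ ∀ j, b j ∈ Pol (LR l r Z) := by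
  refine ⟨?_, fun j => ?_⟩
  · refine cs_induction (p := fun p : A × (ι → 𝔐) => p.1 ∈ Pol Z) ?_ ?_ ?_ ?_ ?_ (a, b) h
    · rintro _ ⟨w, rfl⟩
      exact Pol_ev Z w
    · exact zero_mem _
    · intro x y hx hy
      exact add_mem hx hy
    · intro c x hx
      exact Submodule.smul_mem _ c hx
    · exact (Pol_closed Z).preimage continuous_fst
  · refine cs_induction (p := fun p : A × (ι → 𝔐) => p.2 j ∈ Pol (LR l r Z)) ?_ ?_ ?_ ?_ ?_
      (a, b) h
    · rintro _ ⟨w, rfl⟩
      exact fdq_mem l r Z j w
    · exact zero_mem _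
    · intro x y hx hy
      exact add_mem hx hy
    · intro c x hx
      exact Submodule.smul_mem _ c hx
    · exact (Pol_closed (LR l r Z)).preimage (by fun_prop)

end coarse

end FreeMono
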