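import Mathlib

/-!
# Definitions for the uniqueness of free monotone transport (MP_eee45d_an)

`A` plays the role of the von Neumann algebra `M`, and `𝔐` that of `M ⊗̄ M^op`.
-/

open scoped ComplexOrder
open MulOpposite

noncomputable section

namespace FreeMono

/-- A faithful tracial state on a unital C*-algebra. -/
structure IsFaithfulTrace {A : Type*} [CStarAlgebra A] (τ : A →L[ℂ] ℂ) : Prop where
  one : τ 1 = 1
  comm : ∀ a b, τ (a * b) = τ (b * a)
  nonneg : ∀ a, 0 ≤ τ (star a * a)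
  faithful : ∀ a, τ (star a * a) = 0 → a = 0

/-- The `L²`-norm `‖a‖₂ = τ(a* a)^{1/2}`. -/
def n2 {A : Type*} [CStarAlgebra A] (τ : A →L[ℂ] ℂ) (a : A) : ℝ := Real.sqrt (τ (star a * a)).re

/-- Norm-bounded sequences that are Cauchy in `L²` converge in `L²`.  (This holds for a von Neumann
algebra with a faithful normal trace.) -/
def BallComplete {A : Type*} [CStarAlgebra A] (τ : A →L[ℂ] ℂ) : Prop :=
  ∀ (a : ℕ → A) (K : ℝ), (∀ n, ‖a n‖ ≤ K) →
    (∀ ε > 0, ∃ N, ∀ m ≥ N, ∀ n ≥ N, n2 τ (a m - a n) < ε) →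
    ∃ b, ∀ ε > 0, ∃ N, ∀ n ≥ N, n2 τ (a n - b) < ε

/-- The monomial `Z_{w_1} ⋯ Z_{w_k}`. -/
def ev {A : Type*} [CStarAlgebra A] {κ : Type*} (Z : κ → A) (w : List κ) : A := (w.map Z).prod

section coarse

variable {A 𝔐 : Type*} [CStarAlgebra A] [CStarAlgebra 𝔐]
variable (τ : A →L[ℂ] ℂ) (tr : 𝔐 →L[ℂ] ℂ)
variable (l : A →⋆ₐ[ℂ] 𝔐) (r : Aᵐᵒᵖ →⋆ₐ[ℂ] 𝔐)
variable {ι : Type*} [DecidableEq ι]

/-- `(𝔐, tr, l, r)` behaves like `M ⊗̄ M^op` with the product trace, `l a = a ⊗ 1` and
`r b = 1 ⊗ b`. -/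
structure IsCoarse : Prop where
  trace : IsFaithfulTrace τ
  trace' : IsFaithfulTrace tr
  comm : ∀ a b, l a * r b = r b * l a
  fact : ∀ a b, tr (l a * r (op b)) = τ a * τ b

/-- The free difference quotient `∂_j` of the monomial `x_w`, evaluated at `Z`: the sum over the
positions `p` of the letter `j` in `w` of `l (part of w before p) * r (part of w after p)`. -/
def fdq (Z : ι → A) (j : ι) (w : List ι) : 𝔐 :=
  ∑ p ∈ Finset.range w.length,
    if w[p]? = some j then l (ev Z (w.take p)) * r (op (ev Z (w.drop (p + 1)))) else 0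

/-- The pairs `(P(Z), ((∂_j P)(Z))_j)`, `P` a non-commutative polynomial. -/
def PolyGraph (Z : ι → A) : Submodule ℂ (A × (ι → 𝔐)) :=
  Submodule.span ℂ (Set.range fun w : List ι => (ev Z w, fun j => fdq l r Z j w))

/-- `a` belongs to the domain of the `L²`-closure of the free difference quotients at `Z`: there
are polynomials `P_n` with `P_n(Z) → a` in `L²` and `(∂_j P_n)(Z)` Cauchy in `L²` for all `j`. -/
def InDom (Z : ι → A) (a : A) : Prop :=
  ∃ q : ℕ → A × (ι → 𝔐), (∀ n, q n ∈ PolyGraph l r Z) ∧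
    (∀ ε > 0, ∃ N, ∀ n ≥ N, n2 τ (a - (q n).1) < ε) ∧
    (∀ j, ∀ ε > 0, ∃ N, ∀ m ≥ N, ∀ n ≥ N, n2 tr ((q m).2 j - (q n).2 j) < ε)

/-- `a` belongs to the domain of the `L²`-closure of the free difference quotients at `Z`, and its
derivatives `b j` are bounded, that is, elements of `𝔐`. -/
def HasDeriv (Z : ι → A) (a : A) (b : ι → 𝔐) : Prop :=
  ∀ ε > 0, ∃ q ∈ PolyGraph l r Z, n2 τ (a - q.1) < ε ∧ ∀ j, n2 tr (b j - q.2 j) < ε

/-- `Y` is a Lipschitz function of `X` with an inverse in the Sobolev space: every `Y_i` is in the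
domain of the `L²`-closure of the free difference quotients of `X`, with bounded derivatives, and
every `X_i` is in the domain of the `L²`-closure of the free difference quotients of `Y`. -/
def SobolevInvertible (X Y : ι → A) : Prop :=
  (∀ i, ∃ b : ι → 𝔐, HasDeriv τ tr l r X (Y i) b) ∧ (∀ i, InDom τ tr l r Y (X i))

/-- The cyclic derivative `𝒟_i` of the monomial `x_w`, evaluated at `Z`: the sum over the
positions `p` of the letter `i` in `w` of `(part after p) * (part before p)`. -/
def cyc (Z : ι → A) (i : ι) (w : List ι) : A :=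
  ∑ p ∈ Finset.range w.length,
    if w[p]? = some i then ev Z (w.drop (p + 1) ++ w.take p) else 0

/-- `∂_j 𝒟_i` of the monomial `x_w`, evaluated at `Z`. -/
def jac (Z : ι → A) (i j : ι) (w : List ι) : 𝔐 :=
  ∑ p ∈ Finset.range w.length,
    if w[p]? = some i then fdq l r Z j (w.drop (p + 1) ++ w.take p) else 0

/-- The non-commutative power series `∑ g_w x_w` converges absolutely whenever the variables have
operator norm at most `R`. -/
def ConvergesAt {ι : Type*} (g : List ι → ℂ) (R : ℝ) : Prop :=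
  Summable fun w => ‖g w‖ * R ^ w.length

/-- The cyclic gradient of the power series `g`, evaluated at `Z`. -/
def grad (g : List ι → ℂ) (Z : ι → A) (i : ι) : A := ∑' w, g w • cyc Z i w

/-- The Jacobian `(∂_j 𝒟_i g)_{i,j}` of the cyclic gradient of `g`, evaluated at `Z`. -/
def jacobian (g : List ι → ℂ) (Z : ι → A) : Matrix ι ι 𝔐 := fun i j => ∑' w, g w • jac l r Z i j w

/-- `Y` lies in the `L²`-closure of the cyclic gradients `𝒟g(X)` of power series `g` with radius of
convergence `R > 2` and `𝒥𝒟g(X) ≥ 0` (positive elements of the C*-algebra of matrices over `𝔐` are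
those of the form `s* s`). -/
def InC [Fintype ι] (X Y : ι → A) : Prop :=
  ∀ ε > (0 : ℝ), ∃ (g : List ι → ℂ) (R : ℝ), 2 < R ∧ ConvergesAt g R ∧
    (∃ s : Matrix ι ι 𝔐, jacobian l r g X = s.conjTranspose * s) ∧
    ∑ i, (τ (star (Y i - grad g X i) * (Y i - grad g X i))).re < ε

/-- `X` is a free semicircular family with respect to `τ`: it is self-adjoint, of norm at most `2`,
and its moments satisfy the Schwinger-Dyson recursion `τ(X_j X_w) = (τ ⊗ τ)(∂_j x_w (X))`, which
determines all of them. -/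
structure IsFreeSemicircular (X : ι → A) : Prop where
  selfAdjoint : ∀ i, IsSelfAdjoint (X i)
  norm_le : ∀ i, ‖X i‖ ≤ 2
  schwingerDyson : ∀ (j : ι) (w : List ι), τ (X j * ev X w) =
    ∑ p ∈ Finset.range w.length,
      if w[p]? = some j then τ (ev X (w.take p)) * τ (ev X (w.drop (p + 1))) else 0

end coarse

end FreeMono
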