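import Pool.Agent.Lib.MP_eee45d_an.L2Words

open scoped ComplexOrder CStarAlgebra
open MulOpposite

noncomputable section

namespace FreeMono

set_option linter.unusedSectionVars false

section

variable {A : Type*} [CStarAlgebra A] {τ : A →L[ℂ] ℂ} {κ : Type*}

/-- the function `2 t / (1 + t²)` -/
def kf (t : ℝ) : ℝ := 2 * (t * (1 + t ^ 2)⁻¹)

/-- a right inverse of `kf` on `[-1,1]` -/
def kg (t : ℝ) : ℝ := t * (1 + Real.sqrt (1 - t ^ 2))⁻¹

lemma kf_cont : Continuous kf := by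
  unfold kf
  have : ∀ t : ℝ, (1 + t ^ 2) ≠ 0 := fun t => by positivity
  fun_prop (disch := assumption)

lemma kg_cont : Continuous kg := by
  unfold kg
  have : ∀ t : ℝ, (1 + Real.sqrt (1 - t ^ 2)) ≠ 0 := fun t => by positivity
  fun_prop (disch := assumption)

lemma kf_kg {t : ℝ} (ht : |t| ≤ 1) : kf (kg t) = t := by
  have h1 : t ^ 2 ≤ 1 := by
    rw [← sq_abs]; nlinarith [abs_nonneg t]
  set s := Real.sqrt (1 - t ^ 2) with hs
  have hs2 : s ^ 2 = 1 - t ^ 2 := Real.sq_sqrt (by linarith)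
  have hs0 : 0 ≤ s := Real.sqrt_nonneg _
  unfold kf kg
  rw [← hs]
  have h2 : (1 + s) ≠ 0 := by positivity
  have h3 : 1 + (t * (1 + s)⁻¹) ^ 2 = 2 * (1 + s)⁻¹ := by
    field_simp
    nlinarith
  rw [h3]
  field_simp

lemma kf_abs (t : ℝ) : |kf t| ≤ 1 := by
  unfold kf
  rw [abs_mul, abs_mul, abs_inv, abs_of_pos (by positivity : (0 : ℝ) < 1 + t ^ 2),
    abs_of_pos (by norm_num : (0 : ℝ) < 2)]
  rw [← mul_assoc, ← div_eq_mul_inv, div_le_one (by positivity), ← sq_abs t]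
  nlinarith [sq_nonneg (|t| - 1)]

lemma kf_lip (h : IsFaithfulTrace τ) {x y : A} (hx : IsSelfAdjoint x) (hy : IsSelfAdjoint y) :
    n2 τ (cfc kf x - cfc kf y) ≤ 4 * n2 τ (x - y) := by
  set ρ : ℝ → ℝ := fun t => (1 + t ^ 2)⁻¹ with hρ
  have hρc : Continuous ρ := by
    have : ∀ t : ℝ, (1 + t ^ 2) ≠ 0 := fun t => by positivity
    simp only [hρ]
    fun_prop (disch := assumption)
  -- resolvent identities
  have key : ∀ z : A, IsSelfAdjoint z → cfc kf z = (2 : ℂ) • (cfc ρ z * z) ∧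
      cfc kf z = (2 : ℂ) • (z * cfc ρ z) ∧ cfc ρ z * (1 + z * z) = 1 ∧ (1 + z * z) * cfc ρ z = 1 ∧
      ‖cfc ρ z‖ ≤ 1 ∧ ‖cfc ρ z * z‖ ≤ 1 ∧ ‖z * cfc ρ z‖ ≤ 1 := by
    intro z hz
    have e1 : cfc ρ z * z = cfc (fun t => ρ t * t) z := by
      rw [cfc_mul ρ (fun t => t) z hρc.continuousOn (by fun_prop), cfc_id' ℝ z]
    have e2 : z * cfc ρ z = cfc (fun t => t * ρ t) z := by
      rw [cfc_mul (fun t => t) ρ z (by fun_prop) hρc.continuousOn, cfc_id' ℝ z]
    have e3 : (1 + z * z : A) = cfc (fun t : ℝ => 1 + t * t) z := by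
      rw [cfc_add z (fun _ : ℝ => (1 : ℝ)) (fun t => t * t) (by fun_prop) (by fun_prop),
        cfc_const_one ℝ z, cfc_mul (fun t : ℝ => t) (fun t => t) z (by fun_prop) (by fun_prop),
        cfc_id' ℝ z]
    have hb : ∀ t : ℝ, |t * ρ t| ≤ 1 := by
      intro t
      simp only [hρ]
      rw [abs_mul, abs_inv, abs_of_pos (by positivity : (0 : ℝ) < 1 + t ^ 2), ← div_eq_mul_inv,
        div_le_one (by positivity), ← sq_abs t]
      nlinarith [sq_nonneg (|t| - 1), abs_nonneg t]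
    refine ⟨?_, ?_, ?_, ?_, ?_, ?_, ?_⟩
    · rw [e1]
      have : ((2 : ℂ) • cfc (fun t => ρ t * t) z) = (2 : ℝ) • cfc (fun t => ρ t * t) z := by
        rw [← Complex.coe_smul]; norm_num
      rw [this, ← cfc_smul (2 : ℝ) (fun t => ρ t * t) z (by fun_prop)]
      refine cfc_congr fun t _ => ?_
      simp only [kf, hρ, smul_eq_mul]; ring
    · rw [e2]
      have : ((2 : ℂ) • cfc (fun t => t * ρ t) z) = (2 : ℝ) • cfc (fun t => t * ρ t) z := by
        rw [← Complex.coe_smul]; norm_num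
      rw [this, ← cfc_smul (2 : ℝ) (fun t => t * ρ t) z (by fun_prop)]
      refine cfc_congr fun t _ => ?_
      simp only [kf, hρ, smul_eq_mul]
    · rw [e3, ← cfc_mul ρ _ z hρc.continuousOn (by fun_prop), ← cfc_const_one ℝ z]
      refine cfc_congr fun t _ => ?_
      simp only [hρ]
      rw [← sq]
      exact inv_mul_cancel₀ (by positivity)
    · rw [e3, ← cfc_mul _ ρ z (by fun_prop) hρc.continuousOn, ← cfc_const_one ℝ z]
      refine cfc_congr fun t _ => ?_
      simp only [hρ]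
      rw [← sq]
      exact mul_inv_cancel₀ (by positivity)
    · refine norm_cfc_le zero_le_one fun t _ => ?_
      simp only [hρ, Real.norm_eq_abs]
      rw [abs_inv, abs_of_pos (by positivity : (0 : ℝ) < 1 + t ^ 2)]
      exact inv_le_one_of_one_le₀ (by nlinarith [sq_nonneg t])
    · rw [e1]
      refine norm_cfc_le zero_le_one fun t _ => ?_
      rw [Real.norm_eq_abs, mul_comm]; exact hb t
    · rw [e2]
      refine norm_cfc_le zero_le_one fun t _ => ?_
      rw [Real.norm_eq_abs]; exact hb t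
  obtain ⟨a1, -, a3, -, a5, a6, -⟩ := key x hx
  obtain ⟨-, b2, -, b4, b5, -, b7⟩ := key y hy
  set p := cfc ρ x with hp
  set q := cfc ρ y with hq
  have e : cfc kf x - cfc kf y = (2 : ℂ) • (p * (x - y) * q + (p * x) * (y - x) * (y * q)) := by
    rw [a1, b2, ← smul_sub]
    congr 1
    calc p * x - y * q = p * x * ((1 + y * y) * q) - (p * (1 + x * x)) * (y * q) := by
          rw [b4, a3, mul_one, one_mul]
      _ = _ := by noncomm_ring
  rw [e, n2_smul]
  have h1 : n2 τ (p * (x - y) * q) ≤ n2 τ (x - y) := by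
    refine (n2_mul_right h _ _).trans ?_
    have h2 := n2_mul_left h p (x - y)
    have h3 := n2_nonneg τ (x - y)
    have h4 := n2_nonneg τ (p * (x - y))
    calc n2 τ (p * (x - y)) * ‖q‖ ≤ n2 τ (p * (x - y)) * 1 := by gcongr
      _ ≤ ‖p‖ * n2 τ (x - y) := by rw [mul_one]; exact h2
      _ ≤ 1 * n2 τ (x - y) := by gcongr
      _ = n2 τ (x - y) := one_mul _
  have h2 : n2 τ ((p * x) * (y - x) * (y * q)) ≤ n2 τ (x - y) := by
    refine (n2_mul_right h _ _).trans ?_
    have h2 := n2_mul_left h (p * x) (y - x)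
    have h3 := n2_nonneg τ (y - x)
    have h4 := n2_nonneg τ ((p * x) * (y - x))
    calc n2 τ ((p * x) * (y - x)) * ‖y * q‖ ≤ n2 τ ((p * x) * (y - x)) * 1 := by gcongr
      _ ≤ ‖p * x‖ * n2 τ (y - x) := by rw [mul_one]; exact h2
      _ ≤ 1 * n2 τ (y - x) := by gcongr
      _ = n2 τ (x - y) := by
        rw [one_mul, ← neg_sub, ← neg_one_smul ℂ, n2_smul]; simp
  have h3 := n2_add_le h (p * (x - y) * q) ((p * x) * (y - x) * (y * q))
  rw [Complex.norm_ofNat]
  linarith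

lemma n2_neg (τ : A →L[ℂ] ℂ) (a : A) : n2 τ (-a) = n2 τ a := by
  rw [← neg_one_smul ℂ a, n2_smul]; simp

lemma n2_sub_comm (τ : A →L[ℂ] ℂ) (a b : A) : n2 τ (a - b) = n2 τ (b - a) := by
  rw [← neg_sub, n2_neg]

lemma RelL_closed (h : IsFaithfulTrace τ) (U V : κ → A) : IsClosed (RelL h U V : Set (A × A)) := by
  rw [← isSeqClosed_iff_isClosed]
  intro x a hx ha
  refine cl_cl fun ε hε => ?_
  obtain ⟨n, hn⟩ := ((Metric.tendsto_nhds.1 ha) (ε / 2) (by linarith)).exists
  refine ⟨x n, hx n, ?_⟩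
  rw [NP_apply]
  rw [dist_comm, dist_eq_norm] at hn
  have h1 := (n2_le_norm h (a - x n).1).trans (norm_fst_le (a - x n))
  have h2 := (n2_le_norm h (a - x n).2).trans (norm_snd_le (a - x n))
  linarith

lemma cfc_mem_PolL (h : IsFaithfulTrace τ) {Z : κ → A} (hZ : ∀ i, IsSelfAdjoint (Z i)) {a : A}
    (ha : a ∈ PolL h Z) (f : ℝ → ℝ) : cfc f a ∈ PolL h Z := by
  let S : StarSubalgebra ℂ A :=
    { carrier := PolL h Z
      mul_mem' := fun {a b} ha hb => PolL_mul h ha hb
      add_mem' := fun {a b} ha hb => add_mem ha hb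
      algebraMap_mem' := fun c => by
        rw [Algebra.algebraMap_eq_smul_one]
        exact Submodule.smul_mem _ _ (PolL_one h Z)
      star_mem' := fun {a} ha => PolL_star h hZ ha }
  have hS : IsClosed (S : Set A) := PolL_closed h Z
  have haS : a ∈ S := ha
  exact cfc_mem (𝕜' := ℂ) (s := S) f haS

lemma cfc_mem_RelL (h : IsFaithfulTrace τ) {U V : κ → A} (hU : ∀ i, IsSelfAdjoint (U i))
    (hV : ∀ i, IsSelfAdjoint (V i)) {a b : A}
    (hab : (a, b) ∈ RelL h U V) (ha : IsSelfAdjoint a) (hb : IsSelfAdjoint b) (f : ℝ → ℝ)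
    (hf : Continuous f) : (cfc f a, cfc f b) ∈ RelL h U V := by
  let S : StarSubalgebra ℂ (A × A) :=
    { carrier := RelL h U V
      mul_mem' := fun {a b} ha hb => RelL_mul h ha hb
      add_mem' := fun {a b} ha hb => add_mem ha hb
      algebraMap_mem' := fun c => by
        rw [Algebra.algebraMap_eq_smul_one]
        exact Submodule.smul_mem _ _ (RelL_one h U V)
      star_mem' := fun {a} ha => RelL_star h hU hV ha }
  have hS : IsClosed (S : Set (A × A)) := RelL_closed h U V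
  have haS : (a, b) ∈ S := hab
  set F : ℂ → ℂ := fun z => (f z.re : ℂ) with hF
  have hFc : Continuous F := by fun_prop
  have h1 : cfc F (a, b) ∈ S := cfc_mem (𝕜' := ℂ) (s := S) F haS
  have hsa : IsSelfAdjoint (a, b) := Prod.ext ha hb
  have h2 : cfc F (a, b) = (cfc F a, cfc F b) :=
    cfc_map_prod (S := ℂ) F a b hFc.continuousOn hsa.isStarNormal ha.isStarNormal hb.isStarNormal
  rw [h2, hF, ← cfc_real_eq_complex f ha, ← cfc_real_eq_complex f hb] at h1
  exact h1

lemma exists_pair {U V : κ → A} {y : A} (hy : y ∈ Submodule.span ℂ (Set.range (ev U))) :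
    ∃ y', (y, y') ∈ Submodule.span ℂ (Set.range fun w => (ev U w, ev V w)) := by
  refine Submodule.span_induction (p := fun y _ =>
    ∃ y', (y, y') ∈ Submodule.span ℂ (Set.range fun w => (ev U w, ev V w))) ?_ ?_ ?_ ?_ hy
  · rintro _ ⟨w, rfl⟩
    exact ⟨ev V w, Submodule.subset_span ⟨w, rfl⟩⟩
  · exact ⟨0, zero_mem _⟩
  · rintro x y _ _ ⟨x', hx⟩ ⟨y', hy⟩
    exact ⟨x' + y', add_mem hx hy⟩
  · rintro c x _ ⟨x', hx⟩
    exact ⟨c • x', Submodule.smul_mem _ c hx⟩

/-- Kaplansky density for the graph: existence of partners. -/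
lemma partner_sa (h : IsFaithfulTrace τ) (hcomp : BallComplete τ) {U V : κ → A}
    (hU : ∀ i, IsSelfAdjoint (U i)) (hV : ∀ i, IsSelfAdjoint (V i))
    (hUV : ∀ w, τ (ev U w) = τ (ev V w)) {a : A} (ha : a ∈ PolL h U) (hsa : IsSelfAdjoint a)
    (hnorm : ‖a‖ ≤ 1) : ∃ a', (a, a') ∈ RelL h U V := by
  set b := cfc kg a with hb
  have hbsa : IsSelfAdjoint b := cfc_predicate _ _
  have hbmem : b ∈ PolL h U := cfc_mem_PolL h hU ha kg
  have hfb : cfc kf b = a := by
    rw [hb, ← cfc_comp kf kg a hsa kf_cont.continuousOn kg_cont.continuousOn]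
    conv_rhs => rw [← cfc_id' ℝ a]
    refine cfc_congr fun t ht => ?_
    have h1 := norm_apply_le_norm_cfc (fun x : ℝ => x) a ht (by fun_prop)
    rw [cfc_id' ℝ a, Real.norm_eq_abs] at h1
    exact kf_kg (h1.trans hnorm)
  -- self-adjoint approximants with partners
  have happ : ∀ n : ℕ, ∃ x x' : A, IsSelfAdjoint x ∧ IsSelfAdjoint x' ∧ (x, x') ∈ RelL h U V ∧
      n2 τ (x - b) < 1 / (n + 1) := by
    intro n
    obtain ⟨y, hy, hy'⟩ := hbmem (1 / ((n : ℝ) + 1)) (by positivity)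
    obtain ⟨y', hyy⟩ := exists_pair (V := V) hy
    have hyR : (y, y') ∈ RelL h U V := span_le_cl hyy
    refine ⟨(1 / 2 : ℂ) • (y + star y), (1 / 2 : ℂ) • (y' + star y'), ?_, ?_, ?_, ?_⟩
    · rw [IsSelfAdjoint, star_smul, star_add, star_star, add_comm]; simp
    · rw [IsSelfAdjoint, star_smul, star_add, star_star, add_comm]; simp
    · exact Submodule.smul_mem _ (1 / 2 : ℂ) (RelL_add h hyR (RelL_star h hU hV hyR))
    · have e : (1 / 2 : ℂ) • (y + star y) - b = (1 / 2 : ℂ) • ((y - b) + star (y - b)) := by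
        rw [star_sub, hbsa.star_eq]
        module
      rw [e, n2_smul]
      have h1 := n2_add_le h (y - b) (star (y - b))
      rw [n2_star h] at h1
      have h2 : n2 τ (y - b) < 1 / ((n : ℝ) + 1) := by rw [n2_sub_comm]; exact hy'
      have h3 : ‖(1 / 2 : ℂ)‖ = 1 / 2 := by simp
      rw [h3]; linarith
  choose x x' hx hx' hxx hxb using happ
  have hF : ∀ n, (cfc kf (x n), cfc kf (x' n)) ∈ RelL h U V := fun n =>
    cfc_mem_RelL h hU hV (hxx n) (hx n) (hx' n) kf kf_cont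
  have hsmall : ∀ ε > 0, ∃ N : ℕ, ∀ n ≥ N, n2 τ (cfc kf (x n) - a) < ε := by
    intro ε hε
    obtain ⟨N, hN⟩ := exists_nat_one_div_lt (show (0 : ℝ) < ε / 4 by linarith)
    refine ⟨N, fun n hn => ?_⟩
    have h1 := kf_lip h (hx n) hbsa
    rw [hfb] at h1
    have h2 := hxb n
    have h3 : (1 : ℝ) / (n + 1) ≤ 1 / (N + 1) := by
      apply one_div_le_one_div_of_le (by positivity)
      have : (N : ℝ) ≤ n := by exact_mod_cast hn
      linarith
    linarith
  obtain ⟨a', ha'⟩ := hcomp (fun n => cfc kf (x' n)) 1 (fun n =>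
      norm_cfc_le zero_le_one fun t _ => by rw [Real.norm_eq_abs]; exact kf_abs t) (by
    intro ε hε
    obtain ⟨N, hN⟩ := hsmall (ε / 2) (by linarith)
    refine ⟨N, fun m hm n hn => ?_⟩
    rw [← RelL_n2 h hU hV hUV (RelL_sub h (hF m) (hF n))]
    have e : cfc kf (x m) - cfc kf (x n) = (cfc kf (x m) - a) + (a - cfc kf (x n)) := by abel
    rw [e]
    refine (n2_add_le h _ _).trans_lt ?_
    rw [n2_sub_comm τ a]
    linarith [hN m hm, hN n hn])
  refine ⟨a', cl_cl fun ε hε => ?_⟩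
  obtain ⟨N, hN⟩ := hsmall (ε / 2) (by linarith)
  obtain ⟨N', hN'⟩ := ha' (ε / 2) (by linarith)
  refine ⟨_, hF (max N N'), ?_⟩
  rw [NP_apply]
  simp only [Prod.fst_sub, Prod.snd_sub]
  rw [n2_sub_comm τ a, n2_sub_comm τ a']
  linarith [hN _ (le_max_left N N'), hN' _ (le_max_right N N')]

lemma partner_exists (h : IsFaithfulTrace τ) (hcomp : BallComplete τ) {U V : κ → A}
    (hU : ∀ i, IsSelfAdjoint (U i)) (hV : ∀ i, IsSelfAdjoint (V i))
    (hUV : ∀ w, τ (ev U w) = τ (ev V w)) {a : A} (ha : a ∈ PolL h U) :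
    ∃ a', (a, a') ∈ RelL h U V := by
  -- self-adjoint elements of arbitrary norm
  have hsa : ∀ x ∈ PolL h U, IsSelfAdjoint x → ∃ x', (x, x') ∈ RelL h U V := by
    intro x hx hxsa
    set K : ℝ := ‖x‖ + 1 with hK
    have hK0 : 0 < K := by positivity
    obtain ⟨y', hy'⟩ := partner_sa h hcomp hU hV hUV
      (a := ((K⁻¹ : ℝ) : ℂ) • x) (Submodule.smul_mem _ _ hx)
      (by rw [IsSelfAdjoint, star_smul, hxsa.star_eq]; simp) (by
        rw [norm_smul, Complex.norm_real, Real.norm_eq_abs, abs_inv, abs_of_pos hK0,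
          inv_mul_le_one₀ hK0]
        linarith)
    refine ⟨(K : ℂ) • y', ?_⟩
    have := Submodule.smul_mem _ (K : ℂ) hy'
    have e : (K : ℂ) • (((K⁻¹ : ℝ) : ℂ) • x, y') = (x, (K : ℂ) • y') := by
      rw [Prod.smul_mk, smul_smul, ← Complex.ofReal_mul, mul_inv_cancel₀ hK0.ne',
        Complex.ofReal_one, one_smul]
    rwa [e] at this
  obtain ⟨x', hx'⟩ := hsa ((1 / 2 : ℂ) • (a + star a))
    (Submodule.smul_mem _ _ (add_mem ha (PolL_star h hU ha)))
    (by rw [IsSelfAdjoint, star_smul, star_add, star_star, add_comm]; simp)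
  obtain ⟨y', hy'⟩ := hsa ((-Complex.I / 2) • (a - star a))
    (Submodule.smul_mem _ _ (sub_mem ha (PolL_star h hU ha))) (by
      rw [IsSelfAdjoint, star_smul, star_sub, star_star]
      have : star (-Complex.I / 2) = Complex.I / 2 := by
        simp
      rw [this]
      module)
  refine ⟨x' + Complex.I • y', ?_⟩
  have h1 := RelL_add h hx' (Submodule.smul_mem _ Complex.I hy')
  have e : (1 / 2 : ℂ) • (a + star a) + Complex.I • ((-Complex.I / 2) • (a - star a)) = a := by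
    rw [smul_smul]
    have : Complex.I * (-Complex.I / 2) = 1 / 2 := by
      linear_combination (-1 / 2 : ℂ) * Complex.I_mul_I
    rw [this]
    module
  rw [e] at h1
  exact h1

end

end FreeMono
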