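import Pool.Agent.Lib.MP_eee45d_an.SD

open scoped ComplexOrder CStarAlgebra
open MulOpposite

noncomputable section

namespace FreeMono

set_option linter.unusedSectionVars false

section n2

variable {N : Type*} [CStarAlgebra N] {φ : N →L[ℂ] ℂ}

lemma n2_sq (h : IsFaithfulTrace φ) (a : N) : n2 φ a ^ 2 = (φ (star a * a)).re :=
  Real.sq_sqrt (Complex.nonneg_iff.1 (h.nonneg a)).1

lemma n2_smul (φ : N →L[ℂ] ℂ) (c : ℂ) (a : N) : n2 φ (c • a) = ‖c‖ * n2 φ a := by
  unfold n2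
  have h1 : star (c • a) * (c • a) = ((‖c‖ ^ 2 : ℝ) : ℂ) • (star a * a) := by
    rw [star_smul, smul_mul_smul_comm]
    congr 1
    rw [Complex.star_def, mul_comm, Complex.mul_conj, Complex.normSq_eq_norm_sq]
  rw [h1, map_smul, smul_eq_mul, Complex.re_ofReal_mul, Real.sqrt_mul (by positivity),
    Real.sqrt_sq (norm_nonneg c)]

lemma n2_add_le (h : IsFaithfulTrace φ) (a b : N) : n2 φ (a + b) ≤ n2 φ a + n2 φ b := by
  have h1 := cauchy_schwarz (φ := φ) h.nonneg a b
  have h2 := cauchy_schwarz (φ := φ) h.nonneg b a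
  have h3 : n2 φ (a + b) ^ 2 ≤ (n2 φ a + n2 φ b) ^ 2 := by
    rw [n2_sq h, star_add, add_mul, mul_add, mul_add, map_add, map_add, map_add]
    simp only [Complex.add_re]
    rw [← n2_sq h, ← n2_sq h]
    have h4 := (Complex.re_le_norm (φ (star a * b))).trans h1
    have h5 := (Complex.re_le_norm (φ (star b * a))).trans h2
    nlinarith
  exact abs_le_of_sq_le_sq' h3 (add_nonneg (n2_nonneg _ _) (n2_nonneg _ _)) |>.2

lemma n2_zero (φ : N →L[ℂ] ℂ) : n2 φ 0 = 0 := by simp [n2]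

lemma n2_star (h : IsFaithfulTrace φ) (a : N) : n2 φ (star a) = n2 φ a := by
  unfold n2; rw [star_star, h.comm]

lemma n2_eq_zero (h : IsFaithfulTrace φ) {a : N} (ha : n2 φ a = 0) : a = 0 := by
  apply h.faithful
  have h1 := n2_sq h a
  rw [ha] at h1
  have h2 := (Complex.nonneg_iff.1 (h.nonneg a)).2
  exact Complex.ext (by rw [← h1]; simp) h2.symm

lemma n2_mul_left (h : IsFaithfulTrace φ) (a b : N) : n2 φ (a * b) ≤ ‖a‖ * n2 φ b := by
  have ha : IsSelfAdjoint (star a * a) := IsSelfAdjoint.star_mul_self a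
  -- `‖a‖² - a* a` is of the form `s* s`
  set f : ℝ → ℝ := fun t => ‖a‖ ^ 2 - t with hf
  have hfc : Continuous f := by fun_prop
  have hspec : ∀ x ∈ spectrum ℝ (star a * a), 0 ≤ f x := by
    intro x hx
    have h1 := norm_apply_le_norm_cfc (fun x : ℝ => x) (star a * a) hx (by fun_prop)
    rw [cfc_id' ℝ (star a * a), CStarRing.norm_star_mul_self] at h1
    have h2 := (le_abs_self x).trans h1
    simp only [hf]; nlinarith
  set s := cfc (fun t => Real.sqrt (f t)) (star a * a) with hs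
  have hssa : IsSelfAdjoint s := cfc_predicate _ _
  have hss : star s * s = ((‖a‖ ^ 2 : ℝ) : ℂ) • (1 : N) - star a * a := by
    rw [hssa.star_eq, hs, ← cfc_mul _ _ _ (hfc.sqrt.continuousOn) (hfc.sqrt.continuousOn)]
    have h1 : cfc (fun x => Real.sqrt (f x) * Real.sqrt (f x)) (star a * a) =
        cfc f (star a * a) := cfc_congr fun x hx => Real.mul_self_sqrt (hspec x hx)
    rw [h1, hf, cfc_sub (fun _ : ℝ => ‖a‖ ^ 2) (fun t : ℝ => t) _ (by fun_prop) (by fun_prop),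
      cfc_const (‖a‖ ^ 2) (star a * a), cfc_id' ℝ (star a * a)]
    congr 1
    rw [Algebra.algebraMap_eq_smul_one, Complex.coe_smul]
  have h1 : 0 ≤ φ (star (s * b) * (s * b)) := h.nonneg _
  have h2 : star (s * b) * (s * b) = ((‖a‖ ^ 2 : ℝ) : ℂ) • (star b * b) -
      star (a * b) * (a * b) := by
    rw [star_mul, star_mul]
    calc star b * star s * (s * b) = star b * (star s * s) * b := by simp only [mul_assoc]
      _ = star b * (((‖a‖ ^ 2 : ℝ) : ℂ) • (1 : N) - star a * a) * b := by rw [hss]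
      _ = _ := by
        rw [mul_sub, sub_mul, mul_smul_comm, mul_one, smul_mul_assoc]
        simp only [mul_assoc]
  rw [h2, map_sub, map_smul] at h1
  have h3 := (Complex.nonneg_iff.1 h1).1
  rw [Complex.sub_re, smul_eq_mul, Complex.re_ofReal_mul] at h3
  rw [← n2_sq h, ← n2_sq h] at h3
  refine abs_le_of_sq_le_sq' ?_ (mul_nonneg (norm_nonneg _) (n2_nonneg _ _)) |>.2
  rw [mul_pow]; linarith

lemma n2_mul_right (h : IsFaithfulTrace φ) (a b : N) : n2 φ (a * b) ≤ n2 φ a * ‖b‖ := by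
  have h1 := n2_mul_left h (star b) (star a)
  rw [← star_mul, n2_star h, n2_star h, norm_star] at h1
  rw [mul_comm]; exact h1

lemma n2_one (h : IsFaithfulTrace φ) : n2 φ 1 = 1 := by
  unfold n2; rw [star_one, one_mul, h.one]; simp

lemma n2_le_norm (h : IsFaithfulTrace φ) (a : N) : n2 φ a ≤ ‖a‖ := by
  have := n2_mul_left h a 1
  rwa [mul_one, n2_one h, mul_one] at this

lemma norm_trace_le (h : IsFaithfulTrace φ) (a : N) : ‖φ a‖ ≤ n2 φ a := by
  have := cauchy_schwarz (φ := φ) h.nonneg 1 a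
  rwa [star_one, one_mul, n2_one h, one_mul] at this

/-- the `L²`-norm as a seminorm -/
def N2 (h : IsFaithfulTrace φ) : Seminorm ℂ N :=
  Seminorm.of (n2 φ) (n2_add_le h) (n2_smul φ)

@[simp] lemma N2_apply (h : IsFaithfulTrace φ) (a : N) : N2 h a = n2 φ a := rfl

end n2

section cl

variable {E F : Type*} [AddCommGroup E] [Module ℂ E] [AddCommGroup F] [Module ℂ F]

/-- The limits, with respect to the seminorm `N`, of elements of the span of `s`. -/
def cl (N : Seminorm ℂ E) (s : Set E) : Submodule ℂ E where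
  carrier := {x | ∀ ε > 0, ∃ y ∈ Submodule.span ℂ s, N (x - y) < ε}
  zero_mem' := fun ε hε => ⟨0, zero_mem _, by simpa using hε⟩
  add_mem' := fun {a b} ha hb ε hε => by
    obtain ⟨y, hy, hy'⟩ := ha (ε / 2) (by linarith)
    obtain ⟨z, hz, hz'⟩ := hb (ε / 2) (by linarith)
    refine ⟨y + z, add_mem hy hz, ?_⟩
    have : a + b - (y + z) = (a - y) + (b - z) := by abel
    rw [this]
    exact (map_add_le_add N _ _).trans_lt (by linarith)
  smul_mem' := fun c x hx ε hε => by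
    obtain ⟨y, hy, hy'⟩ := hx (ε / (‖c‖ + 1)) (by positivity)
    refine ⟨c • y, Submodule.smul_mem _ _ hy, ?_⟩
    rw [← smul_sub, map_smul_eq_mul]
    have h0 : 0 ≤ N (x - y) := apply_nonneg N _
    calc ‖c‖ * N (x - y) ≤ (‖c‖ + 1) * N (x - y) := by nlinarith
      _ < (‖c‖ + 1) * (ε / (‖c‖ + 1)) := by
          apply mul_lt_mul_of_pos_left hy'; positivity
      _ = ε := by field_simp

lemma mem_cl {N : Seminorm ℂ E} {s : Set E} {x : E} :
    x ∈ cl N s ↔ ∀ ε > 0, ∃ y ∈ Submodule.span ℂ s, N (x - y) < ε := Iff.rfl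

lemma subset_cl {N : Seminorm ℂ E} {s : Set E} {x : E} (hx : x ∈ s) : x ∈ cl N s :=
  fun ε hε => ⟨x, Submodule.subset_span hx, by simpa using hε⟩

lemma span_le_cl {N : Seminorm ℂ E} {s : Set E} : Submodule.span ℂ s ≤ cl N s :=
  Submodule.span_le.2 fun _ hx => subset_cl hx

lemma cl_cl {N : Seminorm ℂ E} {s : Set E} {x : E}
    (h : ∀ ε > 0, ∃ y ∈ cl N s, N (x - y) < ε) : x ∈ cl N s := by
  intro ε hε
  obtain ⟨y, hy, hy'⟩ := h (ε / 2) (by linarith)
  obtain ⟨z, hz, hz'⟩ := hy (ε / 2) (by linarith)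
  refine ⟨z, hz, ?_⟩
  have : x - z = (x - y) + (y - z) := by abel
  rw [this]
  exact (map_add_le_add N _ _).trans_lt (by linarith)

lemma cl_induction {N : Seminorm ℂ E} {s : Set E} {p : E → Prop} (hs : ∀ x ∈ s, p x) (h0 : p 0)
    (hadd : ∀ x y, p x → p y → p (x + y))
    (hsmul : ∀ (c : ℂ) x, p x → p (c • x))
    (hcl : ∀ x, (∀ ε > 0, ∃ y, p y ∧ N (x - y) < ε) → p x) : ∀ x ∈ cl N s, p x := by
  intro x hx
  refine hcl x fun ε hε => ?_
  obtain ⟨y, hy, hy'⟩ := hx ε hε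
  refine ⟨y, ?_, hy'⟩
  exact Submodule.span_induction (p := fun x _ => p x) hs h0 (fun x y _ _ => hadd x y)
    (fun c x _ => hsmul c x) hy

/-- preimages of `L²`-closed sets under Lipschitz maps -/
lemma lip_mem {N : Seminorm ℂ E} {N' : Seminorm ℂ F} {s : Set F} {f : E → F} {K : ℝ}
    (hf : ∀ x y, N' (f x - f y) ≤ K * N (x - y)) (x : E)
    (h : ∀ ε > 0, ∃ y, f y ∈ cl N' s ∧ N (x - y) < ε) : f x ∈ cl N' s := by
  refine cl_cl fun ε hε => ?_
  obtain ⟨y, hy, hy'⟩ := h (ε / (|K| + 1)) (by positivity)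
  refine ⟨f y, hy, (hf x y).trans_lt ?_⟩
  have h0 : 0 ≤ N (x - y) := apply_nonneg N _
  calc K * N (x - y) ≤ (|K| + 1) * N (x - y) := by nlinarith [le_abs_self K]
    _ < (|K| + 1) * (ε / (|K| + 1)) := by
        apply mul_lt_mul_of_pos_left hy'; positivity
    _ = ε := by field_simp

/-- zero sets of Lipschitz functions are closed -/
lemma lip_zero {N : Seminorm ℂ E} {g : E → ℂ} {K : ℝ}
    (hg : ∀ x y, ‖g x - g y‖ ≤ K * N (x - y)) (x : E)
    (h : ∀ ε > 0, ∃ y, g y = 0 ∧ N (x - y) < ε) : g x = 0 := by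
  by_contra hne
  have hpos : 0 < ‖g x‖ := norm_pos_iff.2 hne
  obtain ⟨y, hy, hy'⟩ := h (‖g x‖ / (|K| + 1)) (by positivity)
  have h1 := hg x y
  rw [hy, sub_zero] at h1
  have h0 : 0 ≤ N (x - y) := apply_nonneg N _
  have h2 : K * N (x - y) ≤ (|K| + 1) * N (x - y) := by nlinarith [le_abs_self K]
  have h3 : (|K| + 1) * N (x - y) < (|K| + 1) * (‖g x‖ / (|K| + 1)) := by
    apply mul_lt_mul_of_pos_left hy'; positivity
  have h4 : (|K| + 1) * (‖g x‖ / (|K| + 1)) = ‖g x‖ := by field_simp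
  linarith

end cl

end FreeMono
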