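import Pool.Agent.Lib.MP_eee45d_an.SD

open scoped ComplexOrder CStarAlgebra
open MulOpposite

noncomputable section

namespace FreeMono

set_option linter.unusedSectionVars false

section abstractPos

variable {N : Type*} [CStarAlgebra N]

/-- weak positivity on a closed star subalgebra gives self-adjointness -/
lemma selfAdjoint_of_weak (φ : N →ₗ[ℂ] ℂ)
    (hpos : ∀ x, 0 ≤ φ (star x * x)) (hfaith : ∀ x, φ (star x * x) = 0 → x = 0)
    (S : StarSubalgebra ℂ N) {b : N} (hbS : b ∈ S)
    (hw : ∀ x ∈ S, 0 ≤ φ (star x * b * x)) : IsSelfAdjoint b := by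
  set d := b - star b with hd
  have hdS : d ∈ S := sub_mem hbS (star_mem hbS)
  have hstar : star d = -d := by rw [hd, star_sub, star_star]; abel
  have h1 : ∀ x ∈ S, φ (star x * d * x) = 0 := by
    intro x hx
    have h2 := hw x hx
    have h3 := star_of_pos φ hpos (star x * b * x)
    have h4 : star (star x * b * x) = star x * star b * x := by
      rw [star_mul, star_mul, star_star, mul_assoc]
    rw [h4] at h3
    have h5 : star (φ (star x * b * x)) = φ (star x * b * x) := by
      have h6 := (Complex.nonneg_iff.1 h2).2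
      apply Complex.ext
      · simp
      · simp only [Complex.star_def, Complex.conj_im]; linarith
    rw [hd, mul_sub, sub_mul, map_sub, h3, h5, sub_self]
  have hI : star (Complex.I • (1 : N)) = -(Complex.I • (1 : N)) := by
    rw [star_smul, star_one, Complex.star_def, Complex.conj_I, neg_smul]
  have h2 := h1 (d + Complex.I • 1) (add_mem hdS (by
    rw [← Algebra.algebraMap_eq_smul_one]; exact S.algebraMap_mem _))
  have h3 := h1 d hdS
  have h4 := h1 1 (one_mem S)
  have h5 : star (d + Complex.I • 1) * d * (d + Complex.I • 1) =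
      star d * d * d + (2 * Complex.I) • (star d * d) + star 1 * d * 1 := by
    rw [star_add, hI, hstar]
    simp only [add_mul, mul_add, neg_mul, mul_smul_comm, smul_mul_assoc, one_mul, mul_one,
      star_one, smul_neg]
    rw [smul_add, smul_neg Complex.I (Complex.I • d), smul_smul Complex.I Complex.I d,
      Complex.I_mul_I]
    module
  rw [h5, map_add, map_add, h3, h4, map_smul, smul_eq_mul, zero_add, add_zero] at h2
  have h6 : φ (star d * d) = 0 := by
    rcases mul_eq_zero.1 h2 with h | h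
    · exact absurd h (by simp)
    · exact h
  have h7 := hfaith d h6
  rw [hd, sub_eq_zero] at h7
  exact h7.symm

end abstractPos

section matrices

variable {𝔐 : Type*} [CStarAlgebra 𝔐] {tr : 𝔐 →L[ℂ] ℂ}
variable {ι : Type*} [DecidableEq ι] [Fintype ι]

/-- weakly positive matrices over a closed star subalgebra (given as a submodule) are positive -/
lemma matrix_pos (htr : IsFaithfulTrace tr) (L : Submodule ℂ 𝔐) (hL : IsClosed (L : Set 𝔐))
    (hL1 : (1 : 𝔐) ∈ L) (hLm : ∀ a b, a ∈ L → b ∈ L → a * b ∈ L)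
    (hLs : ∀ a, a ∈ L → star a ∈ L) (B : Matrix ι ι 𝔐) (hB : ∀ i j, B i j ∈ L)
    (hw : ∀ ξ : ι → 𝔐, (∀ i, ξ i ∈ L) → 0 ≤ ∑ i, ∑ j, tr (star (ξ i) * B i j * ξ j)) :
    B.conjTranspose = B ∧ ∃ s : Matrix ι ι 𝔐, B = s.conjTranspose * s := by
  let _ : PartialOrder 𝔐 := CStarAlgebra.spectralOrder 𝔐
  have _ : StarOrderedRing 𝔐 := CStarAlgebra.spectralOrderedRing 𝔐
  let φ : CStarMatrix ι ι 𝔐 →ₗ[ℂ] ℂ :=
    { toFun := fun M => ∑ i, tr (M i i)
      map_add' := fun M M' => by
        simp [Finset.sum_add_distrib]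
      map_smul' := fun c M => by
        simp [Finset.mul_sum] }
  have hφ : ∀ M, φ M = ∑ i, tr (M i i) := fun M => rfl
  have hpos : ∀ x : CStarMatrix ι ι 𝔐, 0 ≤ φ (star x * x) := by
    intro x
    rw [hφ]
    refine Finset.sum_nonneg fun i _ => ?_
    rw [CStarMatrix.mul_apply, map_sum]
    refine Finset.sum_nonneg fun k _ => ?_
    rw [CStarMatrix.star_apply]
    exact htr.nonneg _
  have hfaith : ∀ x : CStarMatrix ι ι 𝔐, φ (star x * x) = 0 → x = 0 := by
    intro x hx
    rw [hφ] at hx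
    have h1 : ∀ i, 0 ≤ tr ((star x * x) i i) := by
      intro i
      rw [CStarMatrix.mul_apply, map_sum]
      refine Finset.sum_nonneg fun k _ => ?_
      rw [CStarMatrix.star_apply]
      exact htr.nonneg _
    have h2 := (Finset.sum_eq_zero_iff_of_nonneg (fun i _ => h1 i)).1 hx
    ext k i
    have h3 := h2 i (Finset.mem_univ i)
    rw [CStarMatrix.mul_apply, map_sum] at h3
    have h4 := (Finset.sum_eq_zero_iff_of_nonneg (fun k _ => by
      rw [CStarMatrix.star_apply]
      exact htr.nonneg _)).1 h3 k (Finset.mem_univ k)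
    rw [CStarMatrix.star_apply] at h4
    exact htr.faithful _ h4
  let S : StarSubalgebra ℂ (CStarMatrix ι ι 𝔐) :=
    { carrier := {M | ∀ i j, M i j ∈ L}
      mul_mem' := fun {a b} ha hb i j => by
        rw [CStarMatrix.mul_apply]
        exact sum_mem fun k _ => hLm _ _ (ha i k) (hb k j)
      add_mem' := fun {a b} ha hb i j => add_mem (ha i j) (hb i j)
      algebraMap_mem' := fun c i j => by
        rw [Algebra.algebraMap_eq_smul_one, CStarMatrix.smul_apply, CStarMatrix.one_apply]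
        refine L.smul_mem c ?_
        split_ifs
        · exact hL1
        · exact zero_mem _
      star_mem' := fun {a} ha i j => by
        rw [CStarMatrix.star_apply]
        exact hLs _ (ha j i) }
  have hSc : IsClosed (S : Set (CStarMatrix ι ι 𝔐)) := by
    have : (S : Set (CStarMatrix ι ι 𝔐)) =
        ⋂ i, ⋂ j, {M : CStarMatrix ι ι 𝔐 | M i j ∈ L} := by
      ext M
      simp only [Set.mem_iInter]
      rfl
    rw [this]
    refine isClosed_iInter fun i => isClosed_iInter fun j => ?_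
    have hc : Continuous fun M : CStarMatrix ι ι 𝔐 => M i j :=
      (continuous_apply j).comp (continuous_apply i : Continuous fun M : ι → ι → 𝔐 => M i)
    exact hL.preimage hc
  have hBS : (CStarMatrix.ofMatrix B) ∈ S := hB
  have hweak : ∀ x ∈ S, 0 ≤ φ (star x * CStarMatrix.ofMatrix B * x) := by
    intro x hx
    rw [hφ]
    refine Finset.sum_nonneg fun k _ => ?_
    have h1 := hw (fun i => x i k) (fun i => hx i k)
    convert h1 using 1
    rw [CStarMatrix.mul_apply, map_sum, Finset.sum_comm]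
    refine Finset.sum_congr rfl fun j _ => ?_
    rw [CStarMatrix.mul_apply, Finset.sum_mul, map_sum]
    refine Finset.sum_congr rfl fun i _ => ?_
    rw [CStarMatrix.star_apply]
    rfl
  have hsa := selfAdjoint_of_weak φ hpos hfaith S hBS hweak
  obtain ⟨s, hs⟩ := exists_star_mul_self_of_weak φ hpos hfaith S hSc hBS hsa hweak
  exact ⟨hsa, CStarMatrix.ofMatrix.symm s, hs⟩

end matrices

section coarse

variable {A 𝔐 : Type*} [CStarAlgebra A] [CStarAlgebra 𝔐]
variable {τ : A →L[ℂ] ℂ} {tr : 𝔐 →L[ℂ] ℂ}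
variable {l : A →⋆ₐ[ℂ] 𝔐} {r : Aᵐᵒᵖ →⋆ₐ[ℂ] 𝔐}
variable {ι : Type*} [DecidableEq ι] [Fintype ι]

lemma sum_trace_pos (htr : IsFaithfulTrace tr) (s : Matrix ι ι 𝔐) (ξ : ι → 𝔐) :
    0 ≤ ∑ i, ∑ j, tr (star (ξ i) * (s.conjTranspose * s) i j * ξ j) := by
  have : ∑ i, ∑ j, tr (star (ξ i) * (s.conjTranspose * s) i j * ξ j) =
      ∑ k, tr (star (∑ i, s k i * ξ i) * (∑ j, s k j * ξ j)) := by
    simp only [Matrix.mul_apply, Matrix.conjTranspose_apply, star_sum, star_mul, Finset.sum_mul,
      Finset.mul_sum, map_sum, mul_assoc]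
    rw [Finset.sum_comm]
    conv_rhs => rw [Finset.sum_comm]
    refine Finset.sum_congr rfl fun j _ => ?_
    rw [Finset.sum_comm]
  rw [this]
  exact Finset.sum_nonneg fun k _ => htr.nonneg _

/-- a positivity statement that passes to `L²`-limits of the potential gradients -/
lemma weak_pos (hc : IsCoarse τ tr l r) {X : ι → A} (hXsa : ∀ i, IsSelfAdjoint (X i))
    (hX : SD τ tr l r X) {Y : ι → A} {B : ι → ι → 𝔐} (hB : ∀ i, (Y i, B i) ∈ Gr l r X)
    (happ : ∀ ε > (0 : ℝ), ∃ (Z : ι → A) (J s : Matrix ι ι 𝔐), (∀ i, (Z i, J i) ∈ Gr l r X) ∧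
      J = s.conjTranspose * s ∧ ∑ i, (τ (star (Y i - Z i) * (Y i - Z i))).re < ε)
    (ξ : ι → 𝔐) (hξ : ∀ i, ξ i ∈ Pol (LR l r X)) :
    0 ≤ ∑ i, ∑ j, tr (star (ξ i) * B i j * ξ j) := by
  -- algebraic vectors first
  have halg : ∀ ξ : ι → 𝔐, (∀ i, ξ i ∈ Alg (LR l r X)) →
      0 ≤ ∑ i, ∑ j, tr (star (ξ i) * B i j * ξ j) := by
    intro ξ hξ
    choose K hK0 hK using fun i j => L2_bound hc hX
      (Alg_mul (hξ j) (Alg_star (LR_sa l r hXsa) (hξ i)))
    set Q := ∑ i, ∑ j, tr (star (ξ i) * B i j * ξ j) with hQ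
    have hbound : ∀ ε > (0 : ℝ), ∃ z : ℂ, 0 ≤ z ∧ ‖Q - z‖ ≤ (∑ i, ∑ j, K i j) * Real.sqrt ε := by
      intro ε hε
      obtain ⟨Z, J, s, hZ, hJ, hlt⟩ := happ ε hε
      refine ⟨∑ i, ∑ j, tr (star (ξ i) * J i j * ξ j), ?_, ?_⟩
      · rw [hJ]; exact sum_trace_pos hc.trace' s ξ
      · rw [hQ, ← Finset.sum_sub_distrib, Finset.sum_mul]
        refine (norm_sum_le _ _).trans (Finset.sum_le_sum fun i _ => ?_)
        rw [← Finset.sum_sub_distrib, Finset.sum_mul]
        refine (norm_sum_le _ _).trans (Finset.sum_le_sum fun j _ => ?_)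
        have h1 : tr (star (ξ i) * B i j * ξ j) - tr (star (ξ i) * J i j * ξ j) =
            tr (ξ j * star (ξ i) * (B i - J i) j) := by
          rw [← map_sub, Pi.sub_apply, mul_assoc (ξ j), hc.trace'.comm (ξ j)]
          congr 1
          simp only [mul_sub, sub_mul]
        rw [h1]
        have h2 : (Y i - Z i, B i - J i) ∈ Gr l r X := sub_mem (hB i) (hZ i)
        refine (hK i j _ _ h2 j).trans ?_
        refine mul_le_mul_of_nonneg_left ?_ (hK0 i j)
        unfold n2
        refine Real.sqrt_le_sqrt (le_trans ?_ hlt.le)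
        exact Finset.single_le_sum (f := fun i => (τ (star (Y i - Z i) * (Y i - Z i))).re)
          (fun i _ => (Complex.nonneg_iff.1 (hc.trace.nonneg _)).1) (Finset.mem_univ i)
    set C := ∑ i, ∑ j, K i j with hC
    have hC0 : 0 ≤ C := Finset.sum_nonneg fun i _ => Finset.sum_nonneg fun j _ => hK0 i j
    have hbound' : ∀ δ > (0 : ℝ), ∃ z : ℂ, 0 ≤ z ∧ ‖Q - z‖ ≤ δ := by
      intro δ hδ
      obtain ⟨z, hz, hle⟩ := hbound ((δ / (C + 1)) ^ 2) (by positivity)
      refine ⟨z, hz, hle.trans ?_⟩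
      rw [Real.sqrt_sq (by positivity), mul_div_assoc']
      rw [div_le_iff₀ (by positivity)]
      nlinarith
    rw [Complex.nonneg_iff]
    constructor
    · by_contra hneg
      push Not at hneg
      obtain ⟨z, hz, hle⟩ := hbound' (-Q.re / 2) (by linarith)
      have h1 := (Complex.abs_re_le_norm (Q - z)).trans hle
      rw [Complex.sub_re, abs_le] at h1
      have h2 := (Complex.nonneg_iff.1 hz).1
      linarith [h1.1]
    · by_contra hne
      have hne' : Q.im ≠ 0 := fun h => hne h.symm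
      obtain ⟨z, hz, hle⟩ := hbound' (|Q.im| / 2) (by positivity)
      have h1 := (Complex.abs_im_le_norm (Q - z)).trans hle
      rw [Complex.sub_im, ← (Complex.nonneg_iff.1 hz).2, sub_zero] at h1
      have h2 : 0 < |Q.im| := abs_pos.2 hne'
      linarith
  -- extension to the closure
  have hcl : IsClosed {ξ : ι → 𝔐 | 0 ≤ ∑ i, ∑ j, tr (star (ξ i) * B i j * ξ j)} := by
    have h1 : IsClosed {z : ℂ | 0 ≤ z} := by
      have : {z : ℂ | 0 ≤ z} = {z : ℂ | 0 ≤ z.re} ∩ {z : ℂ | 0 = z.im} := by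
        ext z; simp only [Set.mem_inter_iff]; exact Complex.nonneg_iff
      rw [this]
      exact (isClosed_le continuous_const Complex.continuous_re).inter
        (isClosed_eq continuous_const Complex.continuous_im)
    exact h1.preimage (by fun_prop :
      Continuous fun ξ : ι → 𝔐 => ∑ i, ∑ j, tr (star (ξ i) * B i j * ξ j))
  have hmem : ξ ∈ closure (Set.pi Set.univ fun _ : ι => (Alg (LR l r X) : Set 𝔐)) := by
    rw [closure_pi_set]
    intro i _
    exact hξ i
  have hsub : (Set.pi Set.univ fun _ : ι => (Alg (LR l r X) : Set 𝔐)) ⊆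
      {ξ : ι → 𝔐 | 0 ≤ ∑ i, ∑ j, tr (star (ξ i) * B i j * ξ j)} :=
    fun ξ hξ => halg ξ fun i => hξ i (Set.mem_univ i)
  exact closure_minimal hsub hcl hmem

end coarse

end FreeMono
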