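import Pool.Agent.Lib.MP_eee45d_an.Kaplansky
import Pool.Agent.Lib.MP_eee45d_an.Positivity

open scoped ComplexOrder CStarAlgebra
open MulOpposite

noncomputable section

namespace FreeMono

set_option linter.unusedSectionVars false

section lip

variable {E F : Type*} [AddCommGroup E] [Module ℂ E] [AddCommGroup F] [Module ℂ F]

lemma lip_mem' {N : Seminorm ℂ E} {N' : Seminorm ℂ F} {s : Set F} {f : E → F} {K : ℝ}
    (hsub : ∀ x y, f x - f y = f (x - y)) (hf : ∀ z, N' (f z) ≤ K * N z) (x : E)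
    (h : ∀ ε > 0, ∃ y, f y ∈ cl N' s ∧ N (x - y) < ε) : f x ∈ cl N' s :=
  lip_mem (K := K) (fun x y => by rw [hsub]; exact hf _) x h

lemma lip_zero' {N : Seminorm ℂ E} {g : E → ℂ} {K : ℝ}
    (hsub : ∀ x y, g x - g y = g (x - y)) (hg : ∀ z, ‖g z‖ ≤ K * N z) (x : E)
    (h : ∀ ε > 0, ∃ y, g y = 0 ∧ N (x - y) < ε) : g x = 0 :=
  lip_zero (K := K) (fun x y => by rw [hsub]; exact hg _) x h

end lip

section coarse

variable {A 𝔐 : Type*} [CStarAlgebra A] [CStarAlgebra 𝔐]
variable {τ : A →L[ℂ] ℂ} {tr : 𝔐 →L[ℂ] ℂ}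
variable {l : A →⋆ₐ[ℂ] 𝔐} {r : Aᵐᵒᵖ →⋆ₐ[ℂ] 𝔐}
variable {ι : Type*} [DecidableEq ι]

/-! ### relations on `𝔐` -/

lemma RelLM_l (hc : IsCoarse τ tr l r) {U V : ι → A} {a b : A} (h : (a, b) ∈ RelL hc.trace U V) :
    (l a, l b) ∈ RelL hc.trace' (LR l r U) (LR l r V) := by
  refine cl_induction (p := fun p : A × A => (l p.1, l p.2) ∈
    RelL hc.trace' (LR l r U) (LR l r V)) ?_ ?_ ?_ ?_ ?_ (a, b) h
  · rintro _ ⟨w, rfl⟩
    show (l (ev U w), l (ev V w)) ∈ RelL hc.trace' (LR l r U) (LR l r V)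
    induction w with
    | nil => simpa using RelL_one _ _ _
    | cons i w ih =>
      simp only [ev_cons, map_mul]
      exact RelL_mul _ (RelL_gen hc.trace' (LR l r U) (LR l r V) (Sum.inl i)) ih
  · simpa using RelL_zero _ _ _
  · intro x y hx hy
    simpa using add_mem hx hy
  · intro c x hx
    simpa using Submodule.smul_mem _ c hx
  · refine fun x hx => lip_mem' (f := fun p : A × A => (l p.1, l p.2)) (K := 1) ?_ ?_ x hx
    · intro x y; simp
    · intro z
      rw [NP_apply, NP_apply, hc.n2_l, hc.n2_l, one_mul]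

lemma RelLM_r (hc : IsCoarse τ tr l r) {U V : ι → A} {a b : A} (h : (a, b) ∈ RelL hc.trace U V) :
    (r (op a), r (op b)) ∈ RelL hc.trace' (LR l r U) (LR l r V) := by
  refine cl_induction (p := fun p : A × A => (r (op p.1), r (op p.2)) ∈
    RelL hc.trace' (LR l r U) (LR l r V)) ?_ ?_ ?_ ?_ ?_ (a, b) h
  · rintro _ ⟨w, rfl⟩
    show (r (op (ev U w)), r (op (ev V w))) ∈ RelL hc.trace' (LR l r U) (LR l r V)
    induction w using List.reverseRecOn with
    | nil => simpa using RelL_one _ _ _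
    | append_singleton w i ih =>
      simp only [ev_append, op_mul, map_mul, ev_cons, ev_nil, mul_one]
      exact RelL_mul _ (RelL_gen hc.trace' (LR l r U) (LR l r V) (Sum.inr i)) ih
  · simpa using RelL_zero _ _ _
  · intro x y hx hy
    simpa using add_mem hx hy
  · intro c x hx
    simpa using Submodule.smul_mem _ c hx
  · refine fun x hx => lip_mem' (f := fun p : A × A => (r (op p.1), r (op p.2))) (K := 1)
      ?_ ?_ x hx
    · intro x y; simp
    · intro z
      rw [NP_apply, NP_apply, hc.n2_r, hc.n2_r, one_mul]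

lemma LRL_rel (hc : IsCoarse τ tr l r) {P Q U V : ι → A} (h : ∀ i, (U i, V i) ∈ RelL hc.trace P Q)
    (k : ι ⊕ ι) : (LR l r U k, LR l r V k) ∈ RelL hc.trace' (LR l r P) (LR l r Q) := by
  rcases k with i | i
  · exact RelLM_l hc (h i)
  · exact RelLM_r hc (h i)

lemma RelLM_fdq (hc : IsCoarse τ tr l r) {P Q U V : ι → A}
    (h : ∀ i, (U i, V i) ∈ RelL hc.trace P Q) (j : ι) (w : List ι) :
    (fdq l r U j w, fdq l r V j w) ∈ RelL hc.trace' (LR l r P) (LR l r Q) := by
  have hev : ∀ w, (ev U w, ev V w) ∈ RelL hc.trace P Q := fun w =>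
    RelL_le _ h (RelL_ev _ U V w)
  induction w with
  | nil => simpa using RelL_zero _ _ _
  | cons i w ih =>
    rw [fdq_cons, fdq_cons]
    refine RelL_add _ ?_ (RelL_mul _ (RelLM_l hc (h i)) ih)
    split_ifs
    · exact RelLM_r hc (hev w)
    · exact RelL_zero _ _ _

variable [Fintype ι]

/-! ### the graph -/

/-- the seminorm on the graph space -/
def NG (hc : IsCoarse τ tr l r) : Seminorm ℂ (A × (ι → 𝔐)) :=
  Seminorm.of (fun p => n2 τ p.1 + ∑ j, n2 tr (p.2 j))
    (fun p q => by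
      have h1 := n2_add_le hc.trace p.1 q.1
      have h2 : ∑ j, n2 tr (p.2 j + q.2 j) ≤ ∑ j, n2 tr (p.2 j) + ∑ j, n2 tr (q.2 j) := by
        rw [← Finset.sum_add_distrib]
        exact Finset.sum_le_sum fun j _ => n2_add_le hc.trace' _ _
      simp only [Prod.fst_add, Prod.snd_add, Pi.add_apply]
      linarith)
    (fun c p => by
      simp only [Prod.smul_fst, Prod.smul_snd, Pi.smul_apply, n2_smul, mul_add, Finset.mul_sum])

lemma NG_apply (hc : IsCoarse τ tr l r) (p : A × (ι → 𝔐)) :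
    NG hc p = n2 τ p.1 + ∑ j, n2 tr (p.2 j) := rfl

lemma NG_fst (hc : IsCoarse τ tr l r) (p : A × (ι → 𝔐)) : n2 τ p.1 ≤ NG hc p := by
  rw [NG_apply]
  linarith [Finset.sum_nonneg fun j (_ : j ∈ Finset.univ) => n2_nonneg tr (p.2 j)]

lemma NG_snd (hc : IsCoarse τ tr l r) (p : A × (ι → 𝔐)) (j : ι) : n2 tr (p.2 j) ≤ NG hc p := by
  rw [NG_apply]
  have := Finset.single_le_sum (f := fun j => n2 tr (p.2 j)) (fun j _ => n2_nonneg tr (p.2 j))
    (Finset.mem_univ j)
  linarith [n2_nonneg τ p.1]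

/-- The bounded part of the `L²`-closed graph of the free difference quotients. -/
def Gr2 (hc : IsCoarse τ tr l r) (Z : ι → A) : Submodule ℂ (A × (ι → 𝔐)) :=
  cl (NG hc) (Set.range fun w : List ι => (ev Z w, fun j => fdq l r Z j w))

lemma Gr2_ev (hc : IsCoarse τ tr l r) (Z : ι → A) (w : List ι) :
    (ev Z w, fun j => fdq l r Z j w) ∈ Gr2 hc Z := subset_cl ⟨w, rfl⟩

lemma Gr2_gen (hc : IsCoarse τ tr l r) (Z : ι → A) (i : ι) :
    (Z i, fun j => if i = j then (1 : 𝔐) else 0) ∈ Gr2 hc Z := by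
  have := Gr2_ev hc Z [i]
  simpa [fdq_cons] using this

lemma Gr2_mul (hc : IsCoarse τ tr l r) {Z : ι → A} {a a' : A} {b b' : ι → 𝔐}
    (h : (a, b) ∈ Gr2 hc Z) (h' : (a', b') ∈ Gr2 hc Z) :
    (a * a', fun j => l a * b' j + r (op a') * b j) ∈ Gr2 hc Z := by
  refine cl_induction (p := fun p : A × (ι → 𝔐) =>
    (p.1 * a', fun j => l p.1 * b' j + r (op a') * p.2 j) ∈ Gr2 hc Z) ?_ ?_ ?_ ?_ ?_ (a, b) h
  · rintro _ ⟨u, rfl⟩
    refine cl_induction (p := fun p : A × (ι → 𝔐) =>
      (ev Z u * p.1, fun j => l (ev Z u) * p.2 j + r (op p.1) * fdq l r Z j u) ∈ Gr2 hc Z)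
      ?_ ?_ ?_ ?_ ?_ (a', b') h'
    · rintro _ ⟨v, rfl⟩
      have := Gr2_ev hc Z (u ++ v)
      simpa only [ev_append, fdq_append l r hc.comm] using this
    · have : ((ev Z u * (0 : A × (ι → 𝔐)).1,
        fun j => l (ev Z u) * (0 : A × (ι → 𝔐)).2 j + r (op (0 : A × (ι → 𝔐)).1) * fdq l r Z j u) :
          A × (ι → 𝔐)) = 0 := by
        ext <;> simp
      rw [this]; exact zero_mem _
    · intro x y hx hy
      convert add_mem hx hy using 1
      ext
      · simp [mul_add]
      · simp only [Prod.snd_add, Prod.fst_add, Pi.add_apply, mul_add, op_add, map_add, add_mul]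
        abel
    · intro c x hx
      convert Submodule.smul_mem _ c hx using 1
      ext <;> simp
    · refine fun x hx => lip_mem' (f := fun p : A × (ι → 𝔐) =>
        (ev Z u * p.1, fun j => l (ev Z u) * p.2 j + r (op p.1) * fdq l r Z j u))
        (K := ‖ev Z u‖ + ∑ _j : ι, ‖l (ev Z u)‖ + ∑ j, ‖fdq l r Z j u‖) ?_ ?_ x hx
      · intro x y
        ext
        · simp [mul_sub]
        · simp only [Prod.snd_sub, Prod.fst_sub, Pi.sub_apply, mul_sub, op_sub, map_sub, sub_mul]
          abel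
      · intro z
        rw [NG_apply, add_mul, add_mul, Finset.sum_mul, Finset.sum_mul, add_assoc,
          ← Finset.sum_add_distrib]
        refine add_le_add ?_ (Finset.sum_le_sum fun j _ => ?_)
        · refine (n2_mul_left hc.trace _ _).trans ?_
          exact mul_le_mul_of_nonneg_left (NG_fst hc z) (norm_nonneg _)
        · refine (n2_add_le hc.trace' _ _).trans (add_le_add ?_ ?_)
          · refine (n2_mul_left hc.trace' _ _).trans ?_
            exact mul_le_mul_of_nonneg_left (NG_snd hc z j) (norm_nonneg _)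
          · refine (n2_mul_right hc.trace' _ _).trans ?_
            rw [hc.n2_r, mul_comm]
            exact mul_le_mul_of_nonneg_left (NG_fst hc z) (norm_nonneg _)
  · have : (((0 : A × (ι → 𝔐)).1 * a',
        fun j => l (0 : A × (ι → 𝔐)).1 * b' j + r (op a') * (0 : A × (ι → 𝔐)).2 j) :
          A × (ι → 𝔐)) = 0 := by
      ext <;> simp
    rw [this]; exact zero_mem _
  · intro x y hx hy
    convert add_mem hx hy using 1
    ext
    · simp [add_mul]
    · simp only [Prod.snd_add, Prod.fst_add, Pi.add_apply, mul_add, map_add, add_mul]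
      abel
  · intro c x hx
    convert Submodule.smul_mem _ c hx using 1
    ext <;> simp
  · refine fun x hx => lip_mem' (f := fun p : A × (ι → 𝔐) =>
      (p.1 * a', fun j => l p.1 * b' j + r (op a') * p.2 j))
      (K := ‖a'‖ + ∑ j, ‖b' j‖ + ∑ _j : ι, ‖r (op a')‖) ?_ ?_ x hx
    · intro x y
      ext
      · simp [sub_mul]
      · simp only [Prod.snd_sub, Prod.fst_sub, Pi.sub_apply, mul_sub, map_sub, sub_mul]
        abel
    · intro z
      rw [NG_apply, add_mul, add_mul, Finset.sum_mul, Finset.sum_mul, add_assoc,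
        ← Finset.sum_add_distrib]
      refine add_le_add ?_ (Finset.sum_le_sum fun j _ => ?_)
      · refine (n2_mul_right hc.trace _ _).trans ?_
        rw [mul_comm]
        exact mul_le_mul_of_nonneg_left (NG_fst hc z) (norm_nonneg _)
      · refine (n2_add_le hc.trace' _ _).trans (add_le_add ?_ ?_)
        · refine (n2_mul_right hc.trace' _ _).trans ?_
          rw [hc.n2_l, mul_comm]
          exact mul_le_mul_of_nonneg_left (NG_fst hc z) (norm_nonneg _)
        · refine (n2_mul_left hc.trace' _ _).trans ?_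
          exact mul_le_mul_of_nonneg_left (NG_snd hc z j) (norm_nonneg _)

/-- Chain rule. -/
lemma Gr2_chain (hc : IsCoarse τ tr l r) {X Y : ι → A} {B : ι → ι → 𝔐}
    (hY : ∀ i, (Y i, B i) ∈ Gr2 hc X) {a : A} {c : ι → 𝔐} (h : (a, c) ∈ Gr2 hc Y) :
    (a, fun j => ∑ k, c k * B k j) ∈ Gr2 hc X := by
  refine cl_induction (p := fun p : A × (ι → 𝔐) =>
    (p.1, fun j => ∑ k, p.2 k * B k j) ∈ Gr2 hc X) ?_ ?_ ?_ ?_ ?_ (a, c) h
  · rintro _ ⟨w, rfl⟩
    show (ev Y w, fun j => ∑ k, fdq l r Y k w * B k j) ∈ Gr2 hc X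
    induction w with
    | nil =>
      have := Gr2_ev hc X []
      simpa using this
    | cons i w ih =>
      have := Gr2_mul hc (hY i) ih
      convert this using 1
      ext j
      · simp
      · simp only [fdq_cons, add_mul, Finset.sum_add_distrib, Finset.mul_sum, ite_mul, zero_mul,
          Finset.sum_ite_eq, Finset.mem_univ, if_true, mul_assoc]
        rw [add_comm]
  · have : (((0 : A × (ι → 𝔐)).1, fun j => ∑ k, (0 : A × (ι → 𝔐)).2 k * B k j) :
          A × (ι → 𝔐)) = 0 := by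
      ext <;> simp
    rw [this]; exact zero_mem _
  · intro x y hx hy
    convert add_mem hx hy using 1
    ext
    · simp
    · simp [add_mul, Finset.sum_add_distrib]
  · intro c x hx
    convert Submodule.smul_mem _ c hx using 1
    ext
    · simp
    · simp [Finset.smul_sum]
  · refine fun x hx => lip_mem' (f := fun p : A × (ι → 𝔐) => (p.1, fun j => ∑ k, p.2 k * B k j))
      (K := 1 + ∑ j, ∑ k, ‖B k j‖) ?_ ?_ x hx
    · intro x y
      ext
      · simp
      · simp [sub_mul, Finset.sum_sub_distrib]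
    · intro z
      rw [NG_apply, add_mul, one_mul, Finset.sum_mul]
      refine add_le_add (NG_fst hc z) (Finset.sum_le_sum fun j _ => ?_)
      rw [Finset.sum_mul]
      have h1 : n2 tr (∑ k, z.2 k * B k j) ≤ ∑ k, n2 tr (z.2 k * B k j) :=
        Finset.le_sum_of_subadditive (fun a => n2 tr a) (n2_zero tr).le (n2_add_le hc.trace')
          Finset.univ (fun k => z.2 k * B k j)
      refine h1.trans (Finset.sum_le_sum fun k _ => ?_)
      refine (n2_mul_right hc.trace' _ _).trans ?_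
      rw [mul_comm]
      exact mul_le_mul_of_nonneg_left (NG_snd hc z k) (norm_nonneg _)

end coarse

end FreeMono
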