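import Pool.Agent.Lib.MP_eee45d_an.AMGM

open scoped ComplexOrder CStarAlgebra

noncomputable section

namespace FreeMono

set_option linter.unusedSectionVars false

section

variable {𝔐 : Type*} [CStarAlgebra 𝔐] {tr : 𝔐 →L[ℂ] ℂ}
variable {ι : Type*} [DecidableEq ι] [Fintype ι]

/-- The AM-GM inequality for matrices over a C*-algebra with a faithful trace. -/
lemma matrix_amgm_seq [Nonempty ι] (htr : IsFaithfulTrace tr) {A B : Matrix ι ι 𝔐}
    (hA : ∃ t : Matrix ι ι 𝔐, A = t.conjTranspose * t)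
    (hB : ∃ s : Matrix ι ι 𝔐, B = s.conjTranspose * s) {K : ℝ} {σ σ' : ℂ}
    (hD : ∀ ε > (0 : ℝ), ∃ D : Matrix ι ι 𝔐, (∀ i j, n2 tr ((D * A - 1) i j) < ε) ∧
      (∀ i j, n2 tr (D i j) ≤ K) ∧ ‖∑ i, tr ((D * B) i i) - σ‖ < ε)
    (hC : ∀ ε > (0 : ℝ), ∃ C : Matrix ι ι 𝔐, (∀ i j, n2 tr ((C * B - 1) i j) < ε) ∧
      (∀ i j, n2 tr (C i j) ≤ K) ∧ ‖∑ i, tr ((C * A) i i) - σ'‖ < ε) :
    2 * (Fintype.card ι : ℝ) ≤ (σ + σ').re := by
  let _ : PartialOrder 𝔐 := CStarAlgebra.spectralOrder 𝔐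
  have _ : StarOrderedRing 𝔐 := CStarAlgebra.spectralOrderedRing 𝔐
  set c : ℝ := (Fintype.card ι : ℝ) with hc
  have hc1 : 1 ≤ c := by
    rw [hc]; exact_mod_cast Fintype.card_pos
  have hc0 : 0 < c := by linarith
  let φ : CStarMatrix ι ι 𝔐 →L[ℂ] ℂ :=
    { toFun := fun M => ((c⁻¹ : ℝ) : ℂ) * ∑ i, tr (M i i)
      map_add' := fun M M' => by
        simp [Finset.sum_add_distrib, mul_add]
      map_smul' := fun c M => by
        simp only [CStarMatrix.smul_apply, map_smul, smul_eq_mul, RingHom.id_apply,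
          ← Finset.mul_sum]
        ring
      cont := by
        refine continuous_const.mul (continuous_finsetSum _ fun i _ => ?_)
        have hc : Continuous fun M : CStarMatrix ι ι 𝔐 => M i i :=
          (continuous_apply i).comp (continuous_apply i : Continuous fun M : ι → ι → 𝔐 => M i)
        exact tr.continuous.comp hc }
  have hφ : ∀ M, φ M = ((c⁻¹ : ℝ) : ℂ) * ∑ i, tr (M i i) := fun M => rfl
  have hstar : ∀ x : CStarMatrix ι ι 𝔐, ∑ i, tr ((star x * x) i i) =
      ∑ i, ∑ k, tr (star (x k i) * x k i) := by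
    intro x
    refine Finset.sum_congr rfl fun i _ => ?_
    rw [CStarMatrix.mul_apply, map_sum]
    refine Finset.sum_congr rfl fun k _ => ?_
    rw [CStarMatrix.star_apply]
  have hcinv : (0 : ℂ) ≤ ((c⁻¹ : ℝ) : ℂ) := by exact_mod_cast (inv_pos.2 hc0).le
  have hfaith : IsFaithfulTrace φ :=
    { one := by
        rw [hφ]
        have : ∀ i : ι, tr ((1 : CStarMatrix ι ι 𝔐) i i) = 1 := fun i => by
          rw [CStarMatrix.one_apply_eq, htr.one]
        simp only [this, Finset.sum_const, Finset.card_univ, nsmul_eq_mul, mul_one]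
        rw [hc]
        push_cast
        rw [inv_mul_cancel₀]
        exact_mod_cast Fintype.card_ne_zero
      comm := fun a b => by
        rw [hφ, hφ]
        congr 1
        simp only [CStarMatrix.mul_apply, map_sum]
        rw [Finset.sum_comm]
        refine Finset.sum_congr rfl fun i _ => Finset.sum_congr rfl fun j _ => ?_
        rw [htr.comm]
      nonneg := fun x => by
        rw [hφ, hstar]
        refine mul_nonneg hcinv ?_
        exact Finset.sum_nonneg fun i _ => Finset.sum_nonneg fun k _ => htr.nonneg _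
      faithful := fun x hx => by
        rw [hφ, hstar] at hx
        have hne : ((c⁻¹ : ℝ) : ℂ) ≠ 0 := by exact_mod_cast (inv_pos.2 hc0).ne'
        have h1 := (mul_eq_zero.1 hx).resolve_left hne
        have h2 := (Finset.sum_eq_zero_iff_of_nonneg (fun i _ =>
          Finset.sum_nonneg fun k _ => htr.nonneg _)).1 h1
        ext k i
        have h3 := (Finset.sum_eq_zero_iff_of_nonneg (fun k _ => htr.nonneg _)).1
          (h2 i (Finset.mem_univ i)) k (Finset.mem_univ k)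
        exact htr.faithful _ h3 }
  -- comparison of `L²` norms
  have hn2 : ∀ (x : CStarMatrix ι ι 𝔐) (η : ℝ), 0 ≤ η → (∀ i j, n2 tr (x i j) ≤ η) →
      n2 φ x ≤ c * η := by
    intro x η hη hx
    refine abs_le_of_sq_le_sq' ?_ (by positivity) |>.2
    rw [n2_sq hfaith, hφ, hstar, Complex.re_ofReal_mul]
    simp only [Complex.re_sum]
    have h1 : ∀ i k, (tr (star (x k i) * x k i)).re ≤ η ^ 2 := by
      intro i k
      rw [← n2_sq htr]
      exact pow_le_pow_left₀ (n2_nonneg _ _) (hx k i) 2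
    have h2 : ∑ i, ∑ k, (tr (star (x k i) * x k i)).re ≤ c * (c * η ^ 2) := by
      calc ∑ i, ∑ k, (tr (star (x k i) * x k i)).re ≤ ∑ _i : ι, ∑ _k : ι, η ^ 2 :=
            Finset.sum_le_sum fun i _ => Finset.sum_le_sum fun k _ => h1 i k
        _ = c * (c * η ^ 2) := by
            simp only [Finset.sum_const, Finset.card_univ, nsmul_eq_mul]; rfl
    calc c⁻¹ * ∑ i, ∑ k, (tr (star (x k i) * x k i)).re ≤ c⁻¹ * (c * (c * η ^ 2)) :=
          mul_le_mul_of_nonneg_left h2 (by positivity)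
      _ = c * η ^ 2 := by field_simp
      _ ≤ (c * η) ^ 2 := by nlinarith [sq_nonneg η]
  have hK0 : 0 ≤ K := by
    obtain ⟨D, -, hDK, -⟩ := hD 1 one_pos
    obtain ⟨i⟩ := ‹Nonempty ι›
    exact (n2_nonneg _ _).trans (hDK i i)
  -- transfer
  have transfer : ∀ {A B : Matrix ι ι 𝔐} {σ : ℂ},
      (∀ ε > (0 : ℝ), ∃ D : Matrix ι ι 𝔐, (∀ i j, n2 tr ((D * A - 1) i j) < ε) ∧
        (∀ i j, n2 tr (D i j) ≤ K) ∧ ‖∑ i, tr ((D * B) i i) - σ‖ < ε) →
      ∀ ε > (0 : ℝ), ∃ D : CStarMatrix ι ι 𝔐, n2 φ (D * CStarMatrix.ofMatrix A - 1) < ε ∧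
        n2 φ D ≤ c * K ∧ ‖φ (D * CStarMatrix.ofMatrix B) - ((c⁻¹ : ℝ) : ℂ) * σ‖ < ε := by
    intro A B σ hD ε hε
    obtain ⟨D, h1, h2, h3⟩ := hD (ε / (2 * c)) (by positivity)
    refine ⟨CStarMatrix.ofMatrix D, ?_, hn2 _ K hK0 h2, ?_⟩
    · refine (hn2 _ (ε / (2 * c)) (by positivity) fun i j => (h1 i j).le).trans_lt ?_
      have : c * (ε / (2 * c)) = ε / 2 := by field_simp
      rw [this]; linarith
    · rw [hφ, ← mul_sub, norm_mul, Complex.norm_real, Real.norm_eq_abs,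
        abs_of_pos (inv_pos.2 hc0)]
      have e : ∑ i, tr ((CStarMatrix.ofMatrix D * CStarMatrix.ofMatrix B) i i) =
        ∑ i, tr ((D * B) i i) := rfl
      rw [e]
      calc c⁻¹ * ‖∑ i, tr ((D * B) i i) - σ‖ ≤ 1 * ‖∑ i, tr ((D * B) i i) - σ‖ := by
            gcongr
            exact inv_le_one_of_one_le₀ hc1
        _ < ε := by
            rw [one_mul]
            refine h3.trans ?_
            rw [div_lt_iff₀ (by positivity)]
            nlinarith
  obtain ⟨t, ht⟩ := hA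
  obtain ⟨s, hs⟩ := hB
  have key := amgm_seq hfaith (A := CStarMatrix.ofMatrix A) (B := CStarMatrix.ofMatrix B)
    ⟨CStarMatrix.ofMatrix t, by rw [ht]; rfl⟩ ⟨CStarMatrix.ofMatrix s, by rw [hs]; rfl⟩
    (transfer hD) (transfer hC)
  rw [← mul_add, Complex.re_ofReal_mul] at key
  have : 2 * c ≤ c * (c⁻¹ * (σ + σ').re) := by nlinarith
  rwa [← mul_assoc, mul_inv_cancel₀ hc0.ne', one_mul] at this

end

end FreeMono
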