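import Pool.Agent.Lib.MP_eee45d_an.L2Main
import Pool.Agent.Lib.MP_eee45d_an.MatTrace

open scoped ComplexOrder CStarAlgebra
open MulOpposite

noncomputable section

namespace FreeMono

set_option linter.unusedSectionVars false

section coarse

variable {A 𝔐 : Type*} [CStarAlgebra A] [CStarAlgebra 𝔐]
variable {τ : A →L[ℂ] ℂ} {tr : 𝔐 →L[ℂ] ℂ}
variable {l : A →⋆ₐ[ℂ] 𝔐} {r : Aᵐᵒᵖ →⋆ₐ[ℂ] 𝔐}
variable {ι : Type*} [DecidableEq ι] [Fintype ι]

lemma HasDeriv.mem (hc : IsCoarse τ tr l r) {Z : ι → A} {a : A} {b : ι → 𝔐}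
    (h : HasDeriv τ tr l r Z a b) : (a, b) ∈ Gr2 hc Z := by
  intro ε hε
  obtain ⟨q, hq, h1, h2⟩ := h (ε / (Fintype.card ι + 1)) (by positivity)
  refine ⟨q, hq, ?_⟩
  rw [NG_apply]
  simp only [Prod.fst_sub, Prod.snd_sub, Pi.sub_apply]
  calc n2 τ (a - q.1) + ∑ j, n2 tr (b j - q.2 j)
      < ε / (Fintype.card ι + 1) + ∑ _j : ι, ε / (Fintype.card ι + 1) :=
        add_lt_add_of_lt_of_le h1 (Finset.sum_le_sum fun j _ => (h2 j).le)
    _ = ε := by
        rw [Finset.sum_const, Finset.card_univ, nsmul_eq_mul]; field_simp; ring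

lemma span_pair (hc : IsCoarse τ tr l r) {P Q U V : ι → A}
    (h : ∀ i, (U i, V i) ∈ RelL hc.trace P Q) {q : A × (ι → 𝔐)} (hq : q ∈ PolyGraph l r U) :
    ∃ q' ∈ PolyGraph l r V, (q.1, q'.1) ∈ RelL hc.trace P Q ∧
      ∀ j, (q.2 j, q'.2 j) ∈ RelL hc.trace' (LR l r P) (LR l r Q) := by
  have hle := RelL_le hc.trace h
  refine Submodule.span_induction (p := fun q _ => ∃ q' ∈ PolyGraph l r V,
      (q.1, q'.1) ∈ RelL hc.trace P Q ∧
      ∀ j, (q.2 j, q'.2 j) ∈ RelL hc.trace' (LR l r P) (LR l r Q)) ?_ ?_ ?_ ?_ hq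
  · rintro _ ⟨w, rfl⟩
    have k1 : (ev U w, ev V w) ∈ RelL hc.trace P Q := hle (RelL_ev hc.trace U V w)
    have k2 := fun j => RelLM_fdq hc h j w
    have k3 : (ev V w, fun j => fdq l r V j w) ∈ PolyGraph l r V :=
      Submodule.subset_span ⟨w, rfl⟩
    exact ⟨(ev V w, fun j => fdq l r V j w), k3, k1, k2⟩
  · have k1 : (((0 : A × (ι → 𝔐)).1 : A), ((0 : A × (ι → 𝔐)).1 : A)) ∈ RelL hc.trace P Q :=
      RelL_zero hc.trace P Q
    have k2 : ∀ j, (((0 : A × (ι → 𝔐)).2 j : 𝔐), ((0 : A × (ι → 𝔐)).2 j : 𝔐)) ∈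
        RelL hc.trace' (LR l r P) (LR l r Q) := fun j => RelL_zero hc.trace' _ _
    exact ⟨0, zero_mem _, k1, k2⟩
  · rintro x y _ _ ⟨x', hx', hx1, hx2⟩ ⟨y', hy', hy1, hy2⟩
    have k1 := RelL_add hc.trace hx1 hy1
    have k2 := fun j => RelL_add hc.trace' (hx2 j) (hy2 j)
    exact ⟨x' + y', add_mem hx' hy', k1, k2⟩
  · rintro c x _ ⟨x', hx', hx1, hx2⟩
    have k1 := RelL_smul hc.trace c hx1
    have k2 := fun j => RelL_smul hc.trace' c (hx2 j)
    exact ⟨c • x', Submodule.smul_mem _ c hx', k1, k2⟩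

/-- closability for sequences -/
lemma strong_lim (hc : IsCoarse τ tr l r) {X : ι → A} (hXsa : ∀ i, IsSelfAdjoint (X i))
    (hX : SD τ tr l r X) {a : ℕ → A} {e : ℕ → ι → 𝔐} (h : ∀ n, (a n, e n) ∈ Gr2 hc X)
    (ha : ∀ ε > 0, ∃ N, ∀ n ≥ N, n2 τ (a n) < ε) (j : ι)
    (he : ∀ ε > 0, ∃ N, ∀ m ≥ N, ∀ n ≥ N, n2 tr (e m j - e n j) < ε) :
    ∀ ε > 0, ∃ N, ∀ n ≥ N, n2 tr (e n j) < ε := by
  intro ε hε
  set δ := ε / 5 with hδ
  have hδ0 : 0 < δ := by positivity
  obtain ⟨N, hN⟩ := he δ hδ0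
  -- approximate `star (e N j)` by an algebraic element
  have hmem : star (e N j) ∈ PolL hc.trace' (LR l r X) :=
    PolL_star _ (LR_sa l r hXsa) ((Gr2_mem_PolL hc (h N)).2 j)
  obtain ⟨η, hη, hη'⟩ := (mem_cl.1 hmem) δ hδ0
  obtain ⟨K, hK0, hK⟩ := L2_bound2 hc hX (η := η) hη
  obtain ⟨N', hN'⟩ := ha (δ ^ 2 / (K + 1)) (by positivity)
  set m := max N N' with hm
  have hmN : N ≤ m := le_max_left _ _
  have hmN' : N' ≤ m := le_max_right _ _
  set x := n2 tr (e N j) with hx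
  have hx0 : 0 ≤ x := n2_nonneg _ _
  have h1 : n2 tr (e N j - e m j) < δ := hN N le_rfl m hmN
  have h2 : n2 tr (e m j) ≤ x + δ := by
    have := n2_add_le hc.trace' (e N j) (e m j - e N j)
    rw [add_sub_cancel, n2_sub_comm] at this
    linarith
  have h3 : ‖tr (η * e m j)‖ ≤ δ ^ 2 := by
    refine (hK _ _ (h m) j).trans ?_
    have h4 := (hN' m hmN').le
    have h5 := n2_nonneg τ (a m)
    calc K * n2 τ (a m) ≤ (K + 1) * (δ ^ 2 / (K + 1)) := by
          apply mul_le_mul (by linarith) h4 h5 (by positivity)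
      _ = δ ^ 2 := by field_simp
  have e1 : tr (star (e N j) * e N j) = tr (star (e N j) * (e N j - e m j)) +
      tr ((star (e N j) - η) * e m j) + tr (η * e m j) := by
    rw [← map_add, ← map_add]
    congr 1
    noncomm_ring
  have f1 : ‖tr (star (e N j) * (e N j - e m j))‖ ≤ x * δ := by
    refine (cauchy_schwarz hc.trace'.nonneg _ _).trans ?_
    exact mul_le_mul_of_nonneg_left h1.le hx0
  have f2 : ‖tr ((star (e N j) - η) * e m j)‖ ≤ δ * (x + δ) := by
    refine (cauchy_schwarz' hc.trace'.nonneg _ _).trans ?_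
    rw [n2_star hc.trace']
    exact mul_le_mul hη'.le h2 (n2_nonneg _ _) hδ0.le
  have h4 : x ^ 2 ≤ x * δ + δ * (x + δ) + δ ^ 2 := by
    rw [hx, n2_sq hc.trace', ← hx]
    refine (Complex.re_le_norm _).trans ?_
    rw [e1]
    refine (norm_add_le _ _).trans (add_le_add ((norm_add_le _ _).trans (add_le_add f1 f2)) h3)
  have h5 : x ≤ 3 * δ := by
    by_contra hneg
    push Not at hneg
    nlinarith
  refine ⟨N, fun n hn => ?_⟩
  have h6 := hN N le_rfl n hn
  have h7 : n2 tr (e n j) ≤ x + δ := by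
    have := n2_add_le hc.trace' (e N j) (e n j - e N j)
    rw [add_sub_cancel, n2_sub_comm] at this
    linarith
  have : ε = 5 * δ := by rw [hδ]; ring
  linarith

/-- The matrices of derivatives of polynomials in `Y` converging to `X` are approximate inverses of
the Jacobian of `Y`. -/
lemma seq_inv (hc : IsCoarse τ tr l r) {X Y : ι → A} (hXsa : ∀ i, IsSelfAdjoint (X i))
    (hX : SD τ tr l r X) {B : Matrix ι ι 𝔐} (hB : ∀ i, (Y i, B i) ∈ Gr2 hc X)
    {q : ι → ℕ → A × (ι → 𝔐)} (hq : ∀ i n, q i n ∈ PolyGraph l r Y)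
    (hq1 : ∀ i, ∀ ε > 0, ∃ N, ∀ n ≥ N, n2 τ (X i - (q i n).1) < ε)
    (hq2 : ∀ i j, ∀ ε > 0, ∃ N, ∀ m ≥ N, ∀ n ≥ N, n2 tr ((q i m).2 j - (q i n).2 j) < ε)
    (i j : ι) : ∀ ε > 0, ∃ N, ∀ n ≥ N,
      n2 tr (((Matrix.of fun i => (q i n).2) * B - 1) i j) < ε := by
  have hmem : ∀ n, ((q i n).1 - X i, fun j => ∑ k, (q i n).2 k * B k j -
      (if i = j then (1 : 𝔐) else 0)) ∈ Gr2 hc X := by
    intro n
    have h0 : q i n ∈ Gr2 hc Y := span_le_cl (hq i n)
    have h1 : ((q i n).1, (q i n).2) ∈ Gr2 hc Y := h0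
    have h2 := sub_mem (Gr2_chain hc hB h1) (Gr2_gen hc X i)
    convert h2 using 1
    ext <;> simp
  have := strong_lim hc hXsa hX hmem (fun ε hε => by
    obtain ⟨N, hN⟩ := hq1 i ε hε
    refine ⟨N, fun n hn => ?_⟩
    rw [n2_sub_comm]; exact hN n hn) j (fun ε hε => by
    set M : ℝ := ∑ k, ‖B k j‖ + 1 with hM
    have hM0 : 0 < M := by positivity
    choose N hN using fun k => hq2 i k (ε / M) (by positivity)
    refine ⟨∑ k, N k, fun m hm n hn => ?_⟩
    have hle : ∀ k, N k ≤ ∑ k, N k := fun k =>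
      Finset.single_le_sum (f := N) (fun _ _ => Nat.zero_le _) (Finset.mem_univ k)
    have e1 : (∑ k, (q i m).2 k * B k j - (if i = j then (1 : 𝔐) else 0)) -
        (∑ k, (q i n).2 k * B k j - (if i = j then (1 : 𝔐) else 0)) =
        ∑ k, ((q i m).2 k - (q i n).2 k) * B k j := by
      rw [sub_sub_sub_cancel_right, ← Finset.sum_sub_distrib]
      exact Finset.sum_congr rfl fun k _ => (sub_mul _ _ _).symm
    show n2 tr ((∑ k, (q i m).2 k * B k j - (if i = j then (1 : 𝔐) else 0)) -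
        (∑ k, (q i n).2 k * B k j - (if i = j then (1 : 𝔐) else 0))) < ε
    rw [e1]
    have h1 : n2 tr (∑ k, ((q i m).2 k - (q i n).2 k) * B k j) ≤
        ∑ k, n2 tr (((q i m).2 k - (q i n).2 k) * B k j) :=
      Finset.le_sum_of_subadditive (fun a => n2 tr a) (n2_zero tr).le (n2_add_le hc.trace')
        Finset.univ _
    refine h1.trans_lt ?_
    calc ∑ k, n2 tr (((q i m).2 k - (q i n).2 k) * B k j) ≤ ∑ k, ε / M * ‖B k j‖ := by
          refine Finset.sum_le_sum fun k _ => (n2_mul_right hc.trace' _ _).trans ?_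
          exact mul_le_mul_of_nonneg_right (hN k m ((hle k).trans hm) n ((hle k).trans hn)).le
            (norm_nonneg _)
      _ = ε / M * (M - 1) := by rw [← Finset.mul_sum, hM]; ring
      _ < ε / M * M := by
          apply mul_lt_mul_of_pos_left _ (by positivity); linarith
      _ = ε := by field_simp)
  intro ε hε
  obtain ⟨N, hN⟩ := this ε hε
  refine ⟨N, fun n hn => ?_⟩
  have h1 := hN n hn
  rw [Matrix.sub_apply, Matrix.mul_apply, Matrix.one_apply]
  exact h1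

/-- `L²`-Cauchy sequences are eventually bounded -/
lemma cauchy_bound (hc : IsCoarse τ tr l r) {q : ι → ℕ → A × (ι → 𝔐)}
    (hq2 : ∀ i j, ∀ ε > 0, ∃ N, ∀ m ≥ N, ∀ n ≥ N, n2 tr ((q i m).2 j - (q i n).2 j) < ε) :
    ∃ (K : ℝ) (N : ℕ), ∀ n ≥ N, ∀ i j, n2 tr ((q i n).2 j) ≤ K := by
  choose N hN using fun i j => hq2 i j 1 one_pos
  refine ⟨∑ i, ∑ j, (n2 tr ((q i (N i j)).2 j) + 1), ∑ i, ∑ j, N i j, fun n hn i j => ?_⟩
  have h1 : N i j ≤ ∑ i, ∑ j, N i j :=
    (Finset.single_le_sum (f := fun j => N i j) (fun _ _ => Nat.zero_le _)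
      (Finset.mem_univ j)).trans
    (Finset.single_le_sum (f := fun i => ∑ j, N i j) (fun _ _ => Nat.zero_le _)
      (Finset.mem_univ i))
  have h2 : n2 tr ((q i (N i j)).2 j) + 1 ≤ ∑ i, ∑ j, (n2 tr ((q i (N i j)).2 j) + 1) :=
    (Finset.single_le_sum (f := fun j => n2 tr ((q i (N i j)).2 j) + 1)
      (fun _ _ => add_nonneg (n2_nonneg _ _) zero_le_one) (Finset.mem_univ j)).trans
    (Finset.single_le_sum (f := fun i => ∑ j, (n2 tr ((q i (N i j)).2 j) + 1))
      (fun _ _ => Finset.sum_nonneg fun _ _ => add_nonneg (n2_nonneg _ _) zero_le_one)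
      (Finset.mem_univ i))
  refine le_trans ?_ h2
  have h3 := hN i j n (h1.trans hn) (N i j) le_rfl
  have h4 := n2_add_le hc.trace' ((q i (N i j)).2 j) ((q i n).2 j - (q i (N i j)).2 j)
  rw [add_sub_cancel] at h4
  linarith

theorem unique3 (hc : IsCoarse τ tr l r) (hcomp : BallComplete τ) (hcomp' : BallComplete tr)
    {X Y Y' : ι → A}
    (hXsa : ∀ i, IsSelfAdjoint (X i)) (hYsa : ∀ i, IsSelfAdjoint (Y i))
    (hY'sa : ∀ i, IsSelfAdjoint (Y' i)) (hX : SD τ tr l r X)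
    {B B' : Matrix ι ι 𝔐}
    (hB : ∀ i, (Y i, B i) ∈ Gr2 hc X) (hC : ∀ i, InDom τ tr l r Y (X i))
    (hB' : ∀ i, (Y' i, B' i) ∈ Gr2 hc X) (hC' : ∀ i, InDom τ tr l r Y' (X i))
    (hwB : ∀ ξ : ι → 𝔐, (∀ i, ξ i ∈ PolL hc.trace' (LR l r X)) →
      0 ≤ ∑ i, ∑ j, tr (star (ξ i) * B i j * ξ j))
    (hwB' : ∀ ξ : ι → 𝔐, (∀ i, ξ i ∈ PolL hc.trace' (LR l r X)) →
      0 ≤ ∑ i, ∑ j, tr (star (ξ i) * B' i j * ξ j))
    (hlaw : ∀ w, τ (ev Y w) = τ (ev Y' w)) : Y = Y' := by
  rcases isEmpty_or_nonempty ι with hempty | hne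
  · funext i; exact (hempty.false i).elim
  have hlaw' : ∀ w, τ (ev Y' w) = τ (ev Y w) := fun w => (hlaw w).symm
  have hlawM : ∀ w, tr (ev (LR l r Y') w) = tr (ev (LR l r Y) w) := by
    intro w
    obtain ⟨u, v, huv⟩ := exists_LR l r hc.comm w
    rw [huv, huv, hc.fact, hc.fact, hlaw', hlaw']
  have hn0 : ∀ {a b : A}, (a, b) ∈ RelL hc.trace Y' Y → a = 0 → b = 0 := by
    intro a b hab ha
    have := RelL_norm hc.trace hY'sa hYsa hlaw' hab
    rw [ha, norm_zero] at this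
    exact norm_eq_zero.1 this.symm
  -- sequences
  choose q hq hq1 hq2 using hC
  choose q' hq' hq1' hq2' using hC'
  -- partner of X
  have hXmem : ∀ i, X i ∈ PolL hc.trace Y' := by
    intro i
    refine cl_cl fun ε hε => ?_
    obtain ⟨N, hN⟩ := hq1' i ε hε
    have h0 : q' i N ∈ Gr2 hc Y' := span_le_cl (hq' i N)
    have h1 : ((q' i N).1, (q' i N).2) ∈ Gr2 hc Y' := h0
    exact ⟨_, (Gr2_mem_PolL hc h1).1, hN N le_rfl⟩
  choose T hXT using fun i => partner_exists hc.trace hcomp hY'sa hYsa hlaw' (hXmem i)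
  have hTsa : ∀ i, IsSelfAdjoint (T i) := by
    intro i
    have h1 := RelL_sub _ (RelL_star _ hY'sa hYsa (hXT i)) (hXT i)
    have h2 := hn0 h1 (by rw [(hXsa i).star_eq, sub_self])
    exact sub_eq_zero.1 h2
  have hTev : ∀ w, (ev X w, ev T w) ∈ RelL hc.trace Y' Y := fun w =>
    RelL_le _ hXT (RelL_ev _ X T w)
  have hSDT : SD τ tr l r T := by
    intro j w
    have h1 := RelL_trace _ hlaw' (RelL_mul _ (hXT j) (hTev w))
    have h2 := RelL_trace _ hlawM (RelLM_fdq hc hXT j w)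
    rw [← h1, ← h2]
    exact hX j w
  -- the partner of Y' as a function of T is Y
  choose Z A' hZA hYZ hBA using fun i =>
    Gr2_partner hc hcomp hcomp' hY'sa hYsa hlaw' hlawM hXsa hTsa (U := X) (V := T) hXT (hB' i)
  have hZY : ∀ i, Z i = Y i := by
    intro i
    have h1 := RelL_sub _ (hYZ i) (RelL_gen hc.trace Y' Y i)
    exact sub_eq_zero.1 (hn0 h1 (sub_self _))
  have hA : ∀ i, (Y i, A' i) ∈ Gr2 hc T := by
    intro i; rw [← hZY i]; exact hZA i
  -- partners of the approximating polynomials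
  choose p hp hp1 hp2 using fun i n =>
    span_pair hc (P := Y') (Q := Y) (U := Y') (V := Y) (fun i => RelL_gen hc.trace Y' Y i) (hq' i n)
  have hpT : ∀ i n, n2 τ (T i - (p i n).1) = n2 τ (X i - (q' i n).1) := fun i n =>
    (RelL_n2 hc.trace hY'sa hYsa hlaw' (RelL_sub _ (hXT i) (hp1 i n))).symm
  -- positivity
  have hposB := matrix_pos hc.trace' (PolL hc.trace' (LR l r X)) (PolL_closed _ _) (PolL_one _ _)
    (fun a b ha hb => PolL_mul _ ha hb) (fun a ha => PolL_star _ (LR_sa l r hXsa) ha) B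
    (fun i j => (Gr2_mem_PolL hc (hB i)).2 j) hwB
  have hXTevM : ∀ w, tr (ev (LR l r X) w) = tr (ev (LR l r T) w) := fun w =>
    RelL_trace _ hlawM (RelL_le _ (LRL_rel hc hXT) (RelL_ev _ (LR l r X) (LR l r T) w))
  have hwA : ∀ ξ : ι → 𝔐, (∀ i, ξ i ∈ PolL hc.trace' (LR l r T)) →
      0 ≤ ∑ i, ∑ j, tr (star (ξ i) * A' i j * ξ j) := by
    intro ξ hξ
    choose η hη hηξ using fun i => PolL_partner hc.trace' hcomp' (LR_sa l r hXsa) (LR_sa l r hTsa)
      hXTevM (hξ i)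
    have hηξ' : ∀ i, (η i, ξ i) ∈ RelL hc.trace' (LR l r Y') (LR l r Y) := fun i =>
      RelL_le _ (LRL_rel hc hXT) (hηξ i)
    have h1 := hwB' η hη
    convert h1 using 1
    refine Finset.sum_congr rfl fun i _ => Finset.sum_congr rfl fun j _ => ?_
    refine (RelL_trace hc.trace' hlawM ?_).symm
    exact RelL_mul hc.trace' (RelL_mul hc.trace' (RelL_star hc.trace' (LR_sa l r hY'sa)
      (LR_sa l r hYsa) (hηξ' i)) (hBA i j)) (hηξ' j)
  have hposA := matrix_pos hc.trace' (PolL hc.trace' (LR l r T)) (PolL_closed _ _) (PolL_one _ _)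
    (fun a b ha hb => PolL_mul _ ha hb) (fun a ha => PolL_star _ (LR_sa l r hTsa) ha)
    (Matrix.of A') (fun i j => (Gr2_mem_PolL hc (hA i)).2 j) hwA
  -- approximate inverses
  have hinvB := seq_inv hc hXsa hX hB hq hq1 hq2
  have hinvB' := seq_inv hc hXsa hX hB' hq' hq1' hq2'
  have hinvA : ∀ i j n, n2 tr (((Matrix.of fun i => (p i n).2) * (Matrix.of A') - 1) i j) =
      n2 tr (((Matrix.of fun i => (q' i n).2) * B' - 1) i j) := by
    intro i j n
    have h1 : (∑ k, (q' i n).2 k * B' k j, ∑ k, (p i n).2 k * A' k j) ∈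
        RelL hc.trace' (LR l r Y') (LR l r Y) := by
      have : (∑ k, (q' i n).2 k * B' k j, ∑ k, (p i n).2 k * A' k j) =
          ∑ k, ((q' i n).2 k * B' k j, (p i n).2 k * A' k j) :=
        Prod.ext (by rw [Prod.fst_sum]) (by rw [Prod.snd_sum])
      rw [this]
      exact sum_mem fun k _ => RelL_mul _ (hp2 i n k) (hBA k j)
    have h2 : ((if i = j then (1 : 𝔐) else 0), (if i = j then (1 : 𝔐) else 0)) ∈
        RelL hc.trace' (LR l r Y') (LR l r Y) := by
      split_ifs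
      · exact RelL_one _ _ _
      · exact RelL_zero _ _ _
    have h3 := RelL_n2 hc.trace' (LR_sa l r hY'sa) (LR_sa l r hYsa) hlawM (RelL_sub _ h1 h2)
    rw [Matrix.sub_apply, Matrix.sub_apply, Matrix.mul_apply, Matrix.mul_apply, Matrix.one_apply]
    exact h3.symm
  obtain ⟨K₁, N₁, hK₁⟩ := cauchy_bound hc hq2
  obtain ⟨K₂, N₂, hK₂⟩ := cauchy_bound hc hq2'
  have hK₂' : ∀ n ≥ N₂, ∀ i j, n2 tr ((p i n).2 j) ≤ K₂ := by
    intro n hn i j
    rw [← RelL_n2 hc.trace' (LR_sa l r hY'sa) (LR_sa l r hYsa) hlawM (hp2 i n j)]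
    exact hK₂ n hn i j
  -- Schwinger-Dyson along the sequences
  have sd : ∀ {U V W : ι → A} {B : Matrix ι ι 𝔐} {q : ι → ℕ → A × (ι → 𝔐)},
      SD τ tr l r U → (∀ i, (Y i, B i) ∈ Gr2 hc U) → (∀ i n, q i n ∈ PolyGraph l r Y) →
      (∀ i, ∀ ε > 0, ∃ N, ∀ n ≥ N, n2 τ (V i - (q i n).1) < ε) →
      ∀ ε > 0, ∃ N, ∀ n ≥ N,
        ‖∑ i, tr (((Matrix.of fun i => (q i n).2) * B) i i) - ∑ i, τ (U i * V i)‖ < ε := by
    intro U V W B q hU hB hq hq1 ε hε
    set M : ℝ := ∑ i, ‖U i‖ + 1 with hM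
    have hM0 : 0 < M := by positivity
    choose N hN using fun i => hq1 i (ε / M) (by positivity)
    refine ⟨∑ i, N i, fun n hn => ?_⟩
    have hle : ∀ i, N i ≤ ∑ i, N i := fun i =>
      Finset.single_le_sum (f := N) (fun _ _ => Nat.zero_le _) (Finset.mem_univ i)
    have e1 : ∀ i, tr (((Matrix.of fun i => (q i n).2) * B) i i) = τ (U i * (q i n).1) := by
      intro i
      have h0 : q i n ∈ Gr2 hc Y := span_le_cl (hq i n)
      have h1 : ((q i n).1, (q i n).2) ∈ Gr2 hc Y := h0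
      exact (SD_Gr2 hc hU (Gr2_chain hc hB h1) i).symm
    rw [Finset.sum_congr rfl fun i _ => e1 i, ← Finset.sum_sub_distrib]
    refine (norm_sum_le _ _).trans_lt ?_
    calc ∑ i, ‖τ (U i * (q i n).1) - τ (U i * V i)‖ ≤ ∑ i, ‖U i‖ * (ε / M) := by
          refine Finset.sum_le_sum fun i _ => ?_
          rw [← map_sub, ← mul_sub]
          refine (norm_trace_le hc.trace _).trans ((n2_mul_left hc.trace _ _).trans ?_)
          refine mul_le_mul_of_nonneg_left ?_ (norm_nonneg _)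
          rw [n2_sub_comm]
          exact (hN i n ((hle i).trans hn)).le
      _ = ε / M * (M - 1) := by rw [← Finset.sum_mul, hM]; ring
      _ < ε / M * M := by
          apply mul_lt_mul_of_pos_left _ (by positivity); linarith
      _ = ε := by field_simp
  have sdB := sd (U := X) (V := T) (W := X) hX hB hp (fun i ε hε => by
    obtain ⟨N, hN⟩ := hq1' i ε hε
    exact ⟨N, fun n hn => by rw [hpT]; exact hN n hn⟩)
  have sdA := sd (U := T) (V := X) (W := X) hSDT (B := Matrix.of A') hA hq hq1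
  -- the AM-GM inequality
  have key := matrix_amgm_seq (tr := tr) hc.trace' (A := Matrix.of A') (B := B) hposA.2 hposB.2
    (K := max K₁ K₂) (σ := ∑ i, τ (X i * T i)) (σ' := ∑ i, τ (T i * X i)) (by
      intro ε hε
      choose N hN using fun i j => hinvB' i j ε hε
      obtain ⟨N', hN'⟩ := sdB ε hε
      set n := max (∑ i, ∑ j, N i j) (max N' N₂) with hn
      have hle : ∀ i j, N i j ≤ n := fun i j =>
        ((Finset.single_le_sum (f := fun j => N i j) (fun _ _ => Nat.zero_le _)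
          (Finset.mem_univ j)).trans
        (Finset.single_le_sum (f := fun i => ∑ j, N i j) (fun _ _ => Nat.zero_le _)
          (Finset.mem_univ i))).trans (le_max_left _ _)
      refine ⟨Matrix.of fun i => (p i n).2, fun i j => ?_, fun i j => ?_, ?_⟩
      · rw [hinvA]; exact hN i j n (hle i j)
      · exact (hK₂' n ((le_max_right _ _).trans (le_max_right _ _)) i j).trans (le_max_right _ _)
      · exact hN' n ((le_max_left _ _).trans (le_max_right _ _))) (by
      intro ε hε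
      choose N hN using fun i j => hinvB i j ε hε
      obtain ⟨N', hN'⟩ := sdA ε hε
      set n := max (∑ i, ∑ j, N i j) (max N' N₁) with hn
      have hle : ∀ i j, N i j ≤ n := fun i j =>
        ((Finset.single_le_sum (f := fun j => N i j) (fun _ _ => Nat.zero_le _)
          (Finset.mem_univ j)).trans
        (Finset.single_le_sum (f := fun i => ∑ j, N i j) (fun _ _ => Nat.zero_le _)
          (Finset.mem_univ i))).trans (le_max_left _ _)
      refine ⟨Matrix.of fun i => (q i n).2, fun i j => ?_, fun i j => ?_, ?_⟩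
      · exact hN i j n (hle i j)
      · exact (hK₁ n ((le_max_right _ _).trans (le_max_right _ _)) i j).trans (le_max_left _ _)
      · exact hN' n ((le_max_left _ _).trans (le_max_right _ _)))
  -- conclusion
  have e3 : ∀ {U : ι → A}, SD τ tr l r U → ∀ i, τ (U i * U i) = 1 := by
    intro U hU i
    have := hU i [i]
    simpa [fdq_cons, hc.trace'.one] using this
  have e4 : (∑ i, τ (star (X i - T i) * (X i - T i))).re ≤ 0 := by
    have : ∑ i, τ (star (X i - T i) * (X i - T i)) =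
        2 * (Fintype.card ι : ℂ) - (∑ i, τ (X i * T i) + ∑ i, τ (T i * X i)) := by
      have h0 : (2 : ℂ) * (Fintype.card ι : ℂ) = ∑ _i : ι, (2 : ℂ) := by
        rw [Finset.sum_const, Finset.card_univ, nsmul_eq_mul, mul_comm]
      rw [h0, ← Finset.sum_add_distrib, ← Finset.sum_sub_distrib]
      refine Finset.sum_congr rfl fun i _ => ?_
      rw [star_sub, (hXsa i).star_eq, (hTsa i).star_eq, sub_mul, mul_sub, mul_sub, map_sub,
        map_sub, map_sub, e3 hX i, e3 hSDT i]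
      ring
    rw [this, Complex.sub_re]
    have h1 : ((2 : ℂ) * (Fintype.card ι : ℂ)).re = 2 * (Fintype.card ι : ℝ) := by
      simp
    rw [h1]
    linarith
  have e5 : ∀ i, τ (star (X i - T i) * (X i - T i)) = 0 := by
    have h0 : ∀ i, 0 ≤ τ (star (X i - T i) * (X i - T i)) := fun i => hc.trace.nonneg _
    rw [Complex.re_sum] at e4
    have h1 : ∀ i, 0 ≤ (τ (star (X i - T i) * (X i - T i))).re := fun i =>
      (Complex.nonneg_iff.1 (h0 i)).1
    have h2 := (Finset.sum_eq_zero_iff_of_nonneg (fun i _ => h1 i)).1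
      (le_antisymm e4 (Finset.sum_nonneg fun i _ => h1 i))
    intro i
    exact Complex.ext (h2 i (Finset.mem_univ i)) (Complex.nonneg_iff.1 (h0 i)).2.symm
  have hXT' : ∀ i, T i = X i := fun i =>
    (sub_eq_zero.1 (hc.trace.faithful _ (e5 i))).symm
  have hdiag : ∀ a ∈ PolL hc.trace X, (a, a) ∈ RelL hc.trace Y' Y := by
    refine cl_induction ?_ ?_ ?_ ?_ ?_
    · rintro _ ⟨w, rfl⟩
      have := hTev w
      rwa [show T = X from funext hXT'] at this
    · exact RelL_zero _ _ _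
    · intro x y hx hy
      exact RelL_add _ hx hy
    · intro c x hx
      exact Submodule.smul_mem _ c hx
    · refine fun x hx => lip_mem' (f := fun a : A => (a, a)) (K := 2) (fun x y => rfl)
        (fun z => ?_) x hx
      rw [NP_apply, N2_apply, two_mul]
  funext i
  have h1 := RelL_sub _ (RelL_gen hc.trace Y' Y i) (hdiag _ (Gr2_mem_PolL hc (hB' i)).1)
  exact sub_eq_zero.1 (hn0 h1 (sub_self _))

end coarse

end FreeMono
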