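import Pool.Agent.Lib.MP_eee45d_an.Positivity

open scoped ComplexOrder CStarAlgebra
open MulOpposite

noncomputable section

namespace FreeMono

set_option linter.unusedSectionVars false

section partner

variable {E F : Type*} [NormedAddCommGroup E] [NormedSpace ℂ E] [NormedAddCommGroup F]
  [NormedSpace ℂ F] [CompleteSpace E] [CompleteSpace F]

lemma closed_map_fst (S : Submodule ℂ (E × F)) (hS : IsClosed (S : Set (E × F)))
    (h : ∀ p ∈ S, ‖p.1‖ = ‖p.2‖) : IsClosed ((S.map (LinearMap.fst ℂ E F) : Submodule ℂ E) : Set E) := by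
  have hc : CompleteSpace S := hS.completeSpace_coe
  let f : S →ₗ[ℂ] E := (LinearMap.fst ℂ E F).comp S.subtype
  have hf : ∀ x : S, ‖x‖ ≤ 1 * ‖f x‖ := by
    intro x
    have h1 := h x.1 x.2
    rw [one_mul]
    show ‖x.1‖ ≤ ‖x.1.1‖
    rw [Prod.norm_def, ← h1, max_self]
  have hanti : AntilipschitzWith 1 f := AddMonoidHomClass.antilipschitz_of_bound f (by simpa using hf)
  have hcont : UniformContinuous f := by
    have : Continuous f := continuous_fst.comp continuous_subtype_val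
    exact uniformContinuous_addMonoidHom_of_continuous this
  have := hanti.isClosed_range hcont
  convert this using 1
  ext x
  simp [f]

lemma closed_map_snd (S : Submodule ℂ (E × F)) (hS : IsClosed (S : Set (E × F)))
    (h : ∀ p ∈ S, ‖p.1‖ = ‖p.2‖) : IsClosed ((S.map (LinearMap.snd ℂ E F) : Submodule ℂ F) : Set F) := by
  have hc : CompleteSpace S := hS.completeSpace_coe
  let f : S →ₗ[ℂ] F := (LinearMap.snd ℂ E F).comp S.subtype
  have hf : ∀ x : S, ‖x‖ ≤ 1 * ‖f x‖ := by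
    intro x
    have h1 := h x.1 x.2
    rw [one_mul]
    show ‖x.1‖ ≤ ‖x.1.2‖
    rw [Prod.norm_def, h1, max_self]
  have hanti : AntilipschitzWith 1 f := AddMonoidHomClass.antilipschitz_of_bound f (by simpa using hf)
  have hcont : UniformContinuous f := by
    have : Continuous f := continuous_snd.comp continuous_subtype_val
    exact uniformContinuous_addMonoidHom_of_continuous this
  have := hanti.isClosed_range hcont
  convert this using 1
  ext x
  simp [f]

end partner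

section relpartner

variable {A : Type*} [CStarAlgebra A] {κ : Type*}

lemma Rel_le {κ' : Type*} {P Q : κ' → A} {U V : κ → A} (h : ∀ i, (U i, V i) ∈ Rel P Q) :
    Rel U V ≤ Rel P Q := Pol_le_Pol h

lemma Pol_partner {κ' : Type*} {P Q : κ' → A} (hn : ∀ p ∈ Rel P Q, ‖p.1‖ = ‖p.2‖)
    {U V : κ → A} (h : ∀ i, (U i, V i) ∈ Rel P Q) {b : A} (hb : b ∈ Pol V) :
    ∃ a ∈ Pol U, (a, b) ∈ Rel P Q := by
  have hle := Rel_le h
  have hcl := closed_map_snd (Rel U V) (Rel_closed U V) (fun p hp => hn p (hle hp))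
  have h1 : Pol V ≤ (Rel U V).map (LinearMap.snd ℂ A A) := by
    refine cs_le hcl ?_
    rintro _ ⟨w, rfl⟩
    exact ⟨(ev U w, ev V w), Rel_ev U V w, rfl⟩
  obtain ⟨⟨a, b'⟩, hab, hb'⟩ := h1 hb
  have hb'' : b' = b := hb'
  subst hb''
  refine ⟨a, ?_, hle hab⟩
  refine cs_induction (p := fun p : A × A => p.1 ∈ Pol U) ?_ ?_ ?_ ?_ ?_ (a, b') hab
  · rintro _ ⟨w, rfl⟩
    rw [ev_prod]
    exact Pol_ev U w
  · exact zero_mem _
  · intro x y hx hy
    exact add_mem hx hy
  · intro c x hx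
    exact Submodule.smul_mem _ c hx
  · exact (Pol_closed U).preimage continuous_fst

end relpartner

section coarse

variable {A 𝔐 : Type*} [CStarAlgebra A] [CStarAlgebra 𝔐]
variable {τ : A →L[ℂ] ℂ} {tr : 𝔐 →L[ℂ] ℂ}
variable {l : A →⋆ₐ[ℂ] 𝔐} {r : Aᵐᵒᵖ →⋆ₐ[ℂ] 𝔐}
variable {ι : Type*} [DecidableEq ι] [Fintype ι]

lemma LR_rel {P Q U V : ι → A} (h : ∀ i, (U i, V i) ∈ Rel P Q) (k : ι ⊕ ι) :
    (LR l r U k, LR l r V k) ∈ Rel (LR l r P) (LR l r Q) := by
  rcases k with i | i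
  · exact RelM_l l r (h i)
  · exact RelM_r l r (h i)

lemma Gr_partner {P Q : ι → A} (hn : ∀ p ∈ Rel P Q, ‖p.1‖ = ‖p.2‖)
    (hnM : ∀ p ∈ Rel (LR l r P) (LR l r Q), ‖p.1‖ = ‖p.2‖) {U V : ι → A}
    (h : ∀ i, (U i, V i) ∈ Rel P Q) {a : A} {b : ι → 𝔐} (hab : (a, b) ∈ Gr l r U) :
    ∃ (a' : A) (b' : ι → 𝔐), (a', b') ∈ Gr l r V ∧ (a, a') ∈ Rel P Q ∧
      ∀ j, (b j, b' j) ∈ Rel (LR l r P) (LR l r Q) := by
  set S : Submodule ℂ ((A × (ι → 𝔐)) × (A × (ι → 𝔐))) :=
    cs (Set.range fun w : List ι => ((ev U w, fun j => fdq l r U j w),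
      (ev V w, fun j => fdq l r V j w))) with hSdef
  have h1 : ∀ p ∈ S, p.2 ∈ Gr l r V := by
    refine cs_induction ?_ ?_ ?_ ?_ ?_
    · rintro _ ⟨w, rfl⟩
      exact Gr_ev l r V w
    · exact zero_mem _
    · intro x y hx hy
      exact add_mem hx hy
    · intro c x hx
      exact Submodule.smul_mem _ c hx
    · exact (Gr_closed l r V).preimage continuous_snd
  have h2 : ∀ p ∈ S, (p.1.1, p.2.1) ∈ Rel P Q := by
    refine cs_induction ?_ ?_ ?_ ?_ ?_
    · rintro _ ⟨w, rfl⟩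
      exact Rel_le h (Rel_ev U V w)
    · exact zero_mem _
    · intro x y hx hy
      exact add_mem hx hy
    · intro c x hx
      exact Submodule.smul_mem _ c hx
    · exact (Rel_closed P Q).preimage (by fun_prop)
  have h3 : ∀ j, ∀ p ∈ S, (p.1.2 j, p.2.2 j) ∈ Rel (LR l r P) (LR l r Q) := by
    intro j
    refine cs_induction ?_ ?_ ?_ ?_ ?_
    · rintro _ ⟨w, rfl⟩
      exact RelM_fdq l r h j w
    · exact zero_mem _
    · intro x y hx hy
      exact add_mem hx hy
    · intro c x hx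
      exact Submodule.smul_mem _ c hx
    · exact (Rel_closed _ _).preimage (by fun_prop)
  have h4 : ∀ p ∈ S, ‖p.1‖ = ‖p.2‖ := by
    intro p hp
    have e1 : ‖p.1.1‖ = ‖p.2.1‖ := hn _ (h2 p hp)
    have e2 : ∀ j, ‖p.1.2 j‖ = ‖p.2.2 j‖ := fun j => hnM _ (h3 j p hp)
    have e3 : ‖p.1.2‖ = ‖p.2.2‖ := by
      rw [Pi.norm_def, Pi.norm_def]
      congr 2
      funext j
      exact NNReal.eq (e2 j)
    rw [Prod.norm_def, Prod.norm_def, e1, e3]
  have hcl := closed_map_fst S (cs_closed _) h4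
  have h5 : Gr l r U ≤ S.map (LinearMap.fst ℂ (A × (ι → 𝔐)) (A × (ι → 𝔐))) := by
    rw [Gr_eq]
    refine cs_le hcl ?_
    rintro _ ⟨w, rfl⟩
    exact ⟨_, subset_cs ⟨w, rfl⟩, rfl⟩
  obtain ⟨⟨q, a', b'⟩, hq, hq'⟩ := h5 hab
  have hq'' : q = (a, b) := hq'
  subst hq''
  exact ⟨a', b', h1 _ hq, h2 _ hq, fun j => h3 j _ hq⟩

/-- trace on matrices -/
def Tm (tr : 𝔐 →L[ℂ] ℂ) (M : Matrix ι ι 𝔐) : ℂ := ∑ i, tr (M i i)

lemma Tm_add (M N : Matrix ι ι 𝔐) : Tm tr (M + N) = Tm tr M + Tm tr N := by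
  simp [Tm, Finset.sum_add_distrib]

lemma Tm_sub (M N : Matrix ι ι 𝔐) : Tm tr (M - N) = Tm tr M - Tm tr N := by
  simp [Tm, Finset.sum_sub_distrib]

lemma Tm_comm (htr : IsFaithfulTrace tr) (M N : Matrix ι ι 𝔐) : Tm tr (M * N) = Tm tr (N * M) := by
  simp only [Tm, Matrix.mul_apply, map_sum]
  rw [Finset.sum_comm]
  refine Finset.sum_congr rfl fun i _ => Finset.sum_congr rfl fun j _ => ?_
  rw [htr.comm]

lemma Tm_pos (htr : IsFaithfulTrace tr) (M : Matrix ι ι 𝔐) : 0 ≤ Tm tr (M.conjTranspose * M) := by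
  simp only [Tm, Matrix.mul_apply, map_sum, Matrix.conjTranspose_apply]
  exact Finset.sum_nonneg fun i _ => Finset.sum_nonneg fun j _ => htr.nonneg _

/-- The trace arithmetic-geometric mean inequality. -/
lemma trace_amgm (htr : IsFaithfulTrace tr) {B A' C D s t : Matrix ι ι 𝔐}
    (hB : B.conjTranspose = B) (hA : A'.conjTranspose = A') (hs : B = s.conjTranspose * s)
    (ht : A' = t.conjTranspose * t) (hC : C * B = 1) (hD : D * A' = 1) :
    0 ≤ Tm tr (D * B) + Tm tr (C * A') - 2 * Tm tr (1 : Matrix ι ι 𝔐) := by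
  have inv : ∀ {C B : Matrix ι ι 𝔐}, B.conjTranspose = B → C * B = 1 →
      B * C = 1 ∧ C.conjTranspose = C := by
    intro C B hB hC
    have h1 : B * C.conjTranspose = 1 := by
      have := congrArg Matrix.conjTranspose hC
      rwa [Matrix.conjTranspose_mul, hB, Matrix.conjTranspose_one] at this
    have h2 : C.conjTranspose = C := by
      calc C.conjTranspose = (C * B) * C.conjTranspose := by rw [hC, one_mul]
        _ = C * (B * C.conjTranspose) := by rw [mul_assoc]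
        _ = C := by rw [h1, mul_one]
    exact ⟨by rwa [h2] at h1, h2⟩
  obtain ⟨hBC, hCs⟩ := inv hB hC
  obtain ⟨hAD, hDs⟩ := inv hA hD
  set Δ := B - A' with hΔ
  have hΔs : Δ.conjTranspose = Δ := by rw [hΔ, Matrix.conjTranspose_sub, hB, hA]
  set a := t * D with ha
  set b := s * C with hb
  have haa : a.conjTranspose * a = D := by
    rw [ha, Matrix.conjTranspose_mul, hDs]
    calc D * t.conjTranspose * (t * D) = D * (t.conjTranspose * t) * D := by
          simp only [mul_assoc]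
      _ = D := by rw [← ht, hD, one_mul]
  have hbb : b.conjTranspose * b = C := by
    rw [hb, Matrix.conjTranspose_mul, hCs]
    calc C * s.conjTranspose * (s * C) = C * (s.conjTranspose * s) * C := by
          simp only [mul_assoc]
      _ = C := by rw [← hs, hC, one_mul]
  clear_value a b
  have e1 : D * Δ * C * Δ = D * B + C * A' - 1 - 1 := by
    have : D * Δ * C * Δ = D * B * (C * B) - D * (B * C) * A' - (D * A') * (C * B)
        + (D * A') * C * A' := by
      rw [hΔ]; noncomm_ring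
    rw [this, hC, hBC, mul_one D, hD, mul_one, mul_one, one_mul]
    abel
  have e2 : Tm tr (D * Δ * C * Δ) =
      Tm tr ((a * Δ * b.conjTranspose).conjTranspose * (a * Δ * b.conjTranspose)) := by
    rw [← haa, ← hbb]
    rw [show a.conjTranspose * a * Δ * (b.conjTranspose * b) * Δ =
      (a.conjTranspose * a * Δ * b.conjTranspose) * (b * Δ) by simp only [mul_assoc]]
    rw [Tm_comm htr]
    congr 1
    rw [Matrix.conjTranspose_mul, Matrix.conjTranspose_mul, Matrix.conjTranspose_conjTranspose,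
      hΔs]
    simp only [mul_assoc]
  have e3 : 0 ≤ Tm tr (D * Δ * C * Δ) := by
    rw [e2]; exact Tm_pos htr _
  rw [e1, Tm_sub, Tm_sub, Tm_add] at e3
  have e4 : Tm tr (D * B) + Tm tr (C * A') - 2 * Tm tr (1 : Matrix ι ι 𝔐) =
    Tm tr (D * B) + Tm tr (C * A') - Tm tr (1 : Matrix ι ι 𝔐) - Tm tr (1 : Matrix ι ι 𝔐) := by ring
  rw [e4]; exact e3

theorem unique (hc : IsCoarse τ tr l r) {X Y Y' : ι → A}
    (hXsa : ∀ i, IsSelfAdjoint (X i)) (hYsa : ∀ i, IsSelfAdjoint (Y i))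
    (hY'sa : ∀ i, IsSelfAdjoint (Y' i)) (hX : SD τ tr l r X)
    {B C B' C' : Matrix ι ι 𝔐}
    (hB : ∀ i, (Y i, B i) ∈ Gr l r X) (hC : ∀ i, (X i, C i) ∈ Gr l r Y)
    (hB' : ∀ i, (Y' i, B' i) ∈ Gr l r X) (hC' : ∀ i, (X i, C' i) ∈ Gr l r Y')
    (hwB : ∀ ξ : ι → 𝔐, (∀ i, ξ i ∈ Pol (LR l r X)) →
      0 ≤ ∑ i, ∑ j, tr (star (ξ i) * B i j * ξ j))
    (hwB' : ∀ ξ : ι → 𝔐, (∀ i, ξ i ∈ Pol (LR l r X)) →
      0 ≤ ∑ i, ∑ j, tr (star (ξ i) * B' i j * ξ j))
    (hlaw : ∀ w, τ (ev Y w) = τ (ev Y' w)) : Y = Y' := by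
  have hlaw' : ∀ w, τ (ev Y' w) = τ (ev Y w) := fun w => (hlaw w).symm
  have hlawM : ∀ w, tr (ev (LR l r Y') w) = tr (ev (LR l r Y) w) := by
    intro w
    obtain ⟨u, v, huv⟩ := exists_LR l r hc.comm w
    rw [huv, huv, hc.fact, hc.fact, hlaw', hlaw']
  have hn : ∀ p ∈ Rel Y' Y, ‖p.1‖ = ‖p.2‖ := fun p hp =>
    Rel_norm hc.trace hY'sa hYsa hlaw' hp
  have hnM : ∀ p ∈ Rel (LR l r Y') (LR l r Y), ‖p.1‖ = ‖p.2‖ := fun p hp =>
    Rel_norm hc.trace' (LR_sa l r hY'sa) (LR_sa l r hYsa) hlawM hp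
  have hn0 : ∀ {a b : A}, (a, b) ∈ Rel Y' Y → a = 0 → b = 0 := by
    intro a b hab ha
    have := hn _ hab
    simp only [ha, norm_zero] at this
    exact norm_eq_zero.1 this.symm
  have hnM0 : ∀ {a b : 𝔐}, (a, b) ∈ Rel (LR l r Y') (LR l r Y) → a = 0 → b = 0 := by
    intro a b hab ha
    have := hnM _ hab
    simp only [ha, norm_zero] at this
    exact norm_eq_zero.1 this.symm
  -- the partner of X
  choose T D hTD hXT hCD using fun i =>
    Gr_partner hn hnM (U := Y') (V := Y) (fun i => Rel_gen Y' Y i) (hC' i)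
  have hTsa : ∀ i, IsSelfAdjoint (T i) := by
    intro i
    have h1 := Rel_sub (Rel_star hY'sa hYsa (hXT i)) (hXT i)
    have h2 := hn0 h1 (by rw [(hXsa i).star_eq, sub_self])
    exact sub_eq_zero.1 h2
  have hTev : ∀ w, (ev X w, ev T w) ∈ Rel Y' Y := fun w => Rel_le hXT (Rel_ev X T w)
  have hSDT : SD τ tr l r T := by
    intro j w
    have h1 := Rel_trace hlaw' (Rel_mul (hXT j) (hTev w))
    have h2 := Rel_trace hlawM (RelM_fdq l r hXT j w)
    rw [← h1, ← h2]
    exact hX j w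
  -- the partner of Y' as a function of T is Y
  choose Z A' hZA hYZ hBA using fun i =>
    Gr_partner hn hnM (U := X) (V := T) hXT (hB' i)
  have hZY : ∀ i, Z i = Y i := by
    intro i
    have h1 := Rel_sub (hYZ i) (Rel_gen Y' Y i)
    exact sub_eq_zero.1 (hn0 h1 (sub_self _))
  have hA : ∀ i, (Y i, A' i) ∈ Gr l r T := by
    intro i; rw [← hZY i]; exact hZA i
  -- inverses
  have hinv : ∀ {B C : Matrix ι ι 𝔐} {Y : ι → A}, (∀ i, (Y i, B i) ∈ Gr l r X) →
      (∀ i, (X i, C i) ∈ Gr l r Y) → C * B = 1 := by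
    intro B C Y hB hC
    ext i j
    have h1 := Gr_chain l r hc.comm hB (hC i)
    have h2 := sub_mem h1 (Gr_gen l r X i)
    have h3 : ((X i, fun j => ∑ k, C i k * B k j) - (X i, fun j => if i = j then (1 : 𝔐) else 0) :
        A × (ι → 𝔐)) = (0, fun j => ∑ k, C i k * B k j - (if i = j then (1 : 𝔐) else 0)) := by
      ext <;> simp
    rw [h3] at h2
    have h4 := congrFun (Gr_closable hc hXsa hX h2) j
    simp only [Pi.zero_apply] at h4
    rw [Matrix.mul_apply, sub_eq_zero.1 h4, Matrix.one_apply]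
  have hCB : C * B = 1 := hinv hB hC
  have hCB' : C' * B' = 1 := hinv hB' hC'
  have hDA : (Matrix.of D) * (Matrix.of A') = 1 := by
    ext i j
    have h1 : (∑ k, C' i k * B' k j, ∑ k, D i k * A' k j) ∈ Rel (LR l r Y') (LR l r Y) := by
      have : (∑ k, C' i k * B' k j, ∑ k, D i k * A' k j) =
          ∑ k, (C' i k * B' k j, D i k * A' k j) :=
        Prod.ext (by rw [Prod.fst_sum]) (by rw [Prod.snd_sum])
      rw [this]
      exact sum_mem fun k _ => Rel_mul (hCD i k) (hBA k j)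
    have h2 : ((if i = j then (1 : 𝔐) else 0), (if i = j then (1 : 𝔐) else 0)) ∈
        Rel (LR l r Y') (LR l r Y) := by
      split_ifs
      · exact Rel_one _ _
      · exact Rel_zero _ _
    have h3 := hnM0 (Rel_sub h1 h2) (by
      rw [← Matrix.mul_apply, hCB', Matrix.one_apply, sub_self])
    rw [Matrix.mul_apply, Matrix.one_apply]
    exact sub_eq_zero.1 h3
  -- positivity
  have hposB := matrix_pos hc.trace' (Pol (LR l r X)) (Pol_closed _) (Pol_one _)
    (fun a b ha hb => Pol_mul ha hb) (fun a ha => Pol_star (LR_sa l r hXsa) ha) B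
    (fun i j => (Gr_mem_Pol l r (hB i)).2 j) hwB
  have hwA : ∀ ξ : ι → 𝔐, (∀ i, ξ i ∈ Pol (LR l r T)) →
      0 ≤ ∑ i, ∑ j, tr (star (ξ i) * A' i j * ξ j) := by
    intro ξ hξ
    choose η hη hηξ using fun i => Pol_partner hnM (LR_rel hXT) (hξ i)
    have h1 := hwB' η hη
    convert h1 using 1
    refine Finset.sum_congr rfl fun i _ => Finset.sum_congr rfl fun j _ => ?_
    refine (Rel_trace hlawM ?_).symm
    exact Rel_mul (Rel_mul (Rel_star (LR_sa l r hY'sa) (LR_sa l r hYsa) (hηξ i)) (hBA i j)) (hηξ j)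
  have hposA := matrix_pos hc.trace' (Pol (LR l r T)) (Pol_closed _) (Pol_one _)
    (fun a b ha hb => Pol_mul ha hb) (fun a ha => Pol_star (LR_sa l r hTsa) ha) (Matrix.of A')
    (fun i j => (Gr_mem_Pol l r (hA i)).2 j) hwA
  obtain ⟨hBh, s, hs⟩ := hposB
  obtain ⟨hAh, t, ht⟩ := hposA
  have key := trace_amgm hc.trace' hBh hAh hs ht hCB hDA
  -- Schwinger-Dyson
  have e1 : ∀ i, τ (X i * T i) = tr ((Matrix.of D * B) i i) := by
    intro i
    exact SD_Gr hX (Gr_chain l r hc.comm hB (hTD i)) i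
  have e2 : ∀ i, τ (T i * X i) = tr ((C * Matrix.of A') i i) := by
    intro i
    exact SD_Gr hSDT (Gr_chain l r hc.comm hA (hC i)) i
  have e3 : ∀ {U : ι → A}, SD τ tr l r U → ∀ i, τ (U i * U i) = tr ((1 : Matrix ι ι 𝔐) i i) := by
    intro U hU i
    have := hU i [i]
    simpa [fdq_cons] using this
  have e4 : ∑ i, τ (star (X i - T i) * (X i - T i)) =
      -(Tm tr (Matrix.of D * B) + Tm tr (C * Matrix.of A') - 2 * Tm tr (1 : Matrix ι ι 𝔐)) := by
    unfold Tm
    rw [Finset.mul_sum, ← Finset.sum_add_distrib, ← Finset.sum_sub_distrib,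
      ← Finset.sum_neg_distrib]
    refine Finset.sum_congr rfl fun i _ => ?_
    rw [← e1, ← e2]
    have h1 := e3 hX i
    have h2 := e3 hSDT i
    rw [star_sub, (hXsa i).star_eq, (hTsa i).star_eq, sub_mul, mul_sub, mul_sub, map_sub, map_sub,
      map_sub, h1, h2]
    ring
  have e5 : ∑ i, τ (star (X i - T i) * (X i - T i)) = 0 := by
    refine le_antisymm ?_ (Finset.sum_nonneg fun i _ => hc.trace.nonneg _)
    rw [e4]
    exact neg_nonpos.2 key
  have hXT' : ∀ i, T i = X i := by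
    intro i
    have h1 := (Finset.sum_eq_zero_iff_of_nonneg (fun i _ => hc.trace.nonneg (X i - T i))).1 e5 i
      (Finset.mem_univ i)
    exact (sub_eq_zero.1 (hc.trace.faithful _ h1)).symm
  -- conclusion
  have hdiag : ∀ a ∈ Pol X, (a, a) ∈ Rel Y' Y := by
    refine cs_induction ?_ ?_ ?_ ?_ ?_
    · rintro _ ⟨w, rfl⟩
      have := hTev w
      rwa [show T = X from funext hXT'] at this
    · exact Rel_zero _ _
    · intro x y hx hy
      exact Rel_add hx hy
    · intro c x hx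
      exact Submodule.smul_mem _ c hx
    · exact (Rel_closed _ _).preimage (by fun_prop)
  funext i
  have h1 := Rel_sub (Rel_gen Y' Y i) (hdiag _ (Gr_mem_Pol l r (hB' i)).1)
  exact sub_eq_zero.1 (hn0 h1 (sub_self _))

end coarse

end FreeMono
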