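import Pool.Agent.Lib.MP_eee45d_an.L2Coarse
import Pool.Agent.Lib.MP_eee45d_an.Main

open scoped ComplexOrder CStarAlgebra
open MulOpposite

noncomputable section

namespace FreeMono

set_option linter.unusedSectionVars false

section coarse

variable {A 𝔐 : Type*} [CStarAlgebra A] [CStarAlgebra 𝔐]
variable {τ : A →L[ℂ] ℂ} {tr : 𝔐 →L[ℂ] ℂ}
variable {l : A →⋆ₐ[ℂ] 𝔐} {r : Aᵐᵒᵖ →⋆ₐ[ℂ] 𝔐}
variable {ι : Type*} [DecidableEq ι] [Fintype ι]

lemma Gr2_mem_PolL (hc : IsCoarse τ tr l r) {Z : ι → A} {a : A} {b : ι → 𝔐}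
    (h : (a, b) ∈ Gr2 hc Z) :
    a ∈ PolL hc.trace Z ∧ ∀ j, b j ∈ PolL hc.trace' (LR l r Z) := by
  refine ⟨?_, fun j => ?_⟩
  · refine cl_induction (p := fun p : A × (ι → 𝔐) => p.1 ∈ PolL hc.trace Z) ?_ ?_ ?_ ?_ ?_ (a, b) h
    · rintro _ ⟨w, rfl⟩
      exact PolL_ev _ Z w
    · exact zero_mem _
    · intro x y hx hy
      exact add_mem hx hy
    · intro c x hx
      exact Submodule.smul_mem _ c hx
    · refine fun x hx => lip_mem' (f := fun p : A × (ι → 𝔐) => p.1) (K := 1) (fun x y => rfl)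
        (fun z => ?_) x hx
      rw [one_mul]; exact NG_fst hc z
  · refine cl_induction (p := fun p : A × (ι → 𝔐) => p.2 j ∈ PolL hc.trace' (LR l r Z))
      ?_ ?_ ?_ ?_ ?_ (a, b) h
    · rintro _ ⟨w, rfl⟩
      exact Pol_le_PolL _ _ (fdq_mem l r Z j w)
    · exact zero_mem _
    · intro x y hx hy
      exact add_mem hx hy
    · intro c x hx
      exact Submodule.smul_mem _ c hx
    · refine fun x hx => lip_mem' (f := fun p : A × (ι → 𝔐) => p.2 j) (K := 1) (fun x y => rfl)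
        (fun z => ?_) x hx
      rw [one_mul]; exact NG_snd hc z j

lemma Gr2_closed (hc : IsCoarse τ tr l r) (Z : ι → A) :
    IsClosed (Gr2 hc Z : Set (A × (ι → 𝔐))) := by
  rw [← isSeqClosed_iff_isClosed]
  intro x a hx ha
  refine cl_cl fun ε hε => ?_
  obtain ⟨n, hn⟩ := ((Metric.tendsto_nhds.1 ha) (ε / (Fintype.card ι + 1))
    (by positivity)).exists
  refine ⟨x n, hx n, ?_⟩
  rw [NG_apply]
  rw [dist_comm, dist_eq_norm] at hn
  have h1 := (n2_le_norm hc.trace (a - x n).1).trans (norm_fst_le (a - x n))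
  have h2 : ∀ j, n2 tr ((a - x n).2 j) ≤ ‖a - x n‖ := fun j =>
    (n2_le_norm hc.trace' _).trans ((norm_le_pi_norm _ j).trans (norm_snd_le (a - x n)))
  calc n2 τ (a - x n).1 + ∑ j, n2 tr ((a - x n).2 j) ≤ ‖a - x n‖ + ∑ _j : ι, ‖a - x n‖ :=
        add_le_add h1 (Finset.sum_le_sum fun j _ => h2 j)
    _ = (Fintype.card ι + 1) * ‖a - x n‖ := by
        rw [Finset.sum_const, Finset.card_univ, nsmul_eq_mul]; ring
    _ < (Fintype.card ι + 1) * (ε / (Fintype.card ι + 1)) := by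
        apply mul_lt_mul_of_pos_left hn; positivity
    _ = ε := by field_simp

lemma Gr_le_Gr2 (hc : IsCoarse τ tr l r) (Z : ι → A) : Gr l r Z ≤ Gr2 hc Z := by
  rw [Gr_eq]
  exact cs_le (Gr2_closed hc Z) (by rintro _ ⟨w, rfl⟩; exact Gr2_ev hc Z w)

lemma SD_Gr2 (hc : IsCoarse τ tr l r) {X : ι → A} (hX : SD τ tr l r X) {a : A} {b : ι → 𝔐}
    (h : (a, b) ∈ Gr2 hc X) (j : ι) : τ (X j * a) = tr (b j) := by
  have : τ (X j * a) - tr (b j) = 0 := by
    refine cl_induction (p := fun p : A × (ι → 𝔐) => τ (X j * p.1) - tr (p.2 j) = 0)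
      ?_ ?_ ?_ ?_ ?_ (a, b) h
    · rintro _ ⟨w, rfl⟩
      exact sub_eq_zero.2 (hX j w)
    · simp
    · intro x y hx hy
      rw [sub_eq_zero] at hx hy ⊢
      simp [mul_add, hx, hy]
    · intro c x hx
      rw [sub_eq_zero] at hx ⊢
      simp [hx]
    · refine fun x hx => lip_zero' (g := fun p : A × (ι → 𝔐) => τ (X j * p.1) - tr (p.2 j))
        (K := ‖X j‖ + 1) ?_ ?_ x hx
      · intro x y
        simp only [Prod.fst_sub, Prod.snd_sub, Pi.sub_apply, mul_sub, map_sub]; ring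
      · intro z
        rw [add_mul, one_mul]
        refine (norm_sub_le _ _).trans (add_le_add ?_ ?_)
        · refine (norm_trace_le hc.trace _).trans ((n2_mul_left hc.trace _ _).trans ?_)
          exact mul_le_mul_of_nonneg_left (NG_fst hc z) (norm_nonneg _)
        · exact (norm_trace_le hc.trace' _).trans (NG_snd hc z j)
  exact sub_eq_zero.1 this

lemma SD_formula2 (hc : IsCoarse τ tr l r) {X : ι → A} (hX : SD τ tr l r X) {a : A} {b : ι → 𝔐}
    (h : (a, b) ∈ Gr2 hc X) (j : ι) (u v : List ι) :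
    tr (l (ev X u) * r (op (ev X v)) * b j) = τ (X j * (ev X u * a * ev X v))
      - tr (l (ev X u * a) * fdq l r X j v) - tr (r (op (a * ev X v)) * fdq l r X j u) := by
  have h1 := Gr2_mul hc (Gr2_mul hc (Gr2_ev hc X u) h) (Gr2_ev hc X v)
  have h2 := SD_Gr2 hc hX h1 j
  rw [h2]
  simp only [mul_add, map_add, ← mul_assoc, hc.comm, op_mul, map_mul]
  ring

lemma L2_bound2 (hc : IsCoarse τ tr l r) {X : ι → A} (hX : SD τ tr l r X) {η : 𝔐}
    (hη : η ∈ Alg (LR l r X)) : ∃ K : ℝ, 0 ≤ K ∧ ∀ (a : A) (b : ι → 𝔐), (a, b) ∈ Gr2 hc X →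
      ∀ j, ‖tr (η * b j)‖ ≤ K * n2 τ a := by
  refine Submodule.span_induction (p := fun η _ => ∃ K : ℝ, 0 ≤ K ∧ ∀ (a : A) (b : ι → 𝔐),
    (a, b) ∈ Gr2 hc X → ∀ j, ‖tr (η * b j)‖ ≤ K * n2 τ a) ?_ ?_ ?_ ?_ hη
  · rintro _ ⟨w, rfl⟩
    obtain ⟨u, v, huv⟩ := exists_LR l r hc.comm w
    rw [huv]
    refine ⟨∑ j, (n2 τ (star (ev X v * X j * ev X u)) +
      n2 tr (star (fdq l r X j v * l (ev X u))) +
      n2 tr (star (fdq l r X j u * r (op (ev X v))))),
      Finset.sum_nonneg fun j _ => add_nonneg (add_nonneg (n2_nonneg _ _) (n2_nonneg _ _))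
        (n2_nonneg _ _), fun a b hab j => ?_⟩
    have h0 : (n2 τ (star (ev X v * X j * ev X u)) +
      n2 tr (star (fdq l r X j v * l (ev X u))) +
      n2 tr (star (fdq l r X j u * r (op (ev X v))))) ≤ ∑ j, (n2 τ (star (ev X v * X j * ev X u)) +
      n2 tr (star (fdq l r X j v * l (ev X u))) +
      n2 tr (star (fdq l r X j u * r (op (ev X v))))) :=
      Finset.single_le_sum (f := fun j => (n2 τ (star (ev X v * X j * ev X u)) +
      n2 tr (star (fdq l r X j v * l (ev X u))) +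
      n2 tr (star (fdq l r X j u * r (op (ev X v)))))) (fun j _ =>
        add_nonneg (add_nonneg (n2_nonneg _ _) (n2_nonneg _ _)) (n2_nonneg _ _))
        (Finset.mem_univ j)
    refine le_trans ?_ (mul_le_mul_of_nonneg_right h0 (n2_nonneg τ a))
    rw [SD_formula2 hc hX hab]
    have e1 : τ (X j * (ev X u * a * ev X v)) = τ ((ev X v * X j * ev X u) * a) := by
      rw [← mul_assoc, ← mul_assoc, hc.trace.comm _ (ev X v)]
      simp only [mul_assoc]
    have e2 : tr (l (ev X u * a) * fdq l r X j v) = tr ((fdq l r X j v * l (ev X u)) * l a) := by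
      rw [hc.trace'.comm, map_mul l, mul_assoc]
    have e3 : tr (r (op (a * ev X v)) * fdq l r X j u) =
        tr ((fdq l r X j u * r (op (ev X v))) * r (op a)) := by
      rw [hc.trace'.comm, op_mul, map_mul r, mul_assoc]
    rw [e1, e2, e3]
    have f1 := cauchy_schwarz' hc.trace.nonneg (ev X v * X j * ev X u) a
    have f2 := cauchy_schwarz' hc.trace'.nonneg (fdq l r X j v * l (ev X u)) (l a)
    have f3 := cauchy_schwarz' hc.trace'.nonneg (fdq l r X j u * r (op (ev X v))) (r (op a))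
    rw [hc.n2_l] at f2
    rw [hc.n2_r] at f3
    refine (norm_sub_le _ _).trans ((add_le_add (norm_sub_le _ _) le_rfl).trans ?_)
    rw [add_mul, add_mul]
    exact add_le_add (add_le_add f1 f2) f3
  · exact ⟨0, le_rfl, fun a b _ j => by simp⟩
  · rintro x y _ _ ⟨K, hK, hx⟩ ⟨K', hK', hy⟩
    refine ⟨K + K', add_nonneg hK hK', fun a b hab j => ?_⟩
    rw [add_mul, map_add, add_mul]
    exact (norm_add_le _ _).trans (add_le_add (hx a b hab j) (hy a b hab j))
  · rintro c x _ ⟨K, hK, hx⟩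
    refine ⟨‖c‖ * K, by positivity, fun a b hab j => ?_⟩
    rw [smul_mul_assoc, map_smul, norm_smul, mul_assoc]
    exact mul_le_mul_of_nonneg_left (hx a b hab j) (norm_nonneg c)

/-- closability -/
lemma Gr2_closable (hc : IsCoarse τ tr l r) {X : ι → A} (hXsa : ∀ i, IsSelfAdjoint (X i))
    (hX : SD τ tr l r X) {b : ι → 𝔐} (h : ((0 : A), b) ∈ Gr2 hc X) : b = 0 := by
  funext j
  have h1 : ∀ η ∈ PolL hc.trace' (LR l r X), tr (η * b j) = 0 := by
    refine cl_induction (p := fun η => tr (η * b j) = 0) ?_ ?_ ?_ ?_ ?_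
    · rintro _ ⟨w, rfl⟩
      obtain ⟨u, v, huv⟩ := exists_LR l r hc.comm w
      rw [huv, SD_formula2 hc hX h]
      simp
    · simp
    · intro x y hx hy
      simp [add_mul, hx, hy]
    · intro c x hx
      simp [hx]
    · refine fun x hx => lip_zero' (g := fun η => tr (η * b j)) (K := ‖b j‖) ?_ ?_ x hx
      · intro x y; simp [sub_mul]
      · intro z
        refine (norm_trace_le hc.trace' _).trans ((n2_mul_right hc.trace' _ _).trans ?_)
        rw [mul_comm]; rfl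
  have h2 : b j ∈ PolL hc.trace' (LR l r X) := (Gr2_mem_PolL hc h).2 j
  exact hc.trace'.faithful _ (h1 _ (PolL_star hc.trace' (LR_sa l r hXsa) h2))

lemma weak_pos2 (hc : IsCoarse τ tr l r) {X : ι → A} (hXsa : ∀ i, IsSelfAdjoint (X i))
    (hX : SD τ tr l r X) {Y : ι → A} {B : ι → ι → 𝔐} (hB : ∀ i, (Y i, B i) ∈ Gr2 hc X)
    (happ : ∀ ε > (0 : ℝ), ∃ (Z : ι → A) (J s : Matrix ι ι 𝔐), (∀ i, (Z i, J i) ∈ Gr2 hc X) ∧
      J = s.conjTranspose * s ∧ ∑ i, (τ (star (Y i - Z i) * (Y i - Z i))).re < ε)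
    (ξ : ι → 𝔐) (hξ : ∀ i, ξ i ∈ PolL hc.trace' (LR l r X)) :
    0 ≤ ∑ i, ∑ j, tr (star (ξ i) * B i j * ξ j) := by
  -- a complex number within every positive distance of nonnegative numbers is nonnegative
  have hlim : ∀ Q : ℂ, (∀ δ > (0 : ℝ), ∃ z : ℂ, 0 ≤ z ∧ ‖Q - z‖ ≤ δ) → 0 ≤ Q := by
    intro Q hbound'
    rw [Complex.nonneg_iff]
    constructor
    · by_contra hneg
      push Not at hneg
      obtain ⟨z, hz, hle⟩ := hbound' (-Q.re / 2) (by linarith)
      have h1 := (Complex.abs_re_le_norm (Q - z)).trans hle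
      rw [Complex.sub_re, abs_le] at h1
      have h2 := (Complex.nonneg_iff.1 hz).1
      linarith [h1.1]
    · by_contra hne
      have hne' : Q.im ≠ 0 := fun h => hne h.symm
      obtain ⟨z, hz, hle⟩ := hbound' (|Q.im| / 2) (by positivity)
      have h1 := (Complex.abs_im_le_norm (Q - z)).trans hle
      rw [Complex.sub_im, ← (Complex.nonneg_iff.1 hz).2, sub_zero] at h1
      have h2 : 0 < |Q.im| := abs_pos.2 hne'
      linarith
  -- algebraic vectors first
  have halg : ∀ ξ : ι → 𝔐, (∀ i, ξ i ∈ Alg (LR l r X)) →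
      0 ≤ ∑ i, ∑ j, tr (star (ξ i) * B i j * ξ j) := by
    intro ξ hξ
    choose K hK0 hK using fun i j => L2_bound2 hc hX
      (Alg_mul (hξ j) (Alg_star (LR_sa l r hXsa) (hξ i)))
    set Q := ∑ i, ∑ j, tr (star (ξ i) * B i j * ξ j) with hQ
    have hbound : ∀ ε > (0 : ℝ), ∃ z : ℂ, 0 ≤ z ∧ ‖Q - z‖ ≤ (∑ i, ∑ j, K i j) * Real.sqrt ε := by
      intro ε hε
      obtain ⟨Z, J, s, hZ, hJ, hlt⟩ := happ ε hε
      refine ⟨∑ i, ∑ j, tr (star (ξ i) * J i j * ξ j), ?_, ?_⟩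
      · rw [hJ]; exact sum_trace_pos hc.trace' s ξ
      · rw [hQ, ← Finset.sum_sub_distrib, Finset.sum_mul]
        refine (norm_sum_le _ _).trans (Finset.sum_le_sum fun i _ => ?_)
        rw [← Finset.sum_sub_distrib, Finset.sum_mul]
        refine (norm_sum_le _ _).trans (Finset.sum_le_sum fun j _ => ?_)
        have h1 : tr (star (ξ i) * B i j * ξ j) - tr (star (ξ i) * J i j * ξ j) =
            tr (ξ j * star (ξ i) * (B i - J i) j) := by
          rw [← map_sub, Pi.sub_apply, mul_assoc (ξ j), hc.trace'.comm (ξ j)]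
          congr 1
          simp only [mul_sub, sub_mul]
        rw [h1]
        have h2 : (Y i - Z i, B i - J i) ∈ Gr2 hc X := sub_mem (hB i) (hZ i)
        refine (hK i j _ _ h2 j).trans ?_
        refine mul_le_mul_of_nonneg_left ?_ (hK0 i j)
        unfold n2
        refine Real.sqrt_le_sqrt (le_trans ?_ hlt.le)
        exact Finset.single_le_sum (f := fun i => (τ (star (Y i - Z i) * (Y i - Z i))).re)
          (fun i _ => (Complex.nonneg_iff.1 (hc.trace.nonneg _)).1) (Finset.mem_univ i)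
    set C := ∑ i, ∑ j, K i j with hC
    have hC0 : 0 ≤ C := Finset.sum_nonneg fun i _ => Finset.sum_nonneg fun j _ => hK0 i j
    refine hlim Q fun δ hδ => ?_
    obtain ⟨z, hz, hle⟩ := hbound ((δ / (C + 1)) ^ 2) (by positivity)
    refine ⟨z, hz, hle.trans ?_⟩
    rw [Real.sqrt_sq (by positivity), mul_div_assoc']
    rw [div_le_iff₀ (by positivity)]
    nlinarith
  -- extension to the closure
  set Q := ∑ i, ∑ j, tr (star (ξ i) * B i j * ξ j) with hQ
  set C := ∑ i, ∑ j, (‖B i j‖ * n2 tr (ξ j) + (n2 tr (ξ i) + 1) * ‖B i j‖) with hC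
  have hC0 : 0 ≤ C := Finset.sum_nonneg fun i _ => Finset.sum_nonneg fun j _ => by
    have h1 := n2_nonneg tr (ξ i)
    have h2 := n2_nonneg tr (ξ j)
    positivity
  refine hlim Q fun δ hδ => ?_
  set δ' := min 1 (δ / (C + 1)) with hδ'
  have hδ'0 : 0 < δ' := lt_min one_pos (by positivity)
  choose η hη hηξ using fun i => (mem_cl.1 (hξ i)) δ' hδ'0
  refine ⟨∑ i, ∑ j, tr (star (η i) * B i j * η j), halg η hη, ?_⟩
  have hkey : ‖Q - ∑ i, ∑ j, tr (star (η i) * B i j * η j)‖ ≤ C * δ' := by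
    rw [hQ, ← Finset.sum_sub_distrib, hC, Finset.sum_mul]
    refine (norm_sum_le _ _).trans (Finset.sum_le_sum fun i _ => ?_)
    rw [← Finset.sum_sub_distrib, Finset.sum_mul]
    refine (norm_sum_le _ _).trans (Finset.sum_le_sum fun j _ => ?_)
    have e : tr (star (ξ i) * B i j * ξ j) - tr (star (η i) * B i j * η j) =
        tr (star (ξ i - η i) * (B i j * ξ j)) + tr (star (η i) * (B i j * (ξ j - η j))) := by
      rw [← map_sub, ← map_add]
      congr 1
      rw [star_sub]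
      noncomm_ring
    rw [e]
    have g1 : n2 tr (ξ i - η i) ≤ δ' := (hηξ i).le
    have g2 : n2 tr (ξ j - η j) ≤ δ' := (hηξ j).le
    have g3 : n2 tr (η i) ≤ n2 tr (ξ i) + 1 := by
      have h1 := n2_add_le hc.trace' (ξ i) (η i - ξ i)
      rw [add_sub_cancel, n2_sub_comm] at h1
      have h2 : δ' ≤ 1 := min_le_left _ _
      linarith
    have f1 := cauchy_schwarz (φ := tr) hc.trace'.nonneg (ξ i - η i) (B i j * ξ j)
    have f2 := cauchy_schwarz (φ := tr) hc.trace'.nonneg (η i) (B i j * (ξ j - η j))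
    have f3 := n2_mul_left hc.trace' (B i j) (ξ j)
    have f4 := n2_mul_left hc.trace' (B i j) (ξ j - η j)
    have p1 := n2_nonneg tr (ξ i - η i)
    have p2 := n2_nonneg tr (ξ j - η j)
    have p3 := n2_nonneg tr (η i)
    have p4 := n2_nonneg tr (ξ j)
    have p5 := n2_nonneg tr (ξ i)
    have p6 := n2_nonneg tr (B i j * ξ j)
    have p7 := n2_nonneg tr (B i j * (ξ j - η j))
    refine (norm_add_le _ _).trans ?_
    rw [add_mul]
    refine add_le_add (f1.trans ?_) (f2.trans ?_)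
    · calc n2 tr (ξ i - η i) * n2 tr (B i j * ξ j) ≤ δ' * (‖B i j‖ * n2 tr (ξ j)) := by
            gcongr
        _ = ‖B i j‖ * n2 tr (ξ j) * δ' := by ring
    · calc n2 tr (η i) * n2 tr (B i j * (ξ j - η j)) ≤
          (n2 tr (ξ i) + 1) * (‖B i j‖ * δ') := by
            refine mul_le_mul g3 (f4.trans ?_) p7 (by positivity)
            exact mul_le_mul_of_nonneg_left g2 (norm_nonneg _)
        _ = (n2 tr (ξ i) + 1) * ‖B i j‖ * δ' := by ring
  refine hkey.trans ?_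
  have h3 : δ' ≤ δ / (C + 1) := min_le_right _ _
  calc C * δ' ≤ C * (δ / (C + 1)) := mul_le_mul_of_nonneg_left h3 hC0
    _ ≤ δ := by
      rw [mul_div_assoc', div_le_iff₀ (by positivity)]
      nlinarith

/-! ### partners -/

lemma RelL_smul {τ : A →L[ℂ] ℂ} (h : IsFaithfulTrace τ) {κ : Type*} {U V : κ → A} (c : ℂ)
    {a b : A} (hab : (a, b) ∈ RelL h U V) : (c • a, c • b) ∈ RelL h U V :=
  Submodule.smul_mem _ c hab

lemma RelL_swap {τ : A →L[ℂ] ℂ} (h : IsFaithfulTrace τ) {κ : Type*} {U V : κ → A} {a b : A}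
    (hab : (a, b) ∈ RelL h U V) : (b, a) ∈ RelL h V U := by
  refine cl_induction (p := fun p : A × A => (p.2, p.1) ∈ RelL h V U) ?_ ?_ ?_ ?_ ?_ (a, b) hab
  · rintro _ ⟨w, rfl⟩
    exact RelL_ev h V U w
  · exact zero_mem _
  · intro x y hx hy
    exact add_mem hx hy
  · intro c x hx
    exact Submodule.smul_mem _ c hx
  · refine fun x hx => lip_mem' (f := fun p : A × A => (p.2, p.1)) (K := 1) (fun x y => rfl)
      (fun z => ?_) x hx
    rw [NP_apply, NP_apply, one_mul, add_comm]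

lemma RelL_fst {τ : A →L[ℂ] ℂ} (h : IsFaithfulTrace τ) {κ : Type*} {U V : κ → A} {a b : A}
    (hab : (a, b) ∈ RelL h U V) : a ∈ PolL h U := by
  refine cl_induction (p := fun p : A × A => p.1 ∈ PolL h U) ?_ ?_ ?_ ?_ ?_ (a, b) hab
  · rintro _ ⟨w, rfl⟩
    exact PolL_ev h U w
  · exact zero_mem _
  · intro x y hx hy
    exact add_mem hx hy
  · intro c x hx
    exact Submodule.smul_mem _ c hx
  · refine fun x hx => lip_mem' (f := fun p : A × A => p.1) (K := 1) (fun x y => rfl)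
      (fun z => ?_) x hx
    rw [NP_apply, one_mul]
    exact le_add_of_nonneg_right (n2_nonneg _ _)

lemma PolL_partner {τ : A →L[ℂ] ℂ} (h : IsFaithfulTrace τ) (hcomp : BallComplete τ) {κ : Type*}
    {U V : κ → A} (hU : ∀ i, IsSelfAdjoint (U i)) (hV : ∀ i, IsSelfAdjoint (V i))
    (hUV : ∀ w, τ (ev U w) = τ (ev V w)) {b : A} (hb : b ∈ PolL h V) :
    ∃ a ∈ PolL h U, (a, b) ∈ RelL h U V := by
  obtain ⟨a, ha⟩ := partner_exists h hcomp hV hU (fun w => (hUV w).symm) hb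
  have := RelL_swap h ha
  exact ⟨a, RelL_fst h this, this⟩

lemma Gr2_partner (hc : IsCoarse τ tr l r) (hcomp : BallComplete τ) (hcomp' : BallComplete tr)
    {P Q : ι → A} (hP : ∀ i, IsSelfAdjoint (P i)) (hQ : ∀ i, IsSelfAdjoint (Q i))
    (hPQ : ∀ w, τ (ev P w) = τ (ev Q w))
    (hPQM : ∀ w, tr (ev (LR l r P) w) = tr (ev (LR l r Q) w)) {U V : ι → A}
    (hU : ∀ i, IsSelfAdjoint (U i)) (hV : ∀ i, IsSelfAdjoint (V i))
    (h : ∀ i, (U i, V i) ∈ RelL hc.trace P Q) {a : A} {b : ι → 𝔐} (hab : (a, b) ∈ Gr2 hc U) :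
    ∃ (a' : A) (b' : ι → 𝔐), (a', b') ∈ Gr2 hc V ∧ (a, a') ∈ RelL hc.trace P Q ∧
      ∀ j, (b j, b' j) ∈ RelL hc.trace' (LR l r P) (LR l r Q) := by
  have hM := LRL_rel hc h
  have hle := RelL_le hc.trace h
  have hleM := RelL_le hc.trace' hM
  have hUV : ∀ w, τ (ev U w) = τ (ev V w) := fun w =>
    RelL_trace hc.trace hPQ (hle (RelL_ev _ U V w))
  have hUVM : ∀ w, tr (ev (LR l r U) w) = tr (ev (LR l r V) w) := fun w =>
    RelL_trace hc.trace' hPQM (hleM (RelL_ev _ (LR l r U) (LR l r V) w))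
  obtain ⟨ha, hb⟩ := Gr2_mem_PolL hc hab
  obtain ⟨a', ha'⟩ := partner_exists hc.trace hcomp hU hV hUV ha
  choose b' hb' using fun j => partner_exists hc.trace' hcomp' (LR_sa l r hU) (LR_sa l r hV) hUVM
    (hb j)
  refine ⟨a', b', ?_, hle ha', fun j => hleM (hb' j)⟩
  intro ε hε
  obtain ⟨q, hq, hlt⟩ := hab ε hε
  have hpair : ∃ q' ∈ Submodule.span ℂ (Set.range fun w : List ι => (ev V w,
      fun j => fdq l r V j w)), (q.1, q'.1) ∈ RelL hc.trace P Q ∧
      ∀ j, (q.2 j, q'.2 j) ∈ RelL hc.trace' (LR l r P) (LR l r Q) := by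
    refine Submodule.span_induction (p := fun q _ => ∃ q' ∈ Submodule.span ℂ
      (Set.range fun w : List ι => (ev V w, fun j => fdq l r V j w)),
      (q.1, q'.1) ∈ RelL hc.trace P Q ∧
      ∀ j, (q.2 j, q'.2 j) ∈ RelL hc.trace' (LR l r P) (LR l r Q)) ?_ ?_ ?_ ?_ hq
    · rintro _ ⟨w, rfl⟩
      have k1 : (ev U w, ev V w) ∈ RelL hc.trace P Q := hle (RelL_ev hc.trace U V w)
      have k2 := fun j => RelLM_fdq hc h j w
      have k3 : (ev V w, fun j => fdq l r V j w) ∈ Submodule.span ℂ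
        (Set.range fun w : List ι => (ev V w, fun j => fdq l r V j w)) :=
        Submodule.subset_span ⟨w, rfl⟩
      exact ⟨(ev V w, fun j => fdq l r V j w), k3, k1, k2⟩
    · have k1 : (((0 : A × (ι → 𝔐)).1 : A), ((0 : A × (ι → 𝔐)).1 : A)) ∈ RelL hc.trace P Q :=
        RelL_zero hc.trace P Q
      have k2 : ∀ j, (((0 : A × (ι → 𝔐)).2 j : 𝔐), ((0 : A × (ι → 𝔐)).2 j : 𝔐)) ∈
          RelL hc.trace' (LR l r P) (LR l r Q) := fun j => RelL_zero hc.trace' _ _
      exact ⟨0, zero_mem _, k1, k2⟩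
    · rintro x y _ _ ⟨x', hx', hx1, hx2⟩ ⟨y', hy', hy1, hy2⟩
      have k1 := RelL_add hc.trace hx1 hy1
      have k2 := fun j => RelL_add hc.trace' (hx2 j) (hy2 j)
      exact ⟨x' + y', add_mem hx' hy', k1, k2⟩
    · rintro c x _ ⟨x', hx', hx1, hx2⟩
      have k1 := RelL_smul hc.trace c hx1
      have k2 := fun j => RelL_smul hc.trace' c (hx2 j)
      exact ⟨c • x', Submodule.smul_mem _ c hx', k1, k2⟩
  obtain ⟨q', hq', h1, h2⟩ := hpair
  refine ⟨q', hq', lt_of_eq_of_lt ?_ hlt⟩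
  rw [NG_apply, NG_apply]
  simp only [Prod.fst_sub, Prod.snd_sub, Pi.sub_apply]
  rw [RelL_n2 hc.trace hP hQ hPQ (RelL_sub _ (hle ha') h1)]
  congr 1
  refine Finset.sum_congr rfl fun j _ => ?_
  rw [RelL_n2 hc.trace' (LR_sa l r hP) (LR_sa l r hQ) hPQM (RelL_sub _ (hleM (hb' j)) (h2 j))]

theorem unique2 (hc : IsCoarse τ tr l r) (hcomp : BallComplete τ) (hcomp' : BallComplete tr)
    {X Y Y' : ι → A}
    (hXsa : ∀ i, IsSelfAdjoint (X i)) (hYsa : ∀ i, IsSelfAdjoint (Y i))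
    (hY'sa : ∀ i, IsSelfAdjoint (Y' i)) (hX : SD τ tr l r X)
    {B C B' C' : Matrix ι ι 𝔐}
    (hB : ∀ i, (Y i, B i) ∈ Gr2 hc X) (hC : ∀ i, (X i, C i) ∈ Gr2 hc Y)
    (hB' : ∀ i, (Y' i, B' i) ∈ Gr2 hc X) (hC' : ∀ i, (X i, C' i) ∈ Gr2 hc Y')
    (hwB : ∀ ξ : ι → 𝔐, (∀ i, ξ i ∈ PolL hc.trace' (LR l r X)) →
      0 ≤ ∑ i, ∑ j, tr (star (ξ i) * B i j * ξ j))
    (hwB' : ∀ ξ : ι → 𝔐, (∀ i, ξ i ∈ PolL hc.trace' (LR l r X)) →
      0 ≤ ∑ i, ∑ j, tr (star (ξ i) * B' i j * ξ j))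
    (hlaw : ∀ w, τ (ev Y w) = τ (ev Y' w)) : Y = Y' := by
  have hlaw' : ∀ w, τ (ev Y' w) = τ (ev Y w) := fun w => (hlaw w).symm
  have hlawM : ∀ w, tr (ev (LR l r Y') w) = tr (ev (LR l r Y) w) := by
    intro w
    obtain ⟨u, v, huv⟩ := exists_LR l r hc.comm w
    rw [huv, huv, hc.fact, hc.fact, hlaw', hlaw']
  have hn0 : ∀ {a b : A}, (a, b) ∈ RelL hc.trace Y' Y → a = 0 → b = 0 := by
    intro a b hab ha
    have := RelL_norm hc.trace hY'sa hYsa hlaw' hab
    rw [ha, norm_zero] at this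
    exact norm_eq_zero.1 this.symm
  have hnM0 : ∀ {a b : 𝔐}, (a, b) ∈ RelL hc.trace' (LR l r Y') (LR l r Y) → a = 0 → b = 0 := by
    intro a b hab ha
    have := RelL_norm hc.trace' (LR_sa l r hY'sa) (LR_sa l r hYsa) hlawM hab
    rw [ha, norm_zero] at this
    exact norm_eq_zero.1 this.symm
  -- the partner of X
  choose T D hTD hXT hCD using fun i =>
    Gr2_partner hc hcomp hcomp' hY'sa hYsa hlaw' hlawM hY'sa hYsa (U := Y') (V := Y)
      (fun i => RelL_gen hc.trace Y' Y i) (hC' i)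
  have hTsa : ∀ i, IsSelfAdjoint (T i) := by
    intro i
    have h1 := RelL_sub _ (RelL_star _ hY'sa hYsa (hXT i)) (hXT i)
    have h2 := hn0 h1 (by rw [(hXsa i).star_eq, sub_self])
    exact sub_eq_zero.1 h2
  have hTev : ∀ w, (ev X w, ev T w) ∈ RelL hc.trace Y' Y := fun w =>
    RelL_le _ hXT (RelL_ev _ X T w)
  have hSDT : SD τ tr l r T := by
    intro j w
    have h1 := RelL_trace _ hlaw' (RelL_mul _ (hXT j) (hTev w))
    have h2 := RelL_trace _ hlawM (RelLM_fdq hc hXT j w)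
    rw [← h1, ← h2]
    exact hX j w
  -- the partner of Y' as a function of T is Y
  choose Z A' hZA hYZ hBA using fun i =>
    Gr2_partner hc hcomp hcomp' hY'sa hYsa hlaw' hlawM hXsa hTsa (U := X) (V := T) hXT (hB' i)
  have hZY : ∀ i, Z i = Y i := by
    intro i
    have h1 := RelL_sub _ (hYZ i) (RelL_gen hc.trace Y' Y i)
    exact sub_eq_zero.1 (hn0 h1 (sub_self _))
  have hA : ∀ i, (Y i, A' i) ∈ Gr2 hc T := by
    intro i; rw [← hZY i]; exact hZA i
  -- inverses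
  have hinv : ∀ {B C : Matrix ι ι 𝔐} {Y : ι → A}, (∀ i, (Y i, B i) ∈ Gr2 hc X) →
      (∀ i, (X i, C i) ∈ Gr2 hc Y) → C * B = 1 := by
    intro B C Y hB hC
    ext i j
    have h1 := Gr2_chain hc hB (hC i)
    have h2 := sub_mem h1 (Gr2_gen hc X i)
    have h3 : ((X i, fun j => ∑ k, C i k * B k j) - (X i, fun j => if i = j then (1 : 𝔐) else 0) :
        A × (ι → 𝔐)) = (0, fun j => ∑ k, C i k * B k j - (if i = j then (1 : 𝔐) else 0)) := by
      ext <;> simp
    rw [h3] at h2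
    have h4 := congrFun (Gr2_closable hc hXsa hX h2) j
    simp only [Pi.zero_apply] at h4
    rw [Matrix.mul_apply, sub_eq_zero.1 h4, Matrix.one_apply]
  have hCB : C * B = 1 := hinv hB hC
  have hCB' : C' * B' = 1 := hinv hB' hC'
  have hDA : (Matrix.of D) * (Matrix.of A') = 1 := by
    ext i j
    have h1 : (∑ k, C' i k * B' k j, ∑ k, D i k * A' k j) ∈
        RelL hc.trace' (LR l r Y') (LR l r Y) := by
      have : (∑ k, C' i k * B' k j, ∑ k, D i k * A' k j) =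
          ∑ k, (C' i k * B' k j, D i k * A' k j) :=
        Prod.ext (by rw [Prod.fst_sum]) (by rw [Prod.snd_sum])
      rw [this]
      exact sum_mem fun k _ => RelL_mul _ (hCD i k) (hBA k j)
    have h2 : ((if i = j then (1 : 𝔐) else 0), (if i = j then (1 : 𝔐) else 0)) ∈
        RelL hc.trace' (LR l r Y') (LR l r Y) := by
      split_ifs
      · exact RelL_one _ _ _
      · exact RelL_zero _ _ _
    have h3 := hnM0 (RelL_sub _ h1 h2) (by
      rw [← Matrix.mul_apply, hCB', Matrix.one_apply, sub_self])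
    rw [Matrix.mul_apply, Matrix.one_apply]
    exact sub_eq_zero.1 h3
  -- positivity
  have hposB := matrix_pos hc.trace' (PolL hc.trace' (LR l r X)) (PolL_closed _ _) (PolL_one _ _)
    (fun a b ha hb => PolL_mul _ ha hb) (fun a ha => PolL_star _ (LR_sa l r hXsa) ha) B
    (fun i j => (Gr2_mem_PolL hc (hB i)).2 j) hwB
  have hXTev : ∀ w, τ (ev X w) = τ (ev T w) := fun w => RelL_trace _ hlaw' (hTev w)
  have hXTevM : ∀ w, tr (ev (LR l r X) w) = tr (ev (LR l r T) w) := fun w =>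
    RelL_trace _ hlawM (RelL_le _ (LRL_rel hc hXT) (RelL_ev _ (LR l r X) (LR l r T) w))
  have hwA : ∀ ξ : ι → 𝔐, (∀ i, ξ i ∈ PolL hc.trace' (LR l r T)) →
      0 ≤ ∑ i, ∑ j, tr (star (ξ i) * A' i j * ξ j) := by
    intro ξ hξ
    choose η hη hηξ using fun i => PolL_partner hc.trace' hcomp' (LR_sa l r hXsa) (LR_sa l r hTsa)
      hXTevM (hξ i)
    have hηξ' : ∀ i, (η i, ξ i) ∈ RelL hc.trace' (LR l r Y') (LR l r Y) := fun i =>
      RelL_le _ (LRL_rel hc hXT) (hηξ i)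
    have h1 := hwB' η hη
    convert h1 using 1
    refine Finset.sum_congr rfl fun i _ => Finset.sum_congr rfl fun j _ => ?_
    refine (RelL_trace hc.trace' hlawM ?_).symm
    exact RelL_mul hc.trace' (RelL_mul hc.trace' (RelL_star hc.trace' (LR_sa l r hY'sa)
      (LR_sa l r hYsa) (hηξ' i)) (hBA i j)) (hηξ' j)
  have hposA := matrix_pos hc.trace' (PolL hc.trace' (LR l r T)) (PolL_closed _ _) (PolL_one _ _)
    (fun a b ha hb => PolL_mul _ ha hb) (fun a ha => PolL_star _ (LR_sa l r hTsa) ha)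
    (Matrix.of A') (fun i j => (Gr2_mem_PolL hc (hA i)).2 j) hwA
  obtain ⟨hBh, s, hs⟩ := hposB
  obtain ⟨hAh, t, ht⟩ := hposA
  have key := trace_amgm hc.trace' hBh hAh hs ht hCB hDA
  -- Schwinger-Dyson
  have e1 : ∀ i, τ (X i * T i) = tr ((Matrix.of D * B) i i) := by
    intro i
    exact SD_Gr2 hc hX (Gr2_chain hc hB (hTD i)) i
  have e2 : ∀ i, τ (T i * X i) = tr ((C * Matrix.of A') i i) := by
    intro i
    exact SD_Gr2 hc hSDT (Gr2_chain hc hA (hC i)) i
  have e3 : ∀ {U : ι → A}, SD τ tr l r U → ∀ i, τ (U i * U i) = tr ((1 : Matrix ι ι 𝔐) i i) := by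
    intro U hU i
    have := hU i [i]
    simpa [fdq_cons] using this
  have e4 : ∑ i, τ (star (X i - T i) * (X i - T i)) =
      -(Tm tr (Matrix.of D * B) + Tm tr (C * Matrix.of A') - 2 * Tm tr (1 : Matrix ι ι 𝔐)) := by
    unfold Tm
    rw [Finset.mul_sum, ← Finset.sum_add_distrib, ← Finset.sum_sub_distrib,
      ← Finset.sum_neg_distrib]
    refine Finset.sum_congr rfl fun i _ => ?_
    rw [← e1, ← e2]
    have h1 := e3 hX i
    have h2 := e3 hSDT i
    rw [star_sub, (hXsa i).star_eq, (hTsa i).star_eq, sub_mul, mul_sub, mul_sub, map_sub, map_sub,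
      map_sub, h1, h2]
    ring
  have e5 : ∑ i, τ (star (X i - T i) * (X i - T i)) = 0 := by
    refine le_antisymm ?_ (Finset.sum_nonneg fun i _ => hc.trace.nonneg _)
    rw [e4]
    exact neg_nonpos.2 key
  have hXT' : ∀ i, T i = X i := by
    intro i
    have h1 := (Finset.sum_eq_zero_iff_of_nonneg (fun i _ => hc.trace.nonneg (X i - T i))).1 e5 i
      (Finset.mem_univ i)
    exact (sub_eq_zero.1 (hc.trace.faithful _ h1)).symm
  -- conclusion
  have hdiag : ∀ a ∈ PolL hc.trace X, (a, a) ∈ RelL hc.trace Y' Y := by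
    refine cl_induction ?_ ?_ ?_ ?_ ?_
    · rintro _ ⟨w, rfl⟩
      have := hTev w
      rwa [show T = X from funext hXT'] at this
    · exact RelL_zero _ _ _
    · intro x y hx hy
      exact RelL_add _ hx hy
    · intro c x hx
      exact Submodule.smul_mem _ c hx
    · refine fun x hx => lip_mem' (f := fun a : A => (a, a)) (K := 2) (fun x y => rfl)
        (fun z => ?_) x hx
      rw [NP_apply, N2_apply, two_mul]
  funext i
  have h1 := RelL_sub _ (RelL_gen hc.trace Y' Y i) (hdiag _ (Gr2_mem_PolL hc (hB' i)).1)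
  exact sub_eq_zero.1 (hn0 h1 (sub_self _))

end coarse

end FreeMono
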