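import Pool.Agent.Lib.MP_eee45d_an.L2Basic

open scoped ComplexOrder CStarAlgebra
open MulOpposite

noncomputable section

namespace FreeMono

set_option linter.unusedSectionVars false

section words

variable {A : Type*} [CStarAlgebra A] {τ : A →L[ℂ] ℂ} {κ : Type*}

/-- bounded elements in the `L²`-closure of the polynomials in `Z` -/
def PolL (h : IsFaithfulTrace τ) (Z : κ → A) : Submodule ℂ A := cl (N2 h) (Set.range (ev Z))

lemma PolL_ev (h : IsFaithfulTrace τ) (Z : κ → A) (w : List κ) : ev Z w ∈ PolL h Z :=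
  subset_cl ⟨w, rfl⟩

lemma PolL_one (h : IsFaithfulTrace τ) (Z : κ → A) : (1 : A) ∈ PolL h Z := PolL_ev h Z []

lemma PolL_gen (h : IsFaithfulTrace τ) (Z : κ → A) (i : κ) : Z i ∈ PolL h Z := by
  simpa using PolL_ev h Z [i]

lemma PolL_mul (h : IsFaithfulTrace τ) {Z : κ → A} {a b : A} (ha : a ∈ PolL h Z)
    (hb : b ∈ PolL h Z) : a * b ∈ PolL h Z := by
  refine cl_induction (p := fun a => a * b ∈ PolL h Z) ?_ ?_ ?_ ?_ ?_ a ha
  · rintro _ ⟨u, rfl⟩
    refine cl_induction (p := fun b => ev Z u * b ∈ PolL h Z) ?_ ?_ ?_ ?_ ?_ b hb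
    · rintro _ ⟨v, rfl⟩
      rw [← ev_append]; exact PolL_ev h Z _
    · simp
    · intro x y hx hy
      rw [mul_add]; exact add_mem hx hy
    · intro c x hx
      rw [mul_smul_comm]; exact Submodule.smul_mem _ _ hx
    · refine fun x hx => lip_mem (f := fun b => ev Z u * b) (K := ‖ev Z u‖) (fun x y => ?_) x hx
      rw [← mul_sub]; exact n2_mul_left h _ _
  · simp
  · intro x y hx hy
    rw [add_mul]; exact add_mem hx hy
  · intro c x hx
    rw [smul_mul_assoc]; exact Submodule.smul_mem _ _ hx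
  · refine fun x hx => lip_mem (f := fun a => a * b) (K := ‖b‖) (fun x y => ?_) x hx
    rw [← sub_mul, mul_comm ‖b‖]; exact n2_mul_right h _ _

lemma PolL_star (h : IsFaithfulTrace τ) {Z : κ → A} (hZ : ∀ i, IsSelfAdjoint (Z i)) {a : A}
    (ha : a ∈ PolL h Z) : star a ∈ PolL h Z := by
  refine cl_induction (p := fun a => star a ∈ PolL h Z) ?_ ?_ ?_ ?_ ?_ a ha
  · rintro _ ⟨u, rfl⟩
    rw [star_ev hZ]; exact PolL_ev h Z _
  · simp
  · intro x y hx hy
    rw [star_add]; exact add_mem hx hy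
  · intro c x hx
    rw [star_smul]; exact Submodule.smul_mem _ _ hx
  · refine fun x hx => lip_mem (f := fun a => star a) (K := 1) (fun x y => ?_) x hx
    rw [← star_sub, N2_apply, n2_star h, one_mul]; rfl

lemma PolL_closed (h : IsFaithfulTrace τ) (Z : κ → A) : IsClosed (PolL h Z : Set A) := by
  rw [← isSeqClosed_iff_isClosed]
  intro x a hx ha
  refine cl_cl fun ε hε => ?_
  obtain ⟨n, hn⟩ := ((Metric.tendsto_nhds.1 ha) ε hε).exists
  refine ⟨x n, hx n, ?_⟩
  rw [N2_apply, ← neg_sub]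
  have h1 : n2 τ (-(x n - a)) = n2 τ (x n - a) := by
    rw [← neg_one_smul ℂ (x n - a), n2_smul]; simp
  rw [h1]
  refine (n2_le_norm h _).trans_lt ?_
  rwa [← dist_eq_norm]

lemma PolL_pow (h : IsFaithfulTrace τ) {Z : κ → A} {a : A} (ha : a ∈ PolL h Z) (k : ℕ) :
    a ^ k ∈ PolL h Z := by
  induction k with
  | zero => simpa using PolL_one h Z
  | succ k ih => rw [pow_succ]; exact PolL_mul h ih ha

lemma evL_mem (h : IsFaithfulTrace τ) {Z : κ → A} {κ' : Type*} {W : κ' → A}
    (hW : ∀ i, W i ∈ PolL h Z) (w : List κ') : ev W w ∈ PolL h Z := by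
  induction w with
  | nil => exact PolL_one h Z
  | cons i w ih => rw [ev_cons]; exact PolL_mul h (hW i) ih

lemma Pol_le_PolL (h : IsFaithfulTrace τ) (Z : κ → A) : Pol Z ≤ PolL h Z :=
  cs_le (PolL_closed h Z) (by rintro _ ⟨w, rfl⟩; exact PolL_ev h Z w)

/-- the seminorm on pairs -/
def NP (h : IsFaithfulTrace τ) : Seminorm ℂ (A × A) :=
  (N2 h).comp (LinearMap.fst ℂ A A) + (N2 h).comp (LinearMap.snd ℂ A A)

lemma NP_apply (h : IsFaithfulTrace τ) (p : A × A) : NP h p = n2 τ p.1 + n2 τ p.2 := rfl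

/-- The graph of the map `U ↦ V`, `L²`-closed, bounded elements. -/
def RelL (h : IsFaithfulTrace τ) (U V : κ → A) : Submodule ℂ (A × A) :=
  cl (NP h) (Set.range fun w => (ev U w, ev V w))

lemma RelL_ev (h : IsFaithfulTrace τ) (U V : κ → A) (w : List κ) :
    (ev U w, ev V w) ∈ RelL h U V := subset_cl ⟨w, rfl⟩

lemma RelL_gen (h : IsFaithfulTrace τ) (U V : κ → A) (i : κ) : (U i, V i) ∈ RelL h U V := by
  have := RelL_ev h U V [i]
  simpa using this

lemma RelL_one (h : IsFaithfulTrace τ) (U V : κ → A) : ((1 : A), (1 : A)) ∈ RelL h U V :=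
  RelL_ev h U V []

lemma RelL_zero (h : IsFaithfulTrace τ) (U V : κ → A) : ((0 : A), (0 : A)) ∈ RelL h U V :=
  zero_mem _

lemma RelL_add (h : IsFaithfulTrace τ) {U V : κ → A} {a b a' b' : A} (hab : (a, b) ∈ RelL h U V)
    (hab' : (a', b') ∈ RelL h U V) : (a + a', b + b') ∈ RelL h U V := add_mem hab hab'

lemma RelL_sub (h : IsFaithfulTrace τ) {U V : κ → A} {a b a' b' : A} (hab : (a, b) ∈ RelL h U V)
    (hab' : (a', b') ∈ RelL h U V) : (a - a', b - b') ∈ RelL h U V := sub_mem hab hab'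

lemma RelL_mul (h : IsFaithfulTrace τ) {U V : κ → A} {a b a' b' : A}
    (hab : (a, b) ∈ RelL h U V) (hab' : (a', b') ∈ RelL h U V) :
    (a * a', b * b') ∈ RelL h U V := by
  have lip : ∀ q : A × A, ∀ x y : A × A, NP h ((x.1 * q.1, x.2 * q.2) - (y.1 * q.1, y.2 * q.2)) ≤
      (‖q.1‖ + ‖q.2‖) * NP h (x - y) := by
    intro q x y
    rw [NP_apply, NP_apply]
    simp only [Prod.fst_sub, Prod.snd_sub, ← sub_mul]
    have h1 := n2_mul_right h (x.1 - y.1) q.1
    have h2 := n2_mul_right h (x.2 - y.2) q.2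
    nlinarith [n2_nonneg τ (x.1 - y.1), n2_nonneg τ (x.2 - y.2), norm_nonneg q.1, norm_nonneg q.2]
  have lip' : ∀ q : A × A, ∀ x y : A × A, NP h ((q.1 * x.1, q.2 * x.2) - (q.1 * y.1, q.2 * y.2)) ≤
      (‖q.1‖ + ‖q.2‖) * NP h (x - y) := by
    intro q x y
    rw [NP_apply, NP_apply]
    simp only [Prod.fst_sub, Prod.snd_sub, ← mul_sub]
    have h1 := n2_mul_left h q.1 (x.1 - y.1)
    have h2 := n2_mul_left h q.2 (x.2 - y.2)
    nlinarith [n2_nonneg τ (x.1 - y.1), n2_nonneg τ (x.2 - y.2), norm_nonneg q.1, norm_nonneg q.2]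
  refine cl_induction (p := fun p : A × A => (p.1 * a', p.2 * b') ∈ RelL h U V)
    ?_ ?_ ?_ ?_ ?_ (a, b) hab
  · rintro _ ⟨u, rfl⟩
    refine cl_induction (p := fun p : A × A => (ev U u * p.1, ev V u * p.2) ∈ RelL h U V)
      ?_ ?_ ?_ ?_ ?_ (a', b') hab'
    · rintro _ ⟨v, rfl⟩
      simp only [← ev_append]
      exact RelL_ev h U V _
    · simpa using RelL_zero h U V
    · intro x y hx hy
      simpa [mul_add] using add_mem hx hy
    · intro c x hx
      simpa using Submodule.smul_mem _ c hx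
    · exact fun x hx => lip_mem (f := fun p : A × A => (ev U u * p.1, ev V u * p.2))
        (lip' (ev U u, ev V u)) x hx
  · simpa using RelL_zero h U V
  · intro x y hx hy
    simpa [add_mul] using add_mem hx hy
  · intro c x hx
    simpa using Submodule.smul_mem _ c hx
  · exact fun x hx => lip_mem (f := fun p : A × A => (p.1 * a', p.2 * b')) (lip (a', b')) x hx

lemma RelL_star (h : IsFaithfulTrace τ) {U V : κ → A} (hU : ∀ i, IsSelfAdjoint (U i))
    (hV : ∀ i, IsSelfAdjoint (V i)) {a b : A} (hab : (a, b) ∈ RelL h U V) :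
    (star a, star b) ∈ RelL h U V := by
  refine cl_induction (p := fun p : A × A => (star p.1, star p.2) ∈ RelL h U V)
    ?_ ?_ ?_ ?_ ?_ (a, b) hab
  · rintro _ ⟨u, rfl⟩
    simp only [star_ev hU, star_ev hV]
    exact RelL_ev h U V _
  · simpa using RelL_zero h U V
  · intro x y hx hy
    simpa using add_mem hx hy
  · intro c x hx
    simpa using Submodule.smul_mem _ (star c) hx
  · refine fun x hx => lip_mem (f := fun p : A × A => (star p.1, star p.2)) (K := 1)
      (fun x y => ?_) x hx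
    rw [NP_apply, NP_apply]
    simp only [Prod.fst_sub, Prod.snd_sub, ← star_sub, n2_star h, one_mul, le_refl]

lemma RelL_trace (h : IsFaithfulTrace τ) {U V : κ → A} (hUV : ∀ w, τ (ev U w) = τ (ev V w))
    {a b : A} (hab : (a, b) ∈ RelL h U V) : τ a = τ b := by
  have : τ a - τ b = 0 := by
    refine cl_induction (p := fun p : A × A => τ p.1 - τ p.2 = 0) ?_ ?_ ?_ ?_ ?_ (a, b) hab
    · rintro _ ⟨w, rfl⟩
      simp [hUV w]
    · simp
    · intro x y hx hy
      simp only [Prod.fst_add, Prod.snd_add, map_add]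
      rw [sub_eq_zero] at hx hy ⊢
      rw [hx, hy]
    · intro c x hx
      simp only [Prod.smul_fst, Prod.smul_snd, map_smul]
      rw [sub_eq_zero] at hx ⊢
      rw [hx]
    · refine fun x hx => lip_zero (g := fun p : A × A => τ p.1 - τ p.2) (K := 1) (fun x y => ?_)
        x hx
      have e : τ x.1 - τ x.2 - (τ y.1 - τ y.2) = τ (x.1 - y.1) - τ (x.2 - y.2) := by
        simp only [map_sub]; ring
      rw [e, NP_apply, one_mul]
      exact (norm_sub_le _ _).trans (add_le_add (norm_trace_le h _) (norm_trace_le h _))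
  exact sub_eq_zero.1 this

lemma RelL_pow (h : IsFaithfulTrace τ) {U V : κ → A} {a b : A} (hab : (a, b) ∈ RelL h U V)
    (k : ℕ) : (a ^ k, b ^ k) ∈ RelL h U V := by
  induction k with
  | zero => simpa using RelL_one h U V
  | succ k ih => simp only [pow_succ]; exact RelL_mul h ih hab

lemma RelL_n2 (h : IsFaithfulTrace τ) {U V : κ → A} (hU : ∀ i, IsSelfAdjoint (U i))
    (hV : ∀ i, IsSelfAdjoint (V i)) (hUV : ∀ w, τ (ev U w) = τ (ev V w)) {a b : A}
    (hab : (a, b) ∈ RelL h U V) : n2 τ a = n2 τ b := by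
  unfold n2
  rw [RelL_trace h hUV (RelL_mul h (RelL_star h hU hV hab) hab)]

lemma RelL_norm (h : IsFaithfulTrace τ) {U V : κ → A} (hU : ∀ i, IsSelfAdjoint (U i))
    (hV : ∀ i, IsSelfAdjoint (V i)) (hUV : ∀ w, τ (ev U w) = τ (ev V w)) {a b : A}
    (hab : (a, b) ∈ RelL h U V) : ‖a‖ = ‖b‖ := by
  have key : ∀ k : ℕ, τ ((star a * a) ^ k) = τ ((star b * b) ^ k) := fun k =>
    RelL_trace h hUV (RelL_pow h (RelL_mul h (RelL_star h hU hV hab) hab) k)
  exact le_antisymm (h.norm_le key) (h.norm_le fun k => (key k).symm)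

lemma RelL_le (h : IsFaithfulTrace τ) {κ' : Type*} {P Q : κ' → A} {U V : κ → A}
    (hUV : ∀ i, (U i, V i) ∈ RelL h P Q) : RelL h U V ≤ RelL h P Q := by
  intro p hp
  have hev : ∀ w, (ev U w, ev V w) ∈ RelL h P Q := by
    intro w
    induction w with
    | nil => exact RelL_one h P Q
    | cons i w ih => simp only [ev_cons]; exact RelL_mul h (hUV i) ih
  refine cl_induction (p := fun p : A × A => p ∈ RelL h P Q) ?_ ?_ ?_ ?_ ?_ p hp
  · rintro _ ⟨w, rfl⟩
    exact hev w
  · exact zero_mem _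
  · exact fun x y hx hy => add_mem hx hy
  · exact fun c x hx => Submodule.smul_mem _ c hx
  · exact fun x hx => cl_cl hx

end words

end FreeMono
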