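import Pool.Agent.Lib.MP_eee45d_an.Main

open scoped ComplexOrder CStarAlgebra
open MulOpposite

noncomputable section

namespace FreeMono

set_option linter.unusedSectionVars false

section bounds

variable {A 𝔐 : Type*} [CStarAlgebra A] [CStarAlgebra 𝔐]
variable {τ : A →L[ℂ] ℂ} {tr : 𝔐 →L[ℂ] ℂ}
variable {l : A →⋆ₐ[ℂ] 𝔐} {r : Aᵐᵒᵖ →⋆ₐ[ℂ] 𝔐}
variable {ι : Type*} [DecidableEq ι] [Fintype ι]

lemma norm_one_le' (A : Type*) [CStarAlgebra A] : ‖(1 : A)‖ ≤ 1 := by
  have h := CStarRing.norm_star_mul_self (x := (1 : A))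
  rw [star_one, mul_one] at h
  nlinarith [norm_nonneg (1 : A)]

lemma norm_ev_le {Z : ι → A} {M : ℝ} (hM : 0 ≤ M) (hZ : ∀ i, ‖Z i‖ ≤ M) (w : List ι) :
    ‖ev Z w‖ ≤ M ^ w.length := by
  induction w with
  | nil => simpa using norm_one_le' A
  | cons i w ih =>
    rw [ev_cons, List.length_cons, pow_succ']
    exact (norm_mul_le _ _).trans (mul_le_mul (hZ i) ih (norm_nonneg _) hM)

lemma norm_fdq_le {Z : ι → A} {M : ℝ} (hM : 1 ≤ M) (hZ : ∀ i, ‖Z i‖ ≤ M) (j : ι) (w : List ι) :
    ‖fdq l r Z j w‖ ≤ w.length * M ^ w.length := by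
  have hM0 : 0 ≤ M := by linarith
  unfold fdq
  refine (norm_sum_le _ _).trans ?_
  have : ∀ p ∈ Finset.range w.length, ‖(if w[p]? = some j then
      l (ev Z (w.take p)) * r (op (ev Z (w.drop (p + 1)))) else (0 : 𝔐))‖ ≤ M ^ w.length := by
    intro p hp
    rw [Finset.mem_range] at hp
    split_ifs
    · have h1 : ‖l (ev Z (w.take p))‖ ≤ M ^ (w.take p).length :=
        (NonUnitalStarAlgHom.norm_apply_le l _).trans (norm_ev_le hM0 hZ _)
      have h2 : ‖r (op (ev Z (w.drop (p + 1))))‖ ≤ M ^ (w.drop (p + 1)).length :=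
        (NonUnitalStarAlgHom.norm_apply_le r _).trans (norm_ev_le hM0 hZ _)
      refine (norm_mul_le _ _).trans ((mul_le_mul h1 h2 (norm_nonneg _) (by positivity)).trans ?_)
      rw [← pow_add]
      refine pow_le_pow_right₀ hM ?_
      rw [List.length_take, List.length_drop]
      omega
    · rw [norm_zero]; positivity
  refine (Finset.sum_le_sum this).trans ?_
  simp

lemma norm_cyc_le {Z : ι → A} {M : ℝ} (hM : 1 ≤ M) (hZ : ∀ i, ‖Z i‖ ≤ M) (i : ι) (w : List ι) :
    ‖cyc Z i w‖ ≤ w.length * M ^ w.length := by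
  have hM0 : 0 ≤ M := by linarith
  unfold cyc
  refine (norm_sum_le _ _).trans ?_
  have : ∀ p ∈ Finset.range w.length, ‖(if w[p]? = some i then
      ev Z (w.drop (p + 1) ++ w.take p) else (0 : A))‖ ≤ M ^ w.length := by
    intro p hp
    rw [Finset.mem_range] at hp
    split_ifs
    · refine (norm_ev_le hM0 hZ _).trans (pow_le_pow_right₀ hM ?_)
      rw [List.length_append, List.length_take, List.length_drop]
      omega
    · rw [norm_zero]; positivity
  refine (Finset.sum_le_sum this).trans ?_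
  simp

lemma norm_jac_le {Z : ι → A} {M : ℝ} (hM : 1 ≤ M) (hZ : ∀ i, ‖Z i‖ ≤ M) (i j : ι)
    (w : List ι) : ‖jac l r Z i j w‖ ≤ (w.length : ℝ) ^ 2 * M ^ w.length := by
  have hM0 : 0 ≤ M := by linarith
  unfold jac
  refine (norm_sum_le _ _).trans ?_
  have : ∀ p ∈ Finset.range w.length, ‖(if w[p]? = some i then
      fdq l r Z j (w.drop (p + 1) ++ w.take p) else (0 : 𝔐))‖ ≤ w.length * M ^ w.length := by
    intro p hp
    rw [Finset.mem_range] at hp
    split_ifs
    · refine (norm_fdq_le hM hZ j _).trans ?_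
      have hlen : (w.drop (p + 1) ++ w.take p).length ≤ w.length := by
        rw [List.length_append, List.length_take, List.length_drop]
        omega
      exact mul_le_mul (by exact_mod_cast hlen) (pow_le_pow_right₀ hM hlen) (by positivity)
        (by positivity)
    · rw [norm_zero]; positivity
  refine (Finset.sum_le_sum this).trans (le_of_eq ?_)
  simp only [Finset.sum_const, Finset.card_range, nsmul_eq_mul]
  ring

lemma exists_bound {M R : ℝ} (hM : 1 ≤ M) (hR : M < R) :
    ∃ K : ℝ, 1 ≤ K ∧ ∀ k : ℕ, (k : ℝ) ^ 2 * M ^ k ≤ K * R ^ k := by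
  have hR0 : 0 < R := by linarith
  have hs : Summable fun k : ℕ => (k : ℝ) ^ 2 * (M / R) ^ k := by
    refine summable_pow_mul_geometric_of_norm_lt_one 2 ?_
    rw [Real.norm_eq_abs, abs_of_nonneg (by positivity), div_lt_one hR0]
    exact hR
  refine ⟨1 + ∑' k : ℕ, (k : ℝ) ^ 2 * (M / R) ^ k, ?_, fun k => ?_⟩
  · have : 0 ≤ ∑' k : ℕ, (k : ℝ) ^ 2 * (M / R) ^ k := tsum_nonneg fun k => by positivity
    linarith
  · have h1 := hs.le_tsum k fun j _ => by positivity
    have h2 : (k : ℝ) ^ 2 * M ^ k = (k : ℝ) ^ 2 * (M / R) ^ k * R ^ k := by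
      rw [div_pow]; field_simp
    rw [h2]
    refine mul_le_mul_of_nonneg_right ?_ (by positivity)
    linarith

lemma summable_of_bound {E : Type*} [NormedAddCommGroup E] [NormedSpace ℂ E] [CompleteSpace E]
    {g : List ι → ℂ} {M R : ℝ} (hM : 1 ≤ M) (hR : M < R) (hg : ConvergesAt g R) {f : List ι → E}
    (hf : ∀ w, ‖f w‖ ≤ (w.length : ℝ) ^ 2 * M ^ w.length) : Summable fun w => g w • f w := by
  obtain ⟨K, hK1, hK⟩ := exists_bound hM hR
  refine Summable.of_norm_bounded (hg.mul_left K) fun w => ?_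
  rw [norm_smul]
  calc ‖g w‖ * ‖f w‖ ≤ ‖g w‖ * (K * R ^ w.length) :=
        mul_le_mul_of_nonneg_left ((hf w).trans (hK _)) (norm_nonneg _)
    _ = K * (‖g w‖ * R ^ w.length) := by ring

lemma sq_bound {M : ℝ} (hM : 1 ≤ M) (k : ℕ) : (k : ℝ) * M ^ k ≤ (k : ℝ) ^ 2 * M ^ k := by
  refine mul_le_mul_of_nonneg_right ?_ (by positivity)
  have : (k : ℝ) ≤ (k : ℝ) ^ 2 := by
    exact_mod_cast Nat.le_self_pow (by norm_num) k
  exact this

lemma tsum_mem_Gr {Z : ι → A} {g : List ι → ℂ} {a : List ι → A} {b : List ι → ι → 𝔐}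
    (hmem : ∀ w, (a w, b w) ∈ Gr l r Z) (ha : Summable fun w => g w • a w)
    (hb : ∀ j, Summable fun w => g w • b w j) :
    (∑' w, g w • a w, fun j => ∑' w, g w • b w j) ∈ Gr l r Z := by
  have h1 : HasSum (fun w => (g w • a w, fun j => g w • b w j))
      (∑' w, g w • a w, fun j => ∑' w, g w • b w j) :=
    ha.hasSum.prodMk (Pi.hasSum.2 fun j => (hb j).hasSum)
  refine (Gr_closed l r Z).mem_of_tendsto h1 (Filter.Eventually.of_forall fun s => ?_)
  exact sum_mem fun w _ => Submodule.smul_mem _ (g w) (hmem w)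

lemma cyc_jac_mem (Z : ι → A) (i : ι) (w : List ι) :
    (cyc Z i w, fun j => jac l r Z i j w) ∈ Gr l r Z := by
  have h : ((cyc Z i w, fun j => jac l r Z i j w) : A × (ι → 𝔐)) =
      ∑ p ∈ Finset.range w.length, (if w[p]? = some i then
        ((ev Z (w.drop (p + 1) ++ w.take p),
          fun j => fdq l r Z j (w.drop (p + 1) ++ w.take p)) : A × (ι → 𝔐)) else 0) := by
    refine Prod.ext ?_ ?_
    · rw [Prod.fst_sum]
      show cyc Z i w = _
      unfold cyc
      refine Finset.sum_congr rfl fun p _ => ?_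
      split_ifs <;> rfl
    · rw [Prod.snd_sum]
      funext j
      rw [Finset.sum_apply]
      show jac l r Z i j w = _
      unfold jac
      refine Finset.sum_congr rfl fun p _ => ?_
      split_ifs <;> rfl
  rw [h]
  refine sum_mem fun p _ => ?_
  split_ifs
  · exact Gr_ev l r Z _
  · exact zero_mem _

/-- gradients of power series lie in the closed graph -/
lemma grad_mem {X : ι → A} (hX : ∀ i, ‖X i‖ ≤ 2) {g : List ι → ℂ} {R : ℝ} (hR : 2 < R)
    (hg : ConvergesAt g R) (i : ι) : (grad g X i, jacobian l r g X i) ∈ Gr l r X := by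
  refine tsum_mem_Gr (a := fun w => cyc X i w) (b := fun w j => jac l r X i j w)
    (fun w => cyc_jac_mem X i w) ?_ ?_
  · exact summable_of_bound one_le_two hR hg fun w =>
      (norm_cyc_le one_le_two hX i w).trans (sq_bound one_le_two _)
  · intro j
    exact summable_of_bound one_le_two hR hg fun w => norm_jac_le one_le_two hX i j w

/-- power series lie in the closed graph -/
lemma series_mem {Z : ι → A} {M : ℝ} (hM : 1 ≤ M) (hZ : ∀ i, ‖Z i‖ ≤ M) {g : List ι → ℂ} {R : ℝ}
    (hR : M < R) (hg : ConvergesAt g R) :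
    (∑' w, g w • ev Z w, fun j => ∑' w, g w • fdq l r Z j w) ∈ Gr l r Z := by
  refine tsum_mem_Gr (a := fun w => ev Z w) (b := fun w j => fdq l r Z j w)
    (fun w => Gr_ev l r Z w) ?_ ?_
  · refine Summable.of_norm_bounded (hg.mul_left 1) fun w => ?_
    rw [norm_smul, one_mul]
    refine mul_le_mul_of_nonneg_left ((norm_ev_le (by linarith) hZ w).trans ?_) (norm_nonneg _)
    exact pow_le_pow_left₀ (by linarith) hR.le _
  · intro j
    exact summable_of_bound hM hR hg fun w => (norm_fdq_le hM hZ j w).trans (sq_bound hM _)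

end bounds

end FreeMono
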