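import Pool.Agent.Lib.MP_eee45d_an.Coarse

open scoped ComplexOrder CStarAlgebra
open MulOpposite

noncomputable section

namespace FreeMono

set_option linter.unusedSectionVars false

section CS

variable {N : Type*} [CStarAlgebra N] {φ : N →L[ℂ] ℂ}

lemma star_of_pos (φ : N →ₗ[ℂ] ℂ) (hpos : ∀ x, 0 ≤ φ (star x * x)) (a : N) :
    φ (star a) = star (φ a) := by
  have h1 := (Complex.nonneg_iff.1 (hpos (a + 1))).2
  have h2 := (Complex.nonneg_iff.1 (hpos (a + Complex.I • 1))).2
  have h3 := (Complex.nonneg_iff.1 (hpos a)).2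
  have h4 := (Complex.nonneg_iff.1 (hpos 1)).2
  have e1 : φ (star (a + 1) * (a + 1)) = φ (star a * a) + φ (star a) + φ a + φ (star 1 * 1) := by
    rw [← map_add, ← map_add, ← map_add]
    congr 1
    simp only [star_add, star_one, mul_add, add_mul, one_mul, mul_one]
    abel
  have e2 : φ (star (a + Complex.I • 1) * (a + Complex.I • 1)) =
      φ (star a * a) + Complex.I * φ (star a) - Complex.I * φ a + φ (star 1 * 1) := by
    have : star (a + Complex.I • (1 : N)) * (a + Complex.I • 1) =
        star a * a + Complex.I • star a - Complex.I • a + star 1 * 1 := by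
      have hI : star (Complex.I • (1 : N)) = -(Complex.I • (1 : N)) := by
        rw [star_smul, star_one, Complex.star_def, Complex.conj_I, neg_smul]
      have hII : (Complex.I • (1 : N)) * (Complex.I • (1 : N)) = -1 := by
        rw [smul_mul_smul_comm, Complex.I_mul_I, mul_one, neg_smul, one_smul]
      rw [star_add, hI, add_mul, mul_add, mul_add, neg_mul, neg_mul, hII, mul_smul_comm, mul_one,
        smul_mul_assoc, one_mul, star_one, mul_one]
      abel
    rw [this, map_add, map_sub, map_add, map_smul, map_smul, smul_eq_mul, smul_eq_mul]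
  rw [e1] at h1
  rw [e2] at h2
  simp only [Complex.add_im, Complex.sub_im, Complex.mul_im, Complex.I_re, Complex.I_im,
    zero_mul, one_mul, zero_add] at h1 h2
  apply Complex.ext
  · simp only [Complex.star_def, Complex.conj_re]; linarith
  · simp only [Complex.star_def, Complex.conj_im]; linarith

lemma n2_nonneg (φ : N →L[ℂ] ℂ) (a : N) : 0 ≤ n2 φ a := Real.sqrt_nonneg _

/-- Cauchy-Schwarz -/
lemma cauchy_schwarz (hpos : ∀ x, 0 ≤ φ (star x * x)) (a b : N) :
    ‖φ (star a * b)‖ ≤ n2 φ a * n2 φ b := by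
  let core : PreInnerProductSpace.Core ℂ N :=
    { inner := fun x y => φ (star x * y)
      conj_inner_symm := fun x y => by
        show star (φ (star y * x)) = φ (star x * y)
        have := star_of_pos φ.toLinearMap hpos (star y * x)
        rw [star_mul, star_star] at this
        exact this.symm
      re_inner_nonneg := fun x => (Complex.nonneg_iff.1 (hpos x)).1
      add_left := fun x y z => by
        show φ (star (x + y) * z) = φ (star x * z) + φ (star y * z)
        rw [star_add, add_mul, map_add]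
      smul_left := fun x y c => by
        show φ (star (c • x) * y) = star c * φ (star x * y)
        rw [star_smul, smul_mul_assoc, map_smul, smul_eq_mul] }
  have h := @InnerProductSpace.Core.inner_mul_inner_self_le ℂ N _ _ _ core a b
  have h' : ‖φ (star a * b)‖ * ‖φ (star b * a)‖ ≤
    (φ (star a * a)).re * (φ (star b * b)).re := h
  have h2 : ‖φ (star b * a)‖ = ‖φ (star a * b)‖ := by
    have := star_of_pos φ.toLinearMap hpos (star a * b)
    simp only [star_mul, star_star] at this
    have h3 : φ (star b * a) = star (φ (star a * b)) := this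
    rw [h3, norm_star]
  rw [h2] at h'
  unfold n2
  rw [← Real.sqrt_mul (Complex.nonneg_iff.1 (hpos a)).1]
  exact Real.le_sqrt_of_sq_le (by rw [sq]; exact h')

lemma cauchy_schwarz' (hpos : ∀ x, 0 ≤ φ (star x * x)) (a b : N) :
    ‖φ (a * b)‖ ≤ n2 φ (star a) * n2 φ b := by
  have := cauchy_schwarz (φ := φ) hpos (star a) b
  rwa [star_star] at this

end CS

section coarse

variable {A 𝔐 : Type*} [CStarAlgebra A] [CStarAlgebra 𝔐]
variable (τ : A →L[ℂ] ℂ) (tr : 𝔐 →L[ℂ] ℂ)
variable (l : A →⋆ₐ[ℂ] 𝔐) (r : Aᵐᵒᵖ →⋆ₐ[ℂ] 𝔐)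
variable {ι : Type*} [DecidableEq ι] [Fintype ι]

/-- The Schwinger-Dyson equations of a free semicircular family. -/
def SD (X : ι → A) : Prop := ∀ j w, τ (X j * ev X w) = tr (fdq l r X j w)

variable {τ tr l r}

lemma IsCoarse.tr_l (h : IsCoarse τ tr l r) (a : A) : tr (l a) = τ a := by
  have := h.fact a 1
  simpa [h.trace.one] using this

lemma IsCoarse.tr_r (h : IsCoarse τ tr l r) (a : A) : tr (r (op a)) = τ a := by
  have := h.fact 1 a
  simpa [h.trace.one] using this

lemma IsCoarse.n2_l (h : IsCoarse τ tr l r) (a : A) : n2 tr (l a) = n2 τ a := by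
  unfold n2
  rw [← map_star, ← map_mul, h.tr_l]

lemma IsCoarse.n2_r (h : IsCoarse τ tr l r) (a : A) : n2 tr (r (op a)) = n2 τ a := by
  unfold n2
  rw [← map_star, ← map_mul, ← op_star, ← op_mul, h.tr_r, h.trace.comm]

lemma SD_Gr {X : ι → A} (hX : SD τ tr l r X) {a : A} {b : ι → 𝔐} (h : (a, b) ∈ Gr l r X)
    (j : ι) : τ (X j * a) = tr (b j) := by
  refine cs_induction (p := fun p : A × (ι → 𝔐) => τ (X j * p.1) = tr (p.2 j)) ?_ ?_ ?_ ?_ ?_
    (a, b) h
  · rintro _ ⟨w, rfl⟩
    exact hX j w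
  · simp
  · intro x y hx hy
    simp [mul_add, hx, hy]
  · intro c x hx
    simp [hx]
  · exact isClosed_eq (by fun_prop) (by fun_prop)

lemma SD_formula (hc : IsCoarse τ tr l r) {X : ι → A} (hX : SD τ tr l r X) {a : A} {b : ι → 𝔐}
    (h : (a, b) ∈ Gr l r X) (j : ι) (u v : List ι) :
    tr (l (ev X u) * r (op (ev X v)) * b j) = τ (X j * (ev X u * a * ev X v))
      - tr (l (ev X u * a) * fdq l r X j v) - tr (r (op (a * ev X v)) * fdq l r X j u) := by
  have h1 := Gr_mul l r hc.comm (Gr_mul l r hc.comm (Gr_ev l r X u) h) (Gr_ev l r X v)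
  have h2 := SD_Gr hX h1 j
  rw [h2]
  simp only [mul_add, map_add, ← mul_assoc, hc.comm, op_mul, map_mul]
  ring

/-- closability of the free difference quotients at a family with conjugate variables -/
lemma Gr_closable (hc : IsCoarse τ tr l r) {X : ι → A} (hXsa : ∀ i, IsSelfAdjoint (X i))
    (hX : SD τ tr l r X) {b : ι → 𝔐} (h : ((0 : A), b) ∈ Gr l r X) : b = 0 := by
  funext j
  have h1 : ∀ η ∈ Pol (LR l r X), tr (η * b j) = 0 := by
    refine cs_induction (p := fun η => tr (η * b j) = 0) ?_ ?_ ?_ ?_ ?_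
    · rintro _ ⟨w, rfl⟩
      obtain ⟨u, v, huv⟩ := exists_LR l r hc.comm w
      rw [huv, SD_formula hc hX h]
      simp
    · simp
    · intro x y hx hy
      simp [add_mul, hx, hy]
    · intro c x hx
      simp [hx]
    · exact isClosed_eq (by fun_prop) (by fun_prop)
  have h2 : b j ∈ Pol (LR l r X) := (Gr_mem_Pol l r h).2 j
  exact hc.trace'.faithful _ (h1 _ (Pol_star (LR_sa l r hXsa) h2))

/-- `L²`-boundedness of `a ↦ tr (η * ∂_j a)` for an algebraic tensor `η` -/
lemma L2_bound (hc : IsCoarse τ tr l r) {X : ι → A} (hX : SD τ tr l r X) {η : 𝔐}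
    (hη : η ∈ Alg (LR l r X)) : ∃ K : ℝ, 0 ≤ K ∧ ∀ (a : A) (b : ι → 𝔐), (a, b) ∈ Gr l r X →
      ∀ j, ‖tr (η * b j)‖ ≤ K * n2 τ a := by
  refine Submodule.span_induction (p := fun η _ => ∃ K : ℝ, 0 ≤ K ∧ ∀ (a : A) (b : ι → 𝔐),
    (a, b) ∈ Gr l r X → ∀ j, ‖tr (η * b j)‖ ≤ K * n2 τ a) ?_ ?_ ?_ ?_ hη
  · rintro _ ⟨w, rfl⟩
    obtain ⟨u, v, huv⟩ := exists_LR l r hc.comm w
    rw [huv]
    refine ⟨∑ j, (n2 τ (star (ev X v * X j * ev X u)) +
      n2 tr (star (fdq l r X j v * l (ev X u))) +
      n2 tr (star (fdq l r X j u * r (op (ev X v))))),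
      Finset.sum_nonneg fun j _ => add_nonneg (add_nonneg (n2_nonneg _ _) (n2_nonneg _ _))
        (n2_nonneg _ _), fun a b hab j => ?_⟩
    have h0 : (n2 τ (star (ev X v * X j * ev X u)) +
      n2 tr (star (fdq l r X j v * l (ev X u))) +
      n2 tr (star (fdq l r X j u * r (op (ev X v))))) ≤ ∑ j, (n2 τ (star (ev X v * X j * ev X u)) +
      n2 tr (star (fdq l r X j v * l (ev X u))) +
      n2 tr (star (fdq l r X j u * r (op (ev X v))))) :=
      Finset.single_le_sum (f := fun j => (n2 τ (star (ev X v * X j * ev X u)) +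
      n2 tr (star (fdq l r X j v * l (ev X u))) +
      n2 tr (star (fdq l r X j u * r (op (ev X v)))))) (fun j _ =>
        add_nonneg (add_nonneg (n2_nonneg _ _) (n2_nonneg _ _)) (n2_nonneg _ _))
        (Finset.mem_univ j)
    refine le_trans ?_ (mul_le_mul_of_nonneg_right h0 (n2_nonneg τ a))
    rw [SD_formula hc hX hab]
    have e1 : τ (X j * (ev X u * a * ev X v)) = τ ((ev X v * X j * ev X u) * a) := by
      rw [← mul_assoc, ← mul_assoc, hc.trace.comm _ (ev X v)]
      simp only [mul_assoc]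
    have e2 : tr (l (ev X u * a) * fdq l r X j v) = tr ((fdq l r X j v * l (ev X u)) * l a) := by
      rw [hc.trace'.comm, map_mul l, mul_assoc]
    have e3 : tr (r (op (a * ev X v)) * fdq l r X j u) =
        tr ((fdq l r X j u * r (op (ev X v))) * r (op a)) := by
      rw [hc.trace'.comm, op_mul, map_mul r, mul_assoc]
    rw [e1, e2, e3]
    have f1 := cauchy_schwarz' hc.trace.nonneg (ev X v * X j * ev X u) a
    have f2 := cauchy_schwarz' hc.trace'.nonneg (fdq l r X j v * l (ev X u)) (l a)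
    have f3 := cauchy_schwarz' hc.trace'.nonneg (fdq l r X j u * r (op (ev X v))) (r (op a))
    rw [hc.n2_l] at f2
    rw [hc.n2_r] at f3
    refine (norm_sub_le _ _).trans ((add_le_add (norm_sub_le _ _) le_rfl).trans ?_)
    rw [add_mul, add_mul]
    exact add_le_add (add_le_add f1 f2) f3
  · exact ⟨0, le_rfl, fun a b _ j => by simp⟩
  · rintro x y _ _ ⟨K, hK, hx⟩ ⟨K', hK', hy⟩
    refine ⟨K + K', add_nonneg hK hK', fun a b hab j => ?_⟩
    rw [add_mul, map_add, add_mul]
    exact (norm_add_le _ _).trans (add_le_add (hx a b hab j) (hy a b hab j))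
  · rintro c x _ ⟨K, hK, hx⟩
    refine ⟨‖c‖ * K, by positivity, fun a b hab j => ?_⟩
    rw [smul_mul_assoc, map_smul, norm_smul, mul_assoc]
    exact mul_le_mul_of_nonneg_left (hx a b hab j) (norm_nonneg c)

end coarse

end FreeMono
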