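import Pool.Agent.Lib.MP_eee45d_an.Defs

open scoped ComplexOrder NNReal

namespace FreeMono

section cfcstuff

variable {N : Type*} [CStarAlgebra N]

lemma exists_star_mul_self_of_weak (φ : N →ₗ[ℂ] ℂ)
    (hpos : ∀ x, 0 ≤ φ (star x * x)) (hfaith : ∀ x, φ (star x * x) = 0 → x = 0)
    (S : StarSubalgebra ℂ N) (hS : IsClosed (S : Set N)) {b : N} (hbS : b ∈ S)
    (hb : IsSelfAdjoint b)
    (hw : ∀ x ∈ S, 0 ≤ φ (star x * b * x)) : ∃ s, b = star s * s := by
  set f : ℝ → ℝ := fun x => max (-x) 0 with hfdef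
  have hf : Continuous f := by fun_prop
  have hf0 : ∀ x, 0 ≤ f x := fun x => le_max_right _ _
  set c := cfc f b with hc
  have hcS : c ∈ S := by
    have := hS
    exact cfc_mem (𝕜' := ℂ) f hbS
  have hcsa : IsSelfAdjoint c := cfc_predicate f b
  set g : ℝ → ℝ := fun x => Real.sqrt (f x ^ 3) with hgdef
  have hg : Continuous g := by fun_prop
  set e := cfc g b with he
  have hesa : IsSelfAdjoint e := cfc_predicate g b
  have h1 : star c * b * c = - (star e * e) := by
    rw [hcsa.star_eq, hesa.star_eq]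
    have hb' : b = cfc (fun x : ℝ => x) b := (cfc_id' ℝ b).symm
    calc c * b * c = cfc f b * cfc (fun x : ℝ => x) b * cfc f b := by rw [← hb']
      _ = cfc (fun x => f x * x * f x) b := by
          rw [← cfc_mul f (fun x : ℝ => x) b (hf.continuousOn) (continuous_id.continuousOn),
            ← cfc_mul (fun x => f x * x) f b ((hf.mul continuous_id).continuousOn)
              hf.continuousOn]
      _ = cfc (fun x => - (g x * g x)) b := by
          refine cfc_congr fun x _ => ?_
          have h3 : g x * g x = f x ^ 3 := Real.mul_self_sqrt (pow_nonneg (hf0 x) 3)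
          show f x * x * f x = - (g x * g x)
          rw [h3]
          by_cases hx : 0 ≤ x
          · have : f x = 0 := by simp [hfdef, hx]
            rw [this]; ring
          · have : f x = -x := by
              simp only [hfdef]; exact max_eq_left (by linarith)
            rw [this]; ring
      _ = - (cfc g b * cfc g b) := by
          rw [cfc_neg (fun x => g x * g x) b,
            cfc_mul g g b hg.continuousOn hg.continuousOn]
  have h2 : φ (star e * e) = 0 := by
    have h3 := hw c hcS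
    rw [h1, map_neg] at h3
    exact le_antisymm (by simpa using h3) (hpos e)
  have h4 : e = 0 := hfaith e h2
  have h5 : (spectrum ℝ b).EqOn g (fun _ => 0) := by
    have : cfc g b = cfc (fun _ : ℝ => (0 : ℝ)) b := by
      rw [← he, h4, cfc_const_zero]
    exact eqOn_of_cfc_eq_cfc this hg.continuousOn continuous_const.continuousOn
  have h6 : ∀ x ∈ spectrum ℝ b, 0 ≤ x := by
    intro x hx
    have h7 : g x = 0 := h5 hx
    by_contra hneg
    push Not at hneg
    have h8 : f x = -x := by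
      simp only [hfdef]; exact max_eq_left (by linarith)
    have h9 : 0 < g x := by
      simp only [hgdef]
      rw [h8]
      exact Real.sqrt_pos.2 (pow_pos (by linarith) 3)
    linarith
  refine ⟨cfc Real.sqrt b, ?_⟩
  have hs : IsSelfAdjoint (cfc Real.sqrt b) := cfc_predicate _ _
  rw [hs.star_eq, ← cfc_mul Real.sqrt Real.sqrt b Real.continuous_sqrt.continuousOn
    Real.continuous_sqrt.continuousOn]
  conv_lhs => rw [← cfc_id' ℝ b]
  refine cfc_congr fun x hx => ?_
  exact (Real.mul_self_sqrt (h6 x hx)).symm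

/-- positivity of a functional on the continuous functional calculus -/
lemma pos_cfc (φ : N →L[ℂ] ℂ) (hpos : ∀ x, 0 ≤ φ (star x * x)) {a : N}
    (f : ℝ → ℝ) (hf : Continuous f) (hf0 : ∀ x ∈ spectrum ℝ a, 0 ≤ f x) :
    0 ≤ φ (cfc f a) := by
  have h : cfc f a = star (cfc (fun x => Real.sqrt (f x)) a) * cfc (fun x => Real.sqrt (f x)) a := by
    have hs : IsSelfAdjoint (cfc (fun x => Real.sqrt (f x)) a) := cfc_predicate _ _
    rw [hs.star_eq, ← cfc_mul _ _ a (hf.sqrt.continuousOn) (hf.sqrt.continuousOn)]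
    exact cfc_congr fun x hx => (Real.mul_self_sqrt (hf0 x hx)).symm
  rw [h]; exact hpos _

lemma norm_le_of_moments (φ : N →L[ℂ] ℂ) (hpos : ∀ x, 0 ≤ φ (star x * x))
    (hfaith : ∀ x, φ (star x * x) = 0 → x = 0) {a : N} (ha : IsSelfAdjoint a)
    (ha0 : ∀ x ∈ spectrum ℝ a, 0 ≤ x) {m C : ℝ} (hm : 0 ≤ m)
    (h : ∀ k : ℕ, (φ (a ^ k)).re ≤ C * m ^ k) : ‖a‖ ≤ m := by
  refine le_of_forall_gt_imp_ge_of_dense fun m' hm' => ?_
  have hm'0 : 0 < m' := lt_of_le_of_lt hm hm'
  set f : ℝ → ℝ := fun t => max (t - m') 0 with hfdef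
  have hf : Continuous f := by fun_prop
  have hf0 : ∀ x, 0 ≤ f x := fun x => le_max_right _ _
  have hspec : ∀ x ∈ spectrum ℝ a, x ≤ ‖a‖ := fun x hx =>
    (le_abs_self x).trans (by
      have := norm_apply_le_norm_cfc (fun x : ℝ => x) a hx (by fun_prop)
      rwa [cfc_id' ℝ a] at this)
  have key : ∀ k : ℕ, (φ (cfc f a)).re ≤ ‖a‖ * C * (m / m') ^ k := by
    intro k
    have h1 : 0 ≤ φ (cfc (fun t => ‖a‖ * (m'⁻¹ ^ k * t ^ k) - f t) a) := by
      refine pos_cfc φ hpos _ (by fun_prop) ?_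
      intro t ht
      have ht0 := ha0 t ht
      have ht1 := hspec t ht
      by_cases htm : t ≤ m'
      · have : f t = 0 := by simp [hfdef, htm]
        rw [this, sub_zero]; positivity
      · push Not at htm
        have h2 : f t ≤ t := by
          simp only [hfdef]; exact max_le (by linarith) ht0
        have h3 : 1 ≤ m'⁻¹ ^ k * t ^ k := by
          rw [← mul_pow]
          apply one_le_pow₀
          rw [inv_mul_eq_div, one_le_div hm'0]; exact htm.le
        nlinarith [norm_nonneg a]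
    have h2 : cfc (fun t => ‖a‖ * (m'⁻¹ ^ k * t ^ k) - f t) a
        = ((‖a‖ * m'⁻¹ ^ k : ℝ) : ℂ) • a ^ k - cfc f a := by
      rw [cfc_sub (fun t => ‖a‖ * (m'⁻¹ ^ k * t ^ k)) f a (by fun_prop) hf.continuousOn]
      congr 1
      have : (fun t : ℝ => ‖a‖ * (m'⁻¹ ^ k * t ^ k)) = fun t => (‖a‖ * m'⁻¹ ^ k) * t ^ k := by
        ext t; ring
      rw [this, cfc_const_mul _ (fun t => t ^ k) a (by fun_prop), cfc_pow_id a k]
      rw [Complex.coe_smul]
    rw [h2, map_sub, map_smul] at h1
    have h3 := (Complex.nonneg_iff.1 h1).1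
    simp only [Complex.sub_re, smul_eq_mul, Complex.re_ofReal_mul] at h3
    have h4 := h k
    have h5 : ‖a‖ * m'⁻¹ ^ k * (φ (a ^ k)).re ≤ ‖a‖ * m'⁻¹ ^ k * (C * m ^ k) := by
      apply mul_le_mul_of_nonneg_left h4; positivity
    calc (φ (cfc f a)).re ≤ ‖a‖ * m'⁻¹ ^ k * (φ (a ^ k)).re := by linarith
      _ ≤ ‖a‖ * m'⁻¹ ^ k * (C * m ^ k) := h5
      _ = ‖a‖ * C * (m / m') ^ k := by rw [div_eq_mul_inv, mul_pow]; ring
  have hlim : Filter.Tendsto (fun k : ℕ => ‖a‖ * C * (m / m') ^ k) Filter.atTop (nhds 0) := by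
    have := (tendsto_pow_atTop_nhds_zero_of_lt_one (div_nonneg hm hm'0.le)
      ((div_lt_one hm'0).2 hm')).const_mul (‖a‖ * C)
    simpa using this
  have hle : (φ (cfc f a)).re ≤ 0 := ge_of_tendsto' hlim key
  have hge : 0 ≤ φ (cfc f a) := pos_cfc φ hpos f hf (fun x _ => hf0 x)
  have hzero : φ (cfc f a) = 0 := by
    have h1 := Complex.nonneg_iff.1 hge
    exact Complex.ext (le_antisymm hle h1.1) h1.2.symm
  set g : ℝ → ℝ := fun x => Real.sqrt (f x) with hg
  have hgc : Continuous g := hf.sqrt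
  have hfg : cfc f a = star (cfc g a) * cfc g a := by
    have hs : IsSelfAdjoint (cfc g a) := cfc_predicate _ _
    rw [hs.star_eq, ← cfc_mul _ _ a hgc.continuousOn hgc.continuousOn]
    exact cfc_congr fun x _ => (Real.mul_self_sqrt (hf0 x)).symm
  have hg0 : cfc g a = 0 := hfaith _ (by rw [← hfg, hzero])
  have h5 : (spectrum ℝ a).EqOn g (fun _ => 0) := by
    have : cfc g a = cfc (fun _ : ℝ => (0 : ℝ)) a := by
      rw [hg0, cfc_const_zero]
    exact eqOn_of_cfc_eq_cfc this hgc.continuousOn continuous_const.continuousOn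
  have h6 : ∀ x ∈ spectrum ℝ a, x ≤ m' := by
    intro x hx
    have h7 : g x = 0 := h5 hx
    by_contra hneg
    push Not at hneg
    have h8 : 0 < g x := by
      simp only [hg, hfdef]
      exact Real.sqrt_pos.2 (lt_max_of_lt_left (by linarith))
    linarith
  conv_lhs => rw [← cfc_id' ℝ a]
  refine norm_cfc_le hm'0.le fun x hx => ?_
  rw [Real.norm_eq_abs, abs_of_nonneg (ha0 x hx)]
  exact h6 x hx

end cfcstuff

section trace

variable {A : Type*} [CStarAlgebra A] {τ : A →L[ℂ] ℂ}

lemma IsFaithfulTrace.norm_le (hτ : IsFaithfulTrace τ) {x y : A}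
    (h : ∀ k : ℕ, τ ((star x * x) ^ k) = τ ((star y * y) ^ k)) : ‖x‖ ≤ ‖y‖ := by
  have h1 : ‖star x * x‖ ≤ ‖star y * y‖ := by
    refine norm_le_of_moments τ hτ.nonneg hτ.faithful (IsSelfAdjoint.star_mul_self x)
      (fun t ht => spectrum_star_mul_self_nonneg t ht) (C := ‖τ‖ * max 1 ‖(1 : A)‖) (norm_nonneg _) ?_
    intro k
    rw [h k]
    calc (τ ((star y * y) ^ k)).re ≤ ‖τ ((star y * y) ^ k)‖ := Complex.re_le_norm _
      _ ≤ ‖τ‖ * ‖(star y * y) ^ k‖ := τ.le_opNorm _
      _ ≤ ‖τ‖ * (max 1 ‖(1 : A)‖ * ‖star y * y‖ ^ k) := by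
          gcongr
          rcases k with _ | k
          · simp
          · refine (norm_pow_le' _ k.succ_pos).trans ?_
            exact le_mul_of_one_le_left (by positivity) (le_max_left _ _)
      _ = ‖τ‖ * max 1 ‖(1 : A)‖ * ‖star y * y‖ ^ k := by ring
  rw [CStarRing.norm_star_mul_self, CStarRing.norm_star_mul_self] at h1
  exact abs_le_of_sq_le_sq' (by nlinarith) (norm_nonneg _) |>.2

end trace

end FreeMono
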