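import Pool.Agent.Lib.MP_eee45d_an.Trace

open scoped ComplexOrder CStarAlgebra
open MulOpposite

noncomputable section

namespace FreeMono

section closure

variable {E F : Type*} [NormedAddCommGroup E] [NormedSpace ℂ E] [NormedAddCommGroup F]
  [NormedSpace ℂ F]

/-- The closed linear span of a set. -/
def cs (s : Set E) : Submodule ℂ E := (Submodule.span ℂ s).topologicalClosure

lemma cs_closed (s : Set E) : IsClosed (cs s : Set E) := Submodule.isClosed_topologicalClosure _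

lemma subset_cs {s : Set E} {x : E} (hx : x ∈ s) : x ∈ cs s :=
  Submodule.le_topologicalClosure _ (Submodule.subset_span hx)

lemma cs_le {s : Set E} {P : Submodule ℂ E} (hP : IsClosed (P : Set E)) (h : ∀ x ∈ s, x ∈ P) :
    cs s ≤ P := Submodule.topologicalClosure_minimal _ (Submodule.span_le.2 h) hP

lemma cs_induction {s : Set E} {p : E → Prop} (hs : ∀ x ∈ s, p x) (h0 : p 0)
    (hadd : ∀ x y, p x → p y → p (x + y))
    (hsmul : ∀ (c : ℂ) x, p x → p (c • x)) (hcl : IsClosed {x | p x}) : ∀ x ∈ cs s, p x := by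
  intro x hx
  let P : Submodule ℂ E :=
    { carrier := {x | p x}
      add_mem' := fun {a b} ha hb => hadd a b ha hb
      zero_mem' := h0
      smul_mem' := fun c x hx => hsmul c x hx }
  exact cs_le (P := P) hcl hs hx

end closure

section words

variable {A : Type*} [CStarAlgebra A] {κ : Type*}

@[simp] lemma ev_nil (Z : κ → A) : ev Z [] = 1 := rfl

@[simp] lemma ev_cons (Z : κ → A) (i : κ) (w : List κ) : ev Z (i :: w) = Z i * ev Z w := by
  simp [ev]

lemma ev_append (Z : κ → A) (u v : List κ) : ev Z (u ++ v) = ev Z u * ev Z v := by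
  simp [ev]

lemma star_ev {Z : κ → A} (hZ : ∀ i, IsSelfAdjoint (Z i)) (w : List κ) :
    star (ev Z w) = ev Z w.reverse := by
  induction w with
  | nil => simp
  | cons i w ih => rw [ev_cons, star_mul, ih, List.reverse_cons, ev_append, (hZ i).star_eq]; simp

/-- the algebraic span of monomials -/
def Alg (Z : κ → A) : Submodule ℂ A := Submodule.span ℂ (Set.range (ev Z))

/-- the norm closure of the span of monomials -/
def Pol (Z : κ → A) : Submodule ℂ A := cs (Set.range (ev Z))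

lemma Alg_ev (Z : κ → A) (w : List κ) : ev Z w ∈ Alg Z := Submodule.subset_span ⟨w, rfl⟩

lemma Pol_ev (Z : κ → A) (w : List κ) : ev Z w ∈ Pol Z := subset_cs ⟨w, rfl⟩

lemma Pol_closed (Z : κ → A) : IsClosed (Pol Z : Set A) := cs_closed _

lemma Pol_one (Z : κ → A) : (1 : A) ∈ Pol Z := Pol_ev Z []

lemma Pol_gen (Z : κ → A) (i : κ) : Z i ∈ Pol Z := by simpa using Pol_ev Z [i]

lemma Alg_mul {Z : κ → A} {a b : A} (ha : a ∈ Alg Z) (hb : b ∈ Alg Z) : a * b ∈ Alg Z := by
  refine Submodule.span_induction (p := fun a _ => a * b ∈ Alg Z) ?_ ?_ ?_ ?_ ha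
  · rintro _ ⟨u, rfl⟩
    refine Submodule.span_induction (p := fun b _ => ev Z u * b ∈ Alg Z) ?_ ?_ ?_ ?_ hb
    · rintro _ ⟨v, rfl⟩
      rw [← ev_append]; exact Alg_ev Z _
    · simp
    · intro x y _ _ hx hy
      rw [mul_add]; exact add_mem hx hy
    · intro c x _ hx
      rw [mul_smul_comm]; exact Submodule.smul_mem _ _ hx
  · simp
  · intro x y _ _ hx hy
    rw [add_mul]; exact add_mem hx hy
  · intro c x _ hx
    rw [smul_mul_assoc]; exact Submodule.smul_mem _ _ hx

lemma Alg_star {Z : κ → A} (hZ : ∀ i, IsSelfAdjoint (Z i)) {a : A} (ha : a ∈ Alg Z) :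
    star a ∈ Alg Z := by
  refine Submodule.span_induction (p := fun a _ => star a ∈ Alg Z) ?_ ?_ ?_ ?_ ha
  · rintro _ ⟨u, rfl⟩
    rw [star_ev hZ]; exact Alg_ev Z _
  · simp
  · intro x y _ _ hx hy
    rw [star_add]; exact add_mem hx hy
  · intro c x _ hx
    rw [star_smul]; exact Submodule.smul_mem _ _ hx

lemma Pol_mul {Z : κ → A} {a b : A} (ha : a ∈ Pol Z) (hb : b ∈ Pol Z) : a * b ∈ Pol Z := by
  refine cs_induction (p := fun a => a * b ∈ Pol Z) ?_ ?_ ?_ ?_ ?_ a ha
  · rintro _ ⟨u, rfl⟩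
    refine cs_induction (p := fun b => ev Z u * b ∈ Pol Z) ?_ ?_ ?_ ?_ ?_ b hb
    · rintro _ ⟨v, rfl⟩
      rw [← ev_append]; exact Pol_ev Z _
    · simp
    · intro x y hx hy
      rw [mul_add]; exact add_mem hx hy
    · intro c x hx
      rw [mul_smul_comm]; exact Submodule.smul_mem _ _ hx
    · exact (Pol_closed Z).preimage (by fun_prop : Continuous fun b => ev Z u * b)
  · simp
  · intro x y hx hy
    rw [add_mul]; exact add_mem hx hy
  · intro c x hx
    rw [smul_mul_assoc]; exact Submodule.smul_mem _ _ hx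
  · exact (Pol_closed Z).preimage (by fun_prop : Continuous fun a => a * b)

lemma Pol_star {Z : κ → A} (hZ : ∀ i, IsSelfAdjoint (Z i)) {a : A} (ha : a ∈ Pol Z) :
    star a ∈ Pol Z := by
  refine cs_induction (p := fun a => star a ∈ Pol Z) ?_ ?_ ?_ ?_ ?_ a ha
  · rintro _ ⟨u, rfl⟩
    rw [star_ev hZ]; exact Pol_ev Z _
  · simp
  · intro x y hx hy
    rw [star_add]; exact add_mem hx hy
  · intro c x hx
    rw [star_smul]; exact Submodule.smul_mem _ _ hx
  · exact (Pol_closed Z).preimage continuous_star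

lemma Pol_pow {Z : κ → A} {a : A} (ha : a ∈ Pol Z) (k : ℕ) : a ^ k ∈ Pol Z := by
  induction k with
  | zero => simpa using Pol_one Z
  | succ k ih => rw [pow_succ]; exact Pol_mul ih ha

lemma ev_mem {Z : κ → A} {κ' : Type*} {W : κ' → A} (h : ∀ i, W i ∈ Pol Z) (w : List κ') :
    ev W w ∈ Pol Z := by
  induction w with
  | nil => exact Pol_one Z
  | cons i w ih => rw [ev_cons]; exact Pol_mul (h i) ih

lemma Pol_le_Pol {Z : κ → A} {κ' : Type*} {W : κ' → A} (h : ∀ i, W i ∈ Pol Z) :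
    Pol W ≤ Pol Z := by
  refine cs_le (Pol_closed Z) ?_
  rintro _ ⟨w, rfl⟩
  exact ev_mem h w

/-- The relation `U ↦ V` on polynomials: closed span of the pairs `(U^w, V^w)`. -/
def Rel (U V : κ → A) : Submodule ℂ (A × A) := Pol (fun i => (U i, V i))

lemma ev_prod (U V : κ → A) (w : List κ) : ev (fun i => (U i, V i)) w = (ev U w, ev V w) := by
  induction w with
  | nil => rfl
  | cons i w ih => rw [ev_cons, ih]; simp

lemma Rel_gen (U V : κ → A) (i : κ) : (U i, V i) ∈ Rel U V := Pol_gen (fun i => (U i, V i)) i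

lemma Rel_ev (U V : κ → A) (w : List κ) : (ev U w, ev V w) ∈ Rel U V := by
  rw [← ev_prod]; exact Pol_ev _ w

lemma Rel_closed (U V : κ → A) : IsClosed (Rel U V : Set (A × A)) := Pol_closed _

lemma Rel_one (U V : κ → A) : ((1 : A), (1 : A)) ∈ Rel U V := Pol_one _

lemma Rel_zero (U V : κ → A) : ((0 : A), (0 : A)) ∈ Rel U V := zero_mem _

lemma Rel_add {U V : κ → A} {a b a' b' : A} (h : (a, b) ∈ Rel U V) (h' : (a', b') ∈ Rel U V) :
    (a + a', b + b') ∈ Rel U V := add_mem h h'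

lemma Rel_sub {U V : κ → A} {a b a' b' : A} (h : (a, b) ∈ Rel U V) (h' : (a', b') ∈ Rel U V) :
    (a - a', b - b') ∈ Rel U V := sub_mem h h'

lemma Rel_mul {U V : κ → A} {a b a' b' : A} (h : (a, b) ∈ Rel U V) (h' : (a', b') ∈ Rel U V) :
    (a * a', b * b') ∈ Rel U V := Pol_mul h h'

lemma Rel_star {U V : κ → A} (hU : ∀ i, IsSelfAdjoint (U i)) (hV : ∀ i, IsSelfAdjoint (V i))
    {a b : A} (h : (a, b) ∈ Rel U V) : (star a, star b) ∈ Rel U V :=
  Pol_star (Z := fun i => (U i, V i)) (fun i => Prod.ext (hU i) (hV i)) h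

lemma Rel_trace {τ : A →L[ℂ] ℂ} {U V : κ → A} (h : ∀ w, τ (ev U w) = τ (ev V w)) {a b : A}
    (hab : (a, b) ∈ Rel U V) : τ a = τ b := by
  refine cs_induction (p := fun p : A × A => τ p.1 = τ p.2) ?_ ?_ ?_ ?_ ?_ (a, b) hab
  · rintro _ ⟨w, rfl⟩
    rw [ev_prod]; exact h w
  · simp
  · intro x y hx hy
    simp [hx, hy]
  · intro c x hx
    simp [hx]
  · exact isClosed_eq (by fun_prop) (by fun_prop)

lemma Rel_norm {τ : A →L[ℂ] ℂ} (hτ : IsFaithfulTrace τ) {U V : κ → A}
    (hU : ∀ i, IsSelfAdjoint (U i)) (hV : ∀ i, IsSelfAdjoint (V i))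
    (h : ∀ w, τ (ev U w) = τ (ev V w)) {a b : A} (hab : (a, b) ∈ Rel U V) : ‖a‖ = ‖b‖ := by
  have key : ∀ k : ℕ, τ ((star a * a) ^ k) = τ ((star b * b) ^ k) := by
    intro k
    have h1 : ((star a * a) ^ k, (star b * b) ^ k) ∈ Rel U V :=
      Pol_pow (Rel_mul (Rel_star hU hV hab) hab) k
    exact Rel_trace h h1
  exact le_antisymm (hτ.norm_le key) (hτ.norm_le fun k => (key k).symm)

end words

end FreeMono
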